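import Mathlib

set_option autoImplicit false
set_option linter.unusedSectionVars false

open Finset

namespace Pool.Agent.NearOne652

open PowerSeries

variable {K : Type*} [Field K] [CharZero K]

/-- The formal series of `log (1 + t X)`. -/
noncomputable def lg (t : K) : K⟦X⟧ := PowerSeries.mk fun m => (-1) ^ (m + 1) * t ^ m / m

/-- The polynomial `1 + t X`. -/
noncomputable def up (t : K) : Polynomial K := 1 + Polynomial.C t * Polynomial.X

/-- The series `1 + t X`. -/
noncomputable def us (t : K) : K⟦X⟧ := 1 + C t * X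

theorem coe_up (t : K) : ((up t : Polynomial K) : K⟦X⟧) = us t := by
  simp [up, us]

theorem coeff_lg_zero (t : K) : coeff 0 (lg t) = 0 := by simp [lg]

theorem der_lg (t : K) : us t * d⁄dX K (lg t) = C t := by
  ext m
  rw [us, add_mul, one_mul, map_add, mul_assoc, coeff_C_mul, coeff_derivative, coeff_C]
  cases m with
  | zero => simp [lg]
  | succ m =>
    rw [coeff_succ_X_mul, coeff_derivative]
    simp only [lg, coeff_mk]
    have h1 : ((m : K) + 1) ≠ 0 := by exact_mod_cast Nat.succ_ne_zero m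
    have h2 : ((m : K) + 1 + 1) ≠ 0 := by exact_mod_cast Nat.succ_ne_zero (m + 1)
    rw [if_neg (Nat.succ_ne_zero m)]
    push_cast
    field_simp
    ring

theorem der_us (t : K) : d⁄dX K (us t) = C t := by
  unfold us
  rw [map_add, Derivation.leibniz]
  simp

theorem der_C_mul (a : K) (Y : K⟦X⟧) : d⁄dX K (C a * Y) = C a * d⁄dX K Y := by
  rw [Derivation.leibniz]
  simp

theorem us_mul_der_pow (t : K) (m : ℕ) :
    us t * d⁄dX K (us t ^ m) = C ((m : K) * t) * us t ^ m := by
  cases m with
  | zero => simp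
  | succ m =>
    rw [Derivation.leibniz_pow, der_us]
    simp only [smul_eq_mul, Nat.add_sub_cancel, nsmul_eq_mul]
    rw [map_mul, map_natCast]
    ring

/-- scalars in Euler's identity -/
def e0 (j : ℕ) : ℕ → ℤ
  | 0 => 1
  | m + 1 => ((j : ℤ) - m) * e0 j m

def e1 (j : ℕ) : ℕ → ℤ
  | 0 => 0
  | m + 1 => e0 j m + ((j : ℤ) - m) * e1 j m

theorem e0_ne (j m : ℕ) (h : m ≤ j) : e0 j m ≠ 0 := by
  induction m with
  | zero => simp [e0]
  | succ m ih =>
    rw [e0]
    refine mul_ne_zero ?_ (ih (by omega))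
    omega

theorem e0_zero (j m : ℕ) (h : j < m) : e0 j m = 0 := by
  induction m with
  | zero => omega
  | succ m ih =>
    rw [e0]
    by_cases h1 : j = m
    · subst h1
      simp
    · rw [ih (by omega)]
      simp

theorem e1_ne (j m : ℕ) (h : j < m) : e1 j m ≠ 0 := by
  induction m with
  | zero => omega
  | succ m ih =>
    rw [e1]
    by_cases h1 : j = m
    · subst h1
      simpa using e0_ne j j le_rfl
    · rw [e0_zero j m (by omega), zero_add]
      refine mul_ne_zero ?_ (ih (by omega))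
      omega

theorem euler (t : K) (j m : ℕ) :
    us t ^ m * (d⁄dX K)^[m] (us t ^ j * lg t) =
      C (t ^ m) * (C (e0 j m : K) * (us t ^ j * lg t) + C (e1 j m : K) * us t ^ j) := by
  induction m with
  | zero => simp [e0, e1]
  | succ m ih =>
    set G := us t ^ j * lg t with hG
    have h1 : us t * d⁄dX K (us t ^ m * (d⁄dX K)^[m] G) =
        C ((m : K) * t) * (us t ^ m * (d⁄dX K)^[m] G) + us t ^ (m + 1) * (d⁄dX K)^[m + 1] G := by
      rw [Derivation.leibniz, Function.iterate_succ_apply', smul_eq_mul, smul_eq_mul, mul_add]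
      have := us_mul_der_pow t m
      calc us t * (us t ^ m * d⁄dX K ((d⁄dX K)^[m] G)) +
            us t * ((d⁄dX K)^[m] G * d⁄dX K (us t ^ m))
          = us t ^ (m + 1) * d⁄dX K ((d⁄dX K)^[m] G) +
            (d⁄dX K)^[m] G * (us t * d⁄dX K (us t ^ m)) := by ring
        _ = _ := by rw [this]; ring
    have h2 : us t ^ (m + 1) * (d⁄dX K)^[m + 1] G =
        us t * d⁄dX K (us t ^ m * (d⁄dX K)^[m] G) -
        C ((m : K) * t) * (us t ^ m * (d⁄dX K)^[m] G) := by
      rw [h1]; ring
    rw [h2, ih]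
    have h3 : us t * d⁄dX K G = C ((j : K) * t) * G + us t ^ j * C t := by
      rw [hG, Derivation.leibniz, smul_eq_mul, smul_eq_mul, mul_add]
      have e3 := us_mul_der_pow t j
      have e4 := der_lg t
      calc us t * (us t ^ j * d⁄dX K (lg t)) + us t * (lg t * d⁄dX K (us t ^ j))
          = us t ^ j * (us t * d⁄dX K (lg t)) + lg t * (us t * d⁄dX K (us t ^ j)) := by ring
        _ = _ := by rw [e3, e4]; ring
    rw [der_C_mul, map_add, der_C_mul, der_C_mul]
    have h4 : us t * (C (t ^ m) * (C (e0 j m : K) * d⁄dX K G + C (e1 j m : K) * d⁄dX K (us t ^ j)))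
        = C (t ^ m) * (C (e0 j m : K) * (us t * d⁄dX K G) +
          C (e1 j m : K) * (us t * d⁄dX K (us t ^ j))) := by ring
    rw [h4, h3, us_mul_der_pow]
    simp only [e0, e1]
    push_cast
    simp only [map_add, map_mul, map_sub, map_pow, map_natCast, map_intCast, pow_succ]
    ring

theorem up_comp (t : K) (ht : t ≠ 0) :
    (Polynomial.C t⁻¹ * (Polynomial.X - 1)).comp (up t) = Polynomial.X := by
  simp only [up, Polynomial.mul_comp, Polynomial.C_comp, Polynomial.sub_comp, Polynomial.X_comp,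
    Polynomial.one_comp, add_sub_cancel_left]
  rw [← mul_assoc, ← Polynomial.C_mul, inv_mul_cancel₀ ht, Polynomial.C_1, one_mul]

theorem up_comp' (t : K) (ht : t ≠ 0) :
    (up t).comp (Polynomial.C t⁻¹ * (Polynomial.X - 1)) = Polynomial.X := by
  simp only [up, Polynomial.mul_comp, Polynomial.C_comp, Polynomial.add_comp, Polynomial.X_comp,
    Polynomial.one_comp]
  rw [← mul_assoc, ← Polynomial.C_mul, mul_inv_cancel₀ ht, Polynomial.C_1]
  ring

theorem natDegree_up_le (t : K) : (up t).natDegree ≤ 1 := by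
  unfold up
  refine (Polynomial.natDegree_add_le _ _).trans ?_
  have h1 : (Polynomial.C t * Polynomial.X : Polynomial K).natDegree ≤ 1 :=
    (Polynomial.natDegree_C_mul_le _ _).trans Polynomial.natDegree_X_le
  have h2 : (1 : Polynomial K).natDegree = 0 := Polynomial.natDegree_one
  omega

theorem natDegree_up (t : K) (ht : t ≠ 0) : (up t).natDegree = 1 := by
  have : up t = Polynomial.C t * Polynomial.X + Polynomial.C 1 := by
    simp [up, add_comm]
  rw [this]
  exact Polynomial.natDegree_linear ht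

theorem expand (t : K) (ht : t ≠ 0) (A : Polynomial K) (n : ℕ) (hA : A.natDegree < n) :
    ∃ a : ℕ → K, A = ∑ j ∈ range n, Polynomial.C (a j) * up t ^ j := by
  set Q : Polynomial K := A.comp (Polynomial.C t⁻¹ * (Polynomial.X - 1)) with hQ
  refine ⟨Q.coeff, ?_⟩
  have h1 : A = Q.comp (up t) := by
    rw [hQ, Polynomial.comp_assoc, up_comp t ht, Polynomial.comp_X]
  have h2 : Q.natDegree < n := by
    refine lt_of_le_of_lt (Polynomial.natDegree_comp_le) ?_
    have h3 : (Polynomial.C t⁻¹ * (Polynomial.X - 1) : Polynomial K).natDegree ≤ 1 := by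
      refine (Polynomial.natDegree_C_mul_le _ _).trans ?_
      rw [show (Polynomial.X - 1 : Polynomial K) = Polynomial.X - Polynomial.C 1 by simp]
      exact Polynomial.natDegree_X_sub_C_le 1
    calc _ ≤ A.natDegree * 1 := Nat.mul_le_mul_left _ h3
      _ = A.natDegree := mul_one _
      _ < n := hA
  conv_lhs => rw [h1]
  rw [Polynomial.comp, Polynomial.eval₂_eq_sum_range' _ h2]

theorem comb_zero (t : K) (ht : t ≠ 0) (a : ℕ → K) (n : ℕ)
    (h : ∑ j ∈ range n, Polynomial.C (a j) * up t ^ j = 0) : ∀ j < n, a j = 0 := by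
  intro j hj
  have h1 := congrArg (fun Q : Polynomial K =>
    (Q.comp (Polynomial.C t⁻¹ * (Polynomial.X - 1))).coeff j) h
  simp only [Polynomial.sum_comp, Polynomial.mul_comp, Polynomial.C_comp,
    Polynomial.pow_comp, up_comp' t ht, Polynomial.zero_comp, Polynomial.finsetSum_coeff,
    Polynomial.coeff_C_mul_X_pow, Polynomial.coeff_zero] at h1
  rw [Finset.sum_eq_single j] at h1
  · simpa using h1
  · intro i _ hi
    rw [if_neg (Ne.symm hi)]
  · intro hj'
    exact absurd (Finset.mem_range.2 hj) hj'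

theorem natDegree_comb (t : K) (a : ℕ → K) (n : ℕ) (hn : 0 < n) :
    (∑ j ∈ range n, Polynomial.C (a j) * up t ^ j).natDegree < n := by
  refine lt_of_le_of_lt (Polynomial.natDegree_sum_le_of_forall_le (n := n - 1) _ _ ?_) (by omega)
  intro j hj
  refine (Polynomial.natDegree_C_mul_le _ _).trans ?_
  refine (Polynomial.natDegree_pow_le_of_le j (natDegree_up_le t)).trans ?_
  have := Finset.mem_range.1 hj
  omega

theorem iter_add (n : ℕ) (f g : K⟦X⟧) :
    (d⁄dX K)^[n] (f + g) = (d⁄dX K)^[n] f + (d⁄dX K)^[n] g := by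
  induction n with
  | zero => rfl
  | succ n ih => simp only [Function.iterate_succ_apply', ih, map_add]

theorem iter_sum {ι : Type*} (n : ℕ) (s : Finset ι) (f : ι → K⟦X⟧) :
    (d⁄dX K)^[n] (∑ i ∈ s, f i) = ∑ i ∈ s, (d⁄dX K)^[n] (f i) := by
  induction n with
  | zero => rfl
  | succ n ih =>
    rw [Function.iterate_succ_apply', ih, map_sum]
    exact Finset.sum_congr rfl fun i _ => (Function.iterate_succ_apply' _ _ _).symm

theorem iter_C_mul (n : ℕ) (a : K) (f : K⟦X⟧) :
    (d⁄dX K)^[n] (C a * f) = C a * (d⁄dX K)^[n] f := by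
  induction n with
  | zero => rfl
  | succ n ih => simp only [Function.iterate_succ_apply', ih, der_C_mul]

theorem iter_poly (n : ℕ) (A : Polynomial K) (hA : A.natDegree < n) :
    (d⁄dX K)^[n] (A : K⟦X⟧) = 0 := by
  have h : ∀ m, (d⁄dX K)^[m] (A : K⟦X⟧) = ((Polynomial.derivative^[m] A : Polynomial K) : K⟦X⟧) := by
    intro m
    induction m with
    | zero => rfl
    | succ m ih => simp only [Function.iterate_succ_apply', ih, derivative_coe]
  rw [h, Polynomial.iterate_derivative_eq_zero hA, Polynomial.coe_zero]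

theorem coprime_up (s t : K) (h : s ≠ t) : IsCoprime (up s) (up t) := by
  have hst : t - s ≠ 0 := sub_ne_zero.2 (Ne.symm h)
  refine ⟨Polynomial.C (t / (t - s)), Polynomial.C (-(s / (t - s))), ?_⟩
  unfold up
  have h1 : (Polynomial.C (t / (t - s)) : Polynomial K) + Polynomial.C (-(s / (t - s))) = 1 := by
    rw [← Polynomial.C_add, ← Polynomial.C_1]
    congr 1
    field_simp
    ring
  have h2 : (Polynomial.C (t / (t - s)) : Polynomial K) * Polynomial.C s
      + Polynomial.C (-(s / (t - s))) * Polynomial.C t = 0 := by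
    rw [← Polynomial.C_mul, ← Polynomial.C_mul, ← Polynomial.C_add, ← Polynomial.C_0]
    congr 1
    field_simp
    ring
  linear_combination h1 + Polynomial.X * h2

/-- Zero estimate and independence for linear forms in logarithms with polynomial coefficients. -/
theorem lin_indep (n : ℕ) (t : Fin n → K) (ht : ∀ l, t l ≠ 0) (hinj : Function.Injective t)
    (A : Fin n → Polynomial K) (A0 : Polynomial K) (hA : ∀ l, (A l).natDegree < n)
    (hA0 : A0.natDegree < n)
    (hvan : ∀ r < n * n + n, coeff r ((A0 : K⟦X⟧) + ∑ l, (A l : K⟦X⟧) * lg (t l)) = 0) :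
    (∀ l, A l = 0) ∧ A0 = 0 := by
  have hn : 0 < n := by omega
  choose a ha using fun l => expand (t l) (ht l) (A l) n (hA l)
  set H : K⟦X⟧ := (A0 : K⟦X⟧) + ∑ l, (A l : K⟦X⟧) * lg (t l) with hH
  set R : Fin n → Polynomial K := fun l =>
    ∑ j ∈ range n, Polynomial.C (a l j * (t l) ^ n * (e1 j n : K)) * up (t l) ^ j with hR
  have hRl : ∀ l, us (t l) ^ n * (d⁄dX K)^[n] ((A l : K⟦X⟧) * lg (t l)) = (R l : K⟦X⟧) := by
    intro l
    have e : (A l : K⟦X⟧) * lg (t l) = ∑ j ∈ range n, C (a l j) * (us (t l) ^ j * lg (t l)) := by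
      conv_lhs => rw [ha l]
      rw [← Polynomial.coeToPowerSeries.ringHom_apply, map_sum, Finset.sum_mul]
      refine Finset.sum_congr rfl fun j _ => ?_
      rw [map_mul, map_pow, Polynomial.coeToPowerSeries.ringHom_apply,
        Polynomial.coeToPowerSeries.ringHom_apply, coe_up, Polynomial.coe_C, mul_assoc]
    rw [e, iter_sum, Finset.mul_sum, hR]
    simp only
    rw [← Polynomial.coeToPowerSeries.ringHom_apply, map_sum]
    refine Finset.sum_congr rfl fun j hj => ?_
    rw [iter_C_mul, mul_left_comm, euler, e0_zero j n (Finset.mem_range.1 hj)]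
    rw [Polynomial.coeToPowerSeries.ringHom_apply, Polynomial.coe_mul, Polynomial.coe_pow,
      coe_up, Polynomial.coe_C]
    simp only [map_mul, map_pow, Int.cast_zero, map_zero]
    ring
  set W : Polynomial K := ∑ l, (∏ m ∈ univ.erase l, up (t m)) ^ n * R l with hW
  have hWs : (∏ l, us (t l)) ^ n * (d⁄dX K)^[n] H = (W : K⟦X⟧) := by
    rw [hH, iter_add, iter_poly n A0 hA0, zero_add, iter_sum, Finset.mul_sum, hW,
      ← Polynomial.coeToPowerSeries.ringHom_apply, map_sum]
    refine Finset.sum_congr rfl fun l _ => ?_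
    rw [← Finset.mul_prod_erase univ _ (Finset.mem_univ l), mul_pow, mul_comm (us (t l) ^ n),
      mul_assoc, hRl l, map_mul, map_pow, map_prod, Polynomial.coeToPowerSeries.ringHom_apply]
    simp only [Polynomial.coeToPowerSeries.ringHom_apply, coe_up]
  have hdvd : (X : K⟦X⟧) ^ (n * n) ∣ (W : K⟦X⟧) := by
    rw [← hWs]
    apply Dvd.dvd.mul_left
    rw [X_pow_dvd_iff]
    intro r hr
    rw [coeff_iterate_derivative, hvan (r + n) (by omega), mul_zero]
  have hWdeg : W.natDegree < n * n := by
    refine lt_of_le_of_lt (Polynomial.natDegree_sum_le_of_forall_le (n := n * (n - 1) + (n - 1))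
      _ _ ?_) ?_
    · intro l _
      refine Polynomial.natDegree_mul_le_of_le ?_ ?_
      · refine Polynomial.natDegree_pow_le_of_le n ?_
        refine (Polynomial.natDegree_prod_le _ _).trans ?_
        refine (Finset.sum_le_sum fun m _ => natDegree_up_le (t m)).trans ?_
        rw [Finset.sum_const, Finset.card_erase_of_mem (Finset.mem_univ l), Finset.card_univ,
          Fintype.card_fin]
        simp
      · have := natDegree_comb (t l) (fun j => a l j * (t l) ^ n * (e1 j n : K)) n hn
        simp only [hR]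
        omega
    · obtain ⟨k, rfl⟩ : ∃ k, n = k + 1 := ⟨n - 1, by omega⟩
      simp only [Nat.add_sub_cancel]
      nlinarith
  have hW0 : W = 0 := by
    rw [X_pow_dvd_iff] at hdvd
    ext r
    rw [Polynomial.coeff_zero]
    by_cases hr : r < n * n
    · have := hdvd r hr
      rwa [Polynomial.coeff_coe] at this
    · exact Polynomial.coeff_eq_zero_of_natDegree_lt (by omega)
  have hR0 : ∀ l, R l = 0 := by
    intro l
    have h1 : up (t l) ^ n ∣ (∏ m ∈ univ.erase l, up (t m)) ^ n * R l := by
      have h2 : (∏ m ∈ univ.erase l, up (t m)) ^ n * R l =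
          - ∑ k ∈ univ.erase l, (∏ m ∈ univ.erase k, up (t m)) ^ n * R k := by
        rw [eq_neg_iff_add_eq_zero]
        have := Finset.add_sum_erase univ
          (fun k => (∏ m ∈ univ.erase k, up (t m)) ^ n * R k) (Finset.mem_univ l)
        rw [this]
        exact hW0
      rw [h2, dvd_neg]
      apply Finset.dvd_sum
      intro k hk
      apply Dvd.dvd.mul_right
      apply pow_dvd_pow_of_dvd
      apply Finset.dvd_prod_of_mem
      rw [Finset.mem_erase] at hk ⊢
      exact ⟨Ne.symm hk.1, Finset.mem_univ _⟩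
    have h3 : IsCoprime (up (t l) ^ n) ((∏ m ∈ univ.erase l, up (t m)) ^ n) := by
      apply IsCoprime.pow
      apply IsCoprime.prod_right
      intro m hm
      apply coprime_up
      intro h
      exact (Finset.mem_erase.1 hm).1 (hinj h).symm
    have h4 : up (t l) ^ n ∣ R l := h3.dvd_of_dvd_mul_left h1
    apply Polynomial.eq_zero_of_dvd_of_natDegree_lt h4
    rw [Polynomial.natDegree_pow, natDegree_up _ (ht l), mul_one]
    exact natDegree_comb (t l) (fun j => a l j * (t l) ^ n * (e1 j n : K)) n hn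
  have hA1 : ∀ l, A l = 0 := by
    intro l
    have h1 := comb_zero (t l) (ht l) _ n (hR0 l)
    rw [ha l]
    apply Finset.sum_eq_zero
    intro j hj
    have h2 := h1 j (Finset.mem_range.1 hj)
    have h3 : (e1 j n : K) ≠ 0 := by exact_mod_cast e1_ne j n (Finset.mem_range.1 hj)
    have h4 : a l j = 0 := by
      rcases mul_eq_zero.1 h2 with h | h
      · rcases mul_eq_zero.1 h with h | h
        · exact h
        · exact absurd h (pow_ne_zero _ (ht l))
      · exact absurd h h3
    rw [h4, Polynomial.C_0, zero_mul]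
  refine ⟨hA1, ?_⟩
  ext r
  rw [Polynomial.coeff_zero]
  by_cases hr : r < n
  · have h1 := hvan r (by omega)
    rw [hH] at h1
    have h2 : ∑ l, (A l : K⟦X⟧) * lg (t l) = 0 := by
      apply Finset.sum_eq_zero
      intro l _
      rw [hA1 l, Polynomial.coe_zero, zero_mul]
    rw [h2, add_zero, Polynomial.coeff_coe] at h1
    exact h1
  · exact Polynomial.coeff_eq_zero_of_natDegree_lt (by omega)

theorem prods_indep (n : ℕ) (t : Fin n → K) (ht : ∀ l, t l ≠ 0) (hinj : Function.Injective t)
    (x : Fin n → K)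
    (h : ∑ k, Polynomial.C (x k) * ∏ m ∈ univ.erase k, up (t m) = 0) : ∀ k, x k = 0 := by
  intro k
  have h1 := congrArg (Polynomial.eval (-(t k)⁻¹)) h
  rw [Polynomial.eval_finsetSum, Finset.sum_eq_single k] at h1
  · rw [Polynomial.eval_mul, Polynomial.eval_C, Polynomial.eval_prod, Polynomial.eval_zero] at h1
    rcases mul_eq_zero.1 h1 with h2 | h2
    · exact h2
    · exfalso
      obtain ⟨m, hm, hm2⟩ := Finset.prod_eq_zero_iff.1 h2
      simp only [up, Polynomial.eval_add, Polynomial.eval_one, Polynomial.eval_mul,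
        Polynomial.eval_C, Polynomial.eval_X] at hm2
      have h3 : t m = t k := by
        have := ht k
        field_simp at hm2
        linear_combination -hm2
      exact (Finset.mem_erase.1 hm).1 (hinj h3)
  · intro m _ hmk
    rw [Polynomial.eval_mul, Polynomial.eval_prod]
    apply mul_eq_zero_of_right
    apply Finset.prod_eq_zero (i := k)
    · exact Finset.mem_erase.2 ⟨Ne.symm hmk, Finset.mem_univ _⟩
    · simp only [up, Polynomial.eval_add, Polynomial.eval_one, Polynomial.eval_mul,
        Polynomial.eval_C, Polynomial.eval_X]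
      have := ht k
      field_simp
      ring
  · intro hk
    exact absurd (Finset.mem_univ k) hk

theorem coeff0_mul (f g : K⟦X⟧) : coeff 0 (f * g) = coeff 0 f * coeff 0 g := by
  simp [coeff_zero_eq_constantCoeff]

/-- Zero estimate and independence for quadratic polynomials in logarithms. -/
theorem quad_indep (n : ℕ) (t : Fin n → K) (ht : ∀ l, t l ≠ 0) (hinj : Function.Injective t)
    (c0 : K) (c : Fin n → K) (q : Fin n → Fin n → K)
    (hvan : ∀ r ≤ n * n + n, coeff r (C c0 + ∑ k, C (c k) * lg (t k) +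
      ∑ k, ∑ l, C (q k l) * (lg (t k) * lg (t l))) = 0) :
    c0 = 0 ∧ (∀ k, c k = 0) ∧ ∀ k l, q k l + q l k = 0 := by
  set F : K⟦X⟧ := C c0 + ∑ k, C (c k) * lg (t k) +
      ∑ k, ∑ l, C (q k l) * (lg (t k) * lg (t l)) with hF
  have hc0 : c0 = 0 := by
    have h1 := hvan 0 (Nat.zero_le _)
    rw [hF, map_add, map_add, map_sum, map_sum] at h1
    have h2 : ∑ k, coeff 0 (C (c k) * lg (t k)) = 0 := by
      apply Finset.sum_eq_zero
      intro k _
      rw [coeff_C_mul, coeff_lg_zero, mul_zero]
    have h3 : ∑ k, coeff 0 (∑ l, C (q k l) * (lg (t k) * lg (t l))) = 0 := by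
      apply Finset.sum_eq_zero
      intro k _
      rw [map_sum]
      apply Finset.sum_eq_zero
      intro l _
      rw [coeff_C_mul, coeff0_mul, coeff_lg_zero, zero_mul, mul_zero]
    rw [h2, h3] at h1
    simpa using h1
  refine ⟨hc0, ?_⟩
  rcases Nat.eq_zero_or_pos n with hn | hn
  · subst hn
    exact ⟨fun k => k.elim0, fun k => k.elim0⟩
  set A0 : Polynomial K := ∑ k, Polynomial.C (c k * t k) * ∏ m ∈ univ.erase k, up (t m) with hA0
  set A : Fin n → Polynomial K := fun l =>
    ∑ k, Polynomial.C ((q k l + q l k) * t k) * ∏ m ∈ univ.erase k, up (t m) with hA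
  have hdeg : ∀ x : Fin n → K,
      (∑ k, Polynomial.C (x k) * ∏ m ∈ univ.erase k, up (t m)).natDegree < n := by
    intro x
    refine lt_of_le_of_lt (Polynomial.natDegree_sum_le_of_forall_le (n := n - 1) _ _ ?_) (by omega)
    intro k _
    refine (Polynomial.natDegree_C_mul_le _ _).trans ?_
    refine (Polynomial.natDegree_prod_le _ _).trans ?_
    refine (Finset.sum_le_sum fun m _ => natDegree_up_le (t m)).trans ?_
    rw [Finset.sum_const, Finset.card_erase_of_mem (Finset.mem_univ k), Finset.card_univ,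
      Fintype.card_fin]
    simp
  have hcoe : ∀ x : Fin n → K,
      ((∑ k, Polynomial.C (x k) * ∏ m ∈ univ.erase k, up (t m) : Polynomial K) : K⟦X⟧) =
      ∑ k, C (x k) * ∏ m ∈ univ.erase k, us (t m) := by
    intro x
    rw [← Polynomial.coeToPowerSeries.ringHom_apply, map_sum]
    refine Finset.sum_congr rfl fun k _ => ?_
    rw [map_mul, map_prod]
    simp only [Polynomial.coeToPowerSeries.ringHom_apply, coe_up, Polynomial.coe_C]
  have hPD : ∀ k, (∏ m, us (t m)) * d⁄dX K (lg (t k)) =
      C (t k) * ∏ m ∈ univ.erase k, us (t m) := by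
    intro k
    rw [← Finset.mul_prod_erase univ _ (Finset.mem_univ k), ← der_lg]
    ring
  have hPF : (∏ m, us (t m)) * d⁄dX K F = (A0 : K⟦X⟧) + ∑ l, (A l : K⟦X⟧) * lg (t l) := by
    have e1 : d⁄dX K F = ∑ k, C (c k) * d⁄dX K (lg (t k)) +
        ∑ k, ∑ l, C (q k l) * (lg (t k) * d⁄dX K (lg (t l)) + lg (t l) * d⁄dX K (lg (t k))) := by
      rw [hF, map_add, map_add, derivative_C, zero_add, map_sum, map_sum]
      congr 1
      · exact Finset.sum_congr rfl fun k _ => der_C_mul _ _
      · refine Finset.sum_congr rfl fun k _ => ?_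
        rw [map_sum]
        refine Finset.sum_congr rfl fun l _ => ?_
        rw [der_C_mul, Derivation.leibniz, smul_eq_mul, smul_eq_mul]
    rw [e1, mul_add, hA0, hcoe]
    congr 1
    · rw [Finset.mul_sum]
      refine Finset.sum_congr rfl fun k _ => ?_
      rw [mul_left_comm, hPD, map_mul]
      ring
    · rw [Finset.mul_sum]
      have e2 : ∀ k l, (∏ m, us (t m)) * (C (q k l) * (lg (t k) * d⁄dX K (lg (t l)) +
          lg (t l) * d⁄dX K (lg (t k)))) =
          C (q k l * t l) * (∏ m ∈ univ.erase l, us (t m)) * lg (t k) +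
          C (q k l * t k) * (∏ m ∈ univ.erase k, us (t m)) * lg (t l) := by
        intro k l
        have h1 := hPD k
        have h2 := hPD l
        rw [map_mul, map_mul]
        linear_combination (C (q k l) * lg (t k)) * h2 + (C (q k l) * lg (t l)) * h1
      have e3 : ∑ k, (∏ m, us (t m)) * ∑ l, C (q k l) * (lg (t k) * d⁄dX K (lg (t l)) +
          lg (t l) * d⁄dX K (lg (t k))) =
          ∑ k, ∑ l, C (q k l * t l) * (∏ m ∈ univ.erase l, us (t m)) * lg (t k) +
          ∑ k, ∑ l, C (q k l * t k) * (∏ m ∈ univ.erase k, us (t m)) * lg (t l) := by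
        rw [← Finset.sum_add_distrib]
        refine Finset.sum_congr rfl fun k _ => ?_
        rw [Finset.mul_sum, ← Finset.sum_add_distrib]
        exact Finset.sum_congr rfl fun l _ => e2 k l
      rw [e3, Finset.sum_comm (f := fun k l =>
        C (q k l * t k) * (∏ m ∈ univ.erase k, us (t m)) * lg (t l)), ← Finset.sum_add_distrib]
      refine Finset.sum_congr rfl fun l _ => ?_
      rw [hA]
      simp only
      rw [hcoe, Finset.sum_mul, ← Finset.sum_add_distrib]
      refine Finset.sum_congr rfl fun k _ => ?_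
      simp only [map_mul, map_add]
      ring
  have hvan2 : ∀ r < n * n + n, coeff r ((A0 : K⟦X⟧) + ∑ l, (A l : K⟦X⟧) * lg (t l)) = 0 := by
    rw [← hPF]
    have h1 : (X : K⟦X⟧) ^ (n * n + n) ∣ (∏ m, us (t m)) * d⁄dX K F := by
      apply Dvd.dvd.mul_left
      rw [X_pow_dvd_iff]
      intro r hr
      rw [coeff_derivative, hvan (r + 1) (by omega), zero_mul]
    exact X_pow_dvd_iff.1 h1
  obtain ⟨h1, h2⟩ := lin_indep n t ht hinj A A0 (fun l => hdeg _) (hdeg _) hvan2
  constructor
  · intro k
    have h3 := prods_indep n t ht hinj _ h2 k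
    rcases mul_eq_zero.1 h3 with h | h
    · exact h
    · exact absurd h (ht k)
  · intro k l
    have h3 := prods_indep n t ht hinj _ (h1 l) k
    rcases mul_eq_zero.1 h3 with h | h
    · exact h
    · exact absurd h (ht k)

/-- Linear spaces of `2 × 2` matrices of rank at most one. -/
theorem rank_one_aux {ι : Type*} (a b c d : ι → K)
    (h : ∀ i j, a i * d j + a j * d i - b i * c j - b j * c i = 0) (i0 : ι) (ha : a i0 ≠ 0) :
    (∃ x y : K, (x ≠ 0 ∨ y ≠ 0) ∧ ∀ i, x * a i + y * c i = 0 ∧ x * b i + y * d i = 0) ∨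
    (∃ x y : K, (x ≠ 0 ∨ y ≠ 0) ∧ ∀ i, x * a i + y * b i = 0 ∧ x * c i + y * d i = 0) := by
  set a0 := a i0
  set b0 := b i0
  set c0 := c i0
  set d0 := d i0
  have hdet : a0 * d0 = b0 * c0 := by
    have := h i0 i0
    have h2 : (2 : K) * (a0 * d0 - b0 * c0) = 0 := by linear_combination this
    rcases mul_eq_zero.1 h2 with h3 | h3
    · exact absurd h3 (by norm_num)
    · exact sub_eq_zero.1 h3
  have hd : ∀ i, a0 ^ 2 * d i = -(a i * b0 * c0) + a0 * b0 * c i + a0 * b i * c0 := by
    intro i
    have := h i0 i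
    linear_combination a0 * this - a i * hdet
  have key : ∀ i j, (b0 * a i - a0 * b i) * (c0 * a j - a0 * c j) +
      (b0 * a j - a0 * b j) * (c0 * a i - a0 * c i) = 0 := by
    intro i j
    have h1 := h i j
    have h2 := hd i
    have h3 := hd j
    linear_combination (-a0 ^ 2) * h1 + a i * h3 + a j * h2
  have hself : ∀ i, (b0 * a i - a0 * b i) * (c0 * a i - a0 * c i) = 0 := by
    intro i
    have := key i i
    have h2 : (2 : K) * ((b0 * a i - a0 * b i) * (c0 * a i - a0 * c i)) = 0 := by
      linear_combination this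
    rcases mul_eq_zero.1 h2 with h3 | h3
    · exact absurd h3 (by norm_num)
    · exact h3
  by_cases hB : ∀ i, b0 * a i - a0 * b i = 0
  · right
    refine ⟨b0, -a0, Or.inr (neg_ne_zero.2 ha), fun i => ⟨?_, ?_⟩⟩
    · linear_combination hB i
    · have h1 : a0 * (b0 * c i + -a0 * d i) = 0 := by
        linear_combination c0 * hB i - hd i
      exact (mul_eq_zero.1 h1).resolve_left ha
  · left
    push Not at hB
    obtain ⟨i1, hi1⟩ := hB
    have hC1 : c0 * a i1 - a0 * c i1 = 0 := (mul_eq_zero.1 (hself i1)).resolve_left hi1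
    have hC : ∀ j, c0 * a j - a0 * c j = 0 := by
      intro j
      have := key i1 j
      rw [hC1, mul_zero, add_zero] at this
      exact (mul_eq_zero.1 this).resolve_left hi1
    refine ⟨c0, -a0, Or.inr (neg_ne_zero.2 ha), fun i => ⟨?_, ?_⟩⟩
    · linear_combination hC i
    · have h1 : a0 * (c0 * b i + -a0 * d i) = 0 := by
        linear_combination b0 * hC i - hd i
      exact (mul_eq_zero.1 h1).resolve_left ha

theorem rank_one {ι : Type*} (a b c d : ι → K)
    (h : ∀ i j, a i * d j + a j * d i - b i * c j - b j * c i = 0) :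
    (∃ x y : K, (x ≠ 0 ∨ y ≠ 0) ∧ ∀ i, x * a i + y * c i = 0 ∧ x * b i + y * d i = 0) ∨
    (∃ x y : K, (x ≠ 0 ∨ y ≠ 0) ∧ ∀ i, x * a i + y * b i = 0 ∧ x * c i + y * d i = 0) := by
  by_cases ha : ∃ i, a i ≠ 0
  · obtain ⟨i, hi⟩ := ha
    exact rank_one_aux a b c d h i hi
  by_cases hb : ∃ i, b i ≠ 0
  · obtain ⟨i, hi⟩ := hb
    rcases rank_one_aux b a d c (fun i j => by linear_combination -(h i j)) i hi with h1 | h1
    · obtain ⟨x, y, hxy, h2⟩ := h1
      exact Or.inl ⟨x, y, hxy, fun i => ⟨(h2 i).2, (h2 i).1⟩⟩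
    · obtain ⟨x, y, hxy, h2⟩ := h1
      refine Or.inr ⟨y, x, hxy.symm, fun i => ⟨?_, ?_⟩⟩
      · linear_combination (h2 i).1
      · linear_combination (h2 i).2
  by_cases hc : ∃ i, c i ≠ 0
  · obtain ⟨i, hi⟩ := hc
    rcases rank_one_aux c d a b (fun i j => by linear_combination -(h i j)) i hi with h1 | h1
    · obtain ⟨x, y, hxy, h2⟩ := h1
      refine Or.inl ⟨y, x, hxy.symm, fun i => ⟨?_, ?_⟩⟩
      · linear_combination (h2 i).1
      · linear_combination (h2 i).2
    · obtain ⟨x, y, hxy, h2⟩ := h1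
      exact Or.inr ⟨x, y, hxy, fun i => ⟨(h2 i).2, (h2 i).1⟩⟩
  push Not at ha hb
  refine Or.inl ⟨1, 0, Or.inl one_ne_zero, fun i => ⟨?_, ?_⟩⟩
  · rw [ha i]; ring
  · rw [hb i]; ring

end Pool.Agent.NearOne652
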