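import Mathlib

set_option autoImplicit false
set_option linter.unusedSectionVars false

open Finset

namespace Pool.Agent.NearOne652.G

variable (p : ℕ) [Fact p.Prime] {E : Type*} [NormedField E] [NormedAlgebra ℚ_[p] E]
  [IsUltrametricDist E]

include p

theorem norm_natCast_ge (N : ℕ) (hN : N ≠ 0) : 1 / (N : ℝ) ≤ ‖(N : E)‖ := by
  have h1 : ‖(N : E)‖ = ‖(N : ℚ_[p])‖ := by
    rw [← norm_algebraMap' E (N : ℚ_[p]), map_natCast]
  rw [h1, Padic.norm_eq_zpow_neg_valuation (Nat.cast_ne_zero.2 hN), Padic.valuation_natCast]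
  have h2 : p ^ padicValNat p N ≤ N :=
    Nat.le_of_dvd (Nat.pos_of_ne_zero hN) pow_padicValNat_dvd
  rw [zpow_neg, zpow_natCast, one_div]
  have hp : 0 < p := (Fact.out : p.Prime).pos
  apply inv_anti₀ (by positivity)
  exact_mod_cast h2

theorem norm_p_pow (N : ℕ) : ‖((p : E)) ^ N‖ = 1 / (p : ℝ) ^ N := by
  rw [norm_pow]
  have h1 : ‖(p : E)‖ = ‖(p : ℚ_[p])‖ := by
    rw [← norm_algebraMap' E (p : ℚ_[p]), map_natCast]
  rw [h1, Padic.norm_p, inv_pow, one_div]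

theorem norm_le_one_of_isIntegral (x : E) (hx : IsIntegral ℤ x) : ‖x‖ ≤ 1 := by
  by_contra hcon
  push Not at hcon
  obtain ⟨P, hP, hPx⟩ := hx
  have hx0 : 0 < ‖x‖ := by linarith
  rcases Nat.eq_zero_or_pos P.natDegree with h0 | hpos
  · have h1 : P = 1 := by
      have h2 := Polynomial.eq_C_of_natDegree_eq_zero h0
      have h3 : P.coeff 0 = 1 := by
        have h4 := hP
        rw [Polynomial.Monic, Polynomial.leadingCoeff, h0] at h4
        exact h4
      rw [h2, h3, Polynomial.C_1]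
    rw [h1] at hPx
    simp at hPx
  · have h2 : Polynomial.eval₂ (algebraMap ℤ (E)) x P =
        ∑ i ∈ range P.natDegree, algebraMap ℤ (E) (P.coeff i) * x ^ i
          + x ^ P.natDegree := by
      rw [Polynomial.eval₂_eq_sum_range, Finset.sum_range_succ, Polynomial.coeff_natDegree,
        hP.leadingCoeff, map_one, one_mul]
    rw [h2] at hPx
    have h3 : x ^ P.natDegree =
        - ∑ i ∈ range P.natDegree, algebraMap ℤ (E) (P.coeff i) * x ^ i := by
      rw [eq_neg_iff_add_eq_zero, add_comm]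
      exact hPx
    have h4 : ‖x ^ P.natDegree‖ ≤ ‖x‖ ^ (P.natDegree - 1) := by
      rw [h3, norm_neg]
      apply IsUltrametricDist.norm_sum_le_of_forall_le_of_nonneg (by positivity)
      intro i hi
      rw [norm_mul, norm_pow]
      have h5 : ‖algebraMap ℤ (E) (P.coeff i)‖ ≤ 1 := by
        rw [eq_intCast]
        exact IsUltrametricDist.norm_intCast_le_one _ _
      have h6 : ‖x‖ ^ i ≤ ‖x‖ ^ (P.natDegree - 1) :=
        pow_le_pow_right₀ hcon.le (by have := Finset.mem_range.1 hi; omega)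
      calc ‖algebraMap ℤ (E) (P.coeff i)‖ * ‖x‖ ^ i ≤ 1 * ‖x‖ ^ (P.natDegree - 1) :=
            mul_le_mul h5 h6 (by positivity) zero_le_one
        _ = _ := one_mul _
    rw [norm_pow] at h4
    have h7 : ‖x‖ ^ (P.natDegree - 1) < ‖x‖ ^ P.natDegree :=
      pow_lt_pow_right₀ hcon (by omega)
    linarith

/-- Liouville's inequality at a `p`-adic place. -/
theorem liouville (K : Type*) [Field K] [NumberField K] (σ : K →+* E) (g : K)
    (hg : IsIntegral ℤ g) (hg0 : g ≠ 0) (X : ℝ) (hX : ∀ φ : K →+* ℂ, ‖φ g‖ ≤ X) :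
    1 ≤ X ^ (Module.finrank ℚ K) * ‖σ g‖ := by
  obtain ⟨g', hg'⟩ : ∃ g' : NumberField.RingOfIntegers K, (g' : K) = g := ⟨⟨g, hg⟩, rfl⟩
  have hg'0 : g' ≠ 0 := by
    intro h
    apply hg0
    rw [← hg', h]
    simp
  set N : ℕ := (Algebra.norm ℤ g').natAbs with hN
  have hN0 : N ≠ 0 := by
    rw [hN]
    exact Int.natAbs_ne_zero.2 (Algebra.norm_ne_zero_iff.2 hg'0)
  have hdvd : g' ∣ (N : NumberField.RingOfIntegers K) := by
    have h1 := Ideal.absNorm_mem (Ideal.span {g'})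
    rw [Ideal.absNorm_span_singleton] at h1
    exact Ideal.mem_span_singleton.1 h1
  obtain ⟨h, hh⟩ := hdvd
  have hh' : (N : K) = g * (h : K) := by
    have := congrArg (fun x : NumberField.RingOfIntegers K => (x : K)) hh
    rw [← hg']
    simpa using this
  have h2 : ‖(N : E)‖ ≤ ‖σ g‖ := by
    have h3 : (N : E) = σ g * σ (h : K) := by
      rw [← map_mul, ← hh', map_natCast]
    rw [h3, norm_mul]
    have h4 : ‖σ (h : K)‖ ≤ 1 := by
      apply norm_le_one_of_isIntegral p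
      have h5 : IsIntegral ℤ (h : K) := h.2
      exact h5.map (σ.toIntAlgHom)
    calc ‖σ g‖ * ‖σ (h : K)‖ ≤ ‖σ g‖ * 1 := mul_le_mul_of_nonneg_left h4 (norm_nonneg _)
      _ = _ := mul_one _
  have h6 := norm_natCast_ge p (E := E) N hN0
  have h7 : (N : ℝ) ≤ X ^ (Module.finrank ℚ K) := by
    have h8 := Algebra.norm_eq_prod_embeddings ℚ ℂ g
    have h9 : ((Algebra.norm ℤ g' : ℤ) : ℚ) = Algebra.norm ℚ g := by
      have := Algebra.coe_norm_int g'
      rw [← hg']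
      exact this
    have h10 : ‖(algebraMap ℚ ℂ) (Algebra.norm ℚ g)‖ = (N : ℝ) := by
      rw [← h9, hN]
      simp
    rw [← h10, h8, norm_prod]
    calc ∏ τ : K →ₐ[ℚ] ℂ, ‖τ g‖ ≤ ∏ τ : K →ₐ[ℚ] ℂ, X :=
          Finset.prod_le_prod (fun _ _ => norm_nonneg _) (fun τ _ => hX τ.toRingHom)
      _ = X ^ (Module.finrank ℚ K) := by
          rw [Finset.prod_const, Finset.card_univ, AlgHom.card]
  have hNpos : (0 : ℝ) < N := by
    have : 0 < N := Nat.pos_of_ne_zero hN0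
    exact_mod_cast this
  calc (1 : ℝ) = N * (1 / N) := by field_simp
    _ ≤ X ^ (Module.finrank ℚ K) * ‖σ g‖ :=
      mul_le_mul h7 (h6.trans h2) (by positivity) (by linarith)

/-- Partial sums of the logarithmic series. -/
noncomputable def lp (z : E) (m : ℕ) : E :=
  ∑ i ∈ range m, (-1 : E) ^ i * z ^ (i + 1) / ((i : E) + 1)

theorem term_bound (z : E) (q : ℝ) (hq : 0 < q) (hz : ‖z‖ ≤ 1 / q) (i : ℕ) :
    ‖(-1 : E) ^ i * z ^ (i + 1) / ((i : E) + 1)‖ ≤
      (i + 1) / q ^ (i + 1) := by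
  rw [norm_div, norm_mul, norm_pow, norm_neg, norm_one, one_pow, one_mul, norm_pow]
  have h1 := norm_natCast_ge p (E := E) (i + 1) (Nat.succ_ne_zero i)
  push_cast at h1
  have h2 : (0 : ℝ) < (i : ℝ) + 1 := by positivity
  have h3 : 0 < ‖(i : E) + 1‖ := lt_of_lt_of_le (by positivity) h1
  rw [div_le_iff₀ h3]
  calc ‖z‖ ^ (i + 1) ≤ (1 / q) ^ (i + 1) := pow_le_pow_left₀ (norm_nonneg _) hz _
    _ = ((i : ℝ) + 1) / q ^ (i + 1) * (1 / ((i : ℝ) + 1)) := by
        rw [one_div, inv_pow]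
        field_simp
    _ ≤ _ := mul_le_mul_of_nonneg_left h1 (by positivity)

theorem tail_bound (z l : E) (m : ℕ) (hm : 1 ≤ m) (q : ℝ) (hq : (m : ℝ) + 1 ≤ q)
    (hz : ‖z‖ ≤ 1 / q)
    (h : HasSum (fun n : ℕ => (-1 : E) ^ n * z ^ (n + 1) / ((n : E) + 1)) l) :
    ‖l - lp z m‖ ≤ 1 / q ^ m := by
  have hq0 : 0 < q := by
    have : (0 : ℝ) < (m : ℝ) + 1 := by positivity
    linarith
  have h1 := (hasSum_nat_add_iff' m).2 h
  rw [lp, ← h1.tsum_eq]
  apply IsUltrametricDist.norm_tsum_le_of_forall_le_of_nonneg (by positivity)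
  intro n
  refine (term_bound p z q hq0 hz (n + m)).trans ?_
  rw [div_le_div_iff₀ (by positivity) (by positivity)]
  have h2 : ((n + m : ℕ) : ℝ) + 1 ≤ q ^ (n + 1) := by
    have h3 : (1 : ℝ) + ((n + 1 : ℕ) : ℝ) * m ≤ (1 + (m : ℝ)) ^ (n + 1) :=
      one_add_mul_le_pow (by
        have : (0 : ℝ) ≤ m := by positivity
        linarith) (n + 1)
    have h4 : (1 + (m : ℝ)) ^ (n + 1) ≤ q ^ (n + 1) :=
      pow_le_pow_left₀ (by positivity) (by linarith) _
    have h5 : ((n + m : ℕ) : ℝ) + 1 ≤ (1 : ℝ) + ((n + 1 : ℕ) : ℝ) * m := by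
      push_cast
      have h6 : (0 : ℝ) ≤ n := by positivity
      have h7 : (1 : ℝ) ≤ m := by exact_mod_cast hm
      nlinarith
    linarith
  calc (((n + m : ℕ) : ℝ) + 1) * q ^ m ≤ q ^ (n + 1) * q ^ m :=
        mul_le_mul_of_nonneg_right h2 (by positivity)
    _ = 1 * q ^ (n + m + 1) := by
        rw [← pow_add, one_mul]
        congr 1
        ring

theorem lp_bound (z : E) (m : ℕ) (q : ℝ) (hq : 2 ≤ q) (hz : ‖z‖ ≤ 1 / q) :
    ‖lp z m‖ ≤ 1 := by
  unfold lp
  apply IsUltrametricDist.norm_sum_le_of_forall_le_of_nonneg zero_le_one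
  intro i _
  refine (term_bound p z q (by linarith) hz i).trans ?_
  rw [div_le_one (by positivity)]
  have h1 : ((i + 1 : ℕ) : ℝ) < 2 ^ (i + 1) := by exact_mod_cast Nat.lt_two_pow_self
  have h2 : (2 : ℝ) ^ (i + 1) ≤ q ^ (i + 1) := pow_le_pow_left₀ (by norm_num) hq _
  push_cast at h1
  linarith

theorem log_bound (z l : E) (q : ℝ) (hq : 2 ≤ q) (hz : ‖z‖ ≤ 1 / q)
    (h : HasSum (fun n : ℕ => (-1 : E) ^ n * z ^ (n + 1) / ((n : E) + 1)) l) :
    ‖l‖ ≤ 1 := by
  rw [← h.tsum_eq]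
  apply IsUltrametricDist.norm_tsum_le_of_forall_le_of_nonneg zero_le_one
  intro i
  refine (term_bound p z q (by linarith) hz i).trans ?_
  rw [div_le_one (by positivity)]
  have h1 : ((i + 1 : ℕ) : ℝ) < 2 ^ (i + 1) := by exact_mod_cast Nat.lt_two_pow_self
  have h2 : (2 : ℝ) ^ (i + 1) ≤ q ^ (i + 1) := pow_le_pow_left₀ (by norm_num) hq _
  push_cast at h1
  linarith

end Pool.Agent.NearOne652.G
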