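import Mathlib
import Pool.Agent.NearOne652.Alg

set_option autoImplicit false
set_option linter.unusedSectionVars false

open Finset

namespace Pool.Agent.NearOne652

open PowerSeries

variable {K : Type*} [Field K] [CharZero K]

/-- Zero estimate and independence for linear forms in logarithms with polynomial coefficients. -/
theorem lin_indep' (k n : ℕ) (hn : 0 < n) (t : Fin k → K) (ht : ∀ l, t l ≠ 0) (hinj : Function.Injective t)
    (A : Fin k → Polynomial K) (A0 : Polynomial K) (hA : ∀ l, (A l).natDegree < n)
    (hA0 : A0.natDegree < n)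
    (hvan : ∀ r < n * k + n, coeff r ((A0 : K⟦X⟧) + ∑ l, (A l : K⟦X⟧) * lg (t l)) = 0) :
    (∀ l, A l = 0) ∧ A0 = 0 := by
  rcases Nat.eq_zero_or_pos k with hk | hk
  · subst hk
    refine ⟨fun l => l.elim0, ?_⟩
    ext r
    rw [Polynomial.coeff_zero]
    by_cases hr : r < n
    · have h1 := hvan r (by omega)
      simpa using h1
    · exact Polynomial.coeff_eq_zero_of_natDegree_lt (by omega)
  choose a ha using fun l => expand (t l) (ht l) (A l) n (hA l)
  set H : K⟦X⟧ := (A0 : K⟦X⟧) + ∑ l, (A l : K⟦X⟧) * lg (t l) with hH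
  set R : Fin k → Polynomial K := fun l =>
    ∑ j ∈ range n, Polynomial.C (a l j * (t l) ^ n * (e1 j n : K)) * up (t l) ^ j with hR
  have hRl : ∀ l, us (t l) ^ n * (d⁄dX K)^[n] ((A l : K⟦X⟧) * lg (t l)) = (R l : K⟦X⟧) := by
    intro l
    have e : (A l : K⟦X⟧) * lg (t l) = ∑ j ∈ range n, C (a l j) * (us (t l) ^ j * lg (t l)) := by
      conv_lhs => rw [ha l]
      rw [← Polynomial.coeToPowerSeries.ringHom_apply, map_sum, Finset.sum_mul]
      refine Finset.sum_congr rfl fun j _ => ?_
      rw [map_mul, map_pow, Polynomial.coeToPowerSeries.ringHom_apply,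
        Polynomial.coeToPowerSeries.ringHom_apply, coe_up, Polynomial.coe_C, mul_assoc]
    rw [e, iter_sum, Finset.mul_sum, hR]
    simp only
    rw [← Polynomial.coeToPowerSeries.ringHom_apply, map_sum]
    refine Finset.sum_congr rfl fun j hj => ?_
    rw [iter_C_mul, mul_left_comm, euler, e0_zero j n (Finset.mem_range.1 hj)]
    rw [Polynomial.coeToPowerSeries.ringHom_apply, Polynomial.coe_mul, Polynomial.coe_pow,
      coe_up, Polynomial.coe_C]
    simp only [map_mul, map_pow, Int.cast_zero, map_zero]
    ring
  set W : Polynomial K := ∑ l, (∏ m ∈ univ.erase l, up (t m)) ^ n * R l with hW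
  have hWs : (∏ l, us (t l)) ^ n * (d⁄dX K)^[n] H = (W : K⟦X⟧) := by
    rw [hH, iter_add, iter_poly n A0 hA0, zero_add, iter_sum, Finset.mul_sum, hW,
      ← Polynomial.coeToPowerSeries.ringHom_apply, map_sum]
    refine Finset.sum_congr rfl fun l _ => ?_
    rw [← Finset.mul_prod_erase univ _ (Finset.mem_univ l), mul_pow, mul_comm (us (t l) ^ n),
      mul_assoc, hRl l, map_mul, map_pow, map_prod, Polynomial.coeToPowerSeries.ringHom_apply]
    simp only [Polynomial.coeToPowerSeries.ringHom_apply, coe_up]
  have hdvd : (X : K⟦X⟧) ^ (n * k) ∣ (W : K⟦X⟧) := by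
    rw [← hWs]
    apply Dvd.dvd.mul_left
    rw [X_pow_dvd_iff]
    intro r hr
    rw [coeff_iterate_derivative, hvan (r + n) (by omega), mul_zero]
  have hWdeg : W.natDegree < n * k := by
    refine lt_of_le_of_lt (Polynomial.natDegree_sum_le_of_forall_le (n := n * (k - 1) + (n - 1))
      _ _ ?_) ?_
    · intro l _
      refine Polynomial.natDegree_mul_le_of_le ?_ ?_
      · refine Polynomial.natDegree_pow_le_of_le n ?_
        refine (Polynomial.natDegree_prod_le _ _).trans ?_
        refine (Finset.sum_le_sum fun m _ => natDegree_up_le (t m)).trans ?_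
        rw [Finset.sum_const, Finset.card_erase_of_mem (Finset.mem_univ l), Finset.card_univ,
          Fintype.card_fin]
        simp
      · have := natDegree_comb (t l) (fun j => a l j * (t l) ^ n * (e1 j n : K)) n hn
        simp only [hR]
        omega
    · obtain ⟨k', rfl⟩ : ∃ k', k = k' + 1 := ⟨k - 1, by omega⟩
      simp only [Nat.add_sub_cancel]
      have : n * (k' + 1) = n * k' + n := by ring
      omega
  have hW0 : W = 0 := by
    rw [X_pow_dvd_iff] at hdvd
    ext r
    rw [Polynomial.coeff_zero]
    by_cases hr : r < n * k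
    · have := hdvd r hr
      rwa [Polynomial.coeff_coe] at this
    · exact Polynomial.coeff_eq_zero_of_natDegree_lt (by omega)
  have hR0 : ∀ l, R l = 0 := by
    intro l
    have h1 : up (t l) ^ n ∣ (∏ m ∈ univ.erase l, up (t m)) ^ n * R l := by
      have h2 : (∏ m ∈ univ.erase l, up (t m)) ^ n * R l =
          - ∑ k ∈ univ.erase l, (∏ m ∈ univ.erase k, up (t m)) ^ n * R k := by
        rw [eq_neg_iff_add_eq_zero]
        have := Finset.add_sum_erase univ
          (fun k => (∏ m ∈ univ.erase k, up (t m)) ^ n * R k) (Finset.mem_univ l)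
        rw [this]
        exact hW0
      rw [h2, dvd_neg]
      apply Finset.dvd_sum
      intro k hk
      apply Dvd.dvd.mul_right
      apply pow_dvd_pow_of_dvd
      apply Finset.dvd_prod_of_mem
      rw [Finset.mem_erase] at hk ⊢
      exact ⟨Ne.symm hk.1, Finset.mem_univ _⟩
    have h3 : IsCoprime (up (t l) ^ n) ((∏ m ∈ univ.erase l, up (t m)) ^ n) := by
      apply IsCoprime.pow
      apply IsCoprime.prod_right
      intro m hm
      apply coprime_up
      intro h
      exact (Finset.mem_erase.1 hm).1 (hinj h).symm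
    have h4 : up (t l) ^ n ∣ R l := h3.dvd_of_dvd_mul_left h1
    apply Polynomial.eq_zero_of_dvd_of_natDegree_lt h4
    rw [Polynomial.natDegree_pow, natDegree_up _ (ht l), mul_one]
    exact natDegree_comb (t l) (fun j => a l j * (t l) ^ n * (e1 j n : K)) n hn
  have hA1 : ∀ l, A l = 0 := by
    intro l
    have h1 := comb_zero (t l) (ht l) _ n (hR0 l)
    rw [ha l]
    apply Finset.sum_eq_zero
    intro j hj
    have h2 := h1 j (Finset.mem_range.1 hj)
    have h3 : (e1 j n : K) ≠ 0 := by exact_mod_cast e1_ne j n (Finset.mem_range.1 hj)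
    have h4 : a l j = 0 := by
      rcases mul_eq_zero.1 h2 with h | h
      · rcases mul_eq_zero.1 h with h | h
        · exact h
        · exact absurd h (pow_ne_zero _ (ht l))
      · exact absurd h h3
    rw [h4, Polynomial.C_0, zero_mul]
  refine ⟨hA1, ?_⟩
  ext r
  rw [Polynomial.coeff_zero]
  by_cases hr : r < n
  · have h1 := hvan r (by omega)
    rw [hH] at h1
    have h2 : ∑ l, (A l : K⟦X⟧) * lg (t l) = 0 := by
      apply Finset.sum_eq_zero
      intro l _
      rw [hA1 l, Polynomial.coe_zero, zero_mul]
    rw [h2, add_zero, Polynomial.coeff_coe] at h1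
    exact h1
  · exact Polynomial.coeff_eq_zero_of_natDegree_lt (by omega)


section mv

variable {k : ℕ}

/-- The product of all `1 + t_i X`. -/
noncomputable def PP (t : Fin k → K) : Polynomial K := ∏ i, up (t i)

/-- The product of all `1 + t_m X` with `m ≠ i`. -/
noncomputable def Pe (t : Fin k → K) (i : Fin k) : Polynomial K := ∏ m ∈ univ.erase i, up (t m)

/-- Coefficientwise derivative. -/
noncomputable def dc (F : MvPolynomial (Fin k) (Polynomial K)) :
    MvPolynomial (Fin k) (Polynomial K) :=
  ∑ a ∈ F.support, MvPolynomial.monomial a (Polynomial.derivative (MvPolynomial.coeff a F))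

theorem coeff_dc (F : MvPolynomial (Fin k) (Polynomial K)) (b : Fin k →₀ ℕ) :
    MvPolynomial.coeff b (dc F) = Polynomial.derivative (MvPolynomial.coeff b F) := by
  classical
  unfold dc
  rw [MvPolynomial.coeff_sum]
  simp only [MvPolynomial.coeff_monomial]
  rw [Finset.sum_ite_eq' F.support b]
  split_ifs with h
  · rfl
  · rw [MvPolynomial.notMem_support_iff.1 h, map_zero]

/-- The formal derivation corresponding to `P · d/dX`. -/
noncomputable def Del (t : Fin k → K) (F : MvPolynomial (Fin k) (Polynomial K)) :
    MvPolynomial (Fin k) (Polynomial K) :=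
  MvPolynomial.C (PP t) * dc F +
    ∑ i, MvPolynomial.C (Polynomial.C (t i) * Pe t i) * MvPolynomial.pderiv i F

theorem coeff_Del (t : Fin k → K) (F : MvPolynomial (Fin k) (Polynomial K)) (b : Fin k →₀ ℕ) :
    MvPolynomial.coeff b (Del t F) = PP t * Polynomial.derivative (MvPolynomial.coeff b F) +
      ∑ i, (Polynomial.C (t i) * Pe t i) *
        (MvPolynomial.coeff (b + Finsupp.single i 1) F * ((b i : Polynomial K) + 1)) := by
  unfold Del
  rw [MvPolynomial.coeff_add, MvPolynomial.coeff_C_mul, coeff_dc, MvPolynomial.coeff_sum]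
  congr 1
  refine Finset.sum_congr rfl fun i _ => ?_
  rw [MvPolynomial.coeff_C_mul, MvPolynomial.coeff_pderiv]

/-- Substitution of the logarithmic series. -/
noncomputable def ev (t : Fin k → K) : MvPolynomial (Fin k) (Polynomial K) →+* K⟦X⟧ :=
  MvPolynomial.eval₂Hom (Polynomial.coeToPowerSeries.ringHom) (fun i => lg (t i))

theorem ev_C (t : Fin k → K) (A : Polynomial K) : ev t (MvPolynomial.C A) = (A : K⟦X⟧) := by
  simp [ev, Polynomial.coeToPowerSeries.ringHom_apply]

theorem ev_X (t : Fin k → K) (i : Fin k) : ev t (MvPolynomial.X i) = lg (t i) := by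
  simp [ev]

theorem coe_PP (t : Fin k → K) : (PP t : K⟦X⟧) = ∏ i, us (t i) := by
  unfold PP
  rw [← Polynomial.coeToPowerSeries.ringHom_apply, map_prod]
  simp only [Polynomial.coeToPowerSeries.ringHom_apply, coe_up]

theorem coe_Pe (t : Fin k → K) (i : Fin k) : (Pe t i : K⟦X⟧) = ∏ m ∈ univ.erase i, us (t m) := by
  unfold Pe
  rw [← Polynomial.coeToPowerSeries.ringHom_apply, map_prod]
  simp only [Polynomial.coeToPowerSeries.ringHom_apply, coe_up]

theorem PP_mul_der_lg (t : Fin k → K) (i : Fin k) :
    (PP t : K⟦X⟧) * d⁄dX K (lg (t i)) = C (t i) * (Pe t i : K⟦X⟧) := by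
  rw [coe_PP, coe_Pe, ← Finset.mul_prod_erase univ _ (Finset.mem_univ i), ← der_lg]
  ring

theorem dc_C (A : Polynomial K) :
    dc (MvPolynomial.C A : MvPolynomial (Fin k) (Polynomial K)) =
      MvPolynomial.C (Polynomial.derivative A) := by
  classical
  apply MvPolynomial.ext
  intro b
  rw [coeff_dc, MvPolynomial.coeff_C, MvPolynomial.coeff_C]
  split_ifs
  · rfl
  · simp

theorem dc_add (F G : MvPolynomial (Fin k) (Polynomial K)) : dc (F + G) = dc F + dc G := by
  apply MvPolynomial.ext
  intro b
  simp only [coeff_dc, MvPolynomial.coeff_add, map_add]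

theorem dc_mul_X (F : MvPolynomial (Fin k) (Polynomial K)) (i : Fin k) :
    dc (F * MvPolynomial.X i) = dc F * MvPolynomial.X i := by
  classical
  apply MvPolynomial.ext
  intro b
  rw [coeff_dc, MvPolynomial.coeff_mul_X', MvPolynomial.coeff_mul_X']
  split_ifs
  · rw [coeff_dc]
  · simp

theorem ev_Del (t : Fin k → K) (F : MvPolynomial (Fin k) (Polynomial K)) :
    ev t (Del t F) = (PP t : K⟦X⟧) * d⁄dX K (ev t F) := by
  classical
  induction F using MvPolynomial.induction_on with
  | C A =>
    unfold Del
    rw [dc_C]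
    simp only [MvPolynomial.pderiv_C, mul_zero, Finset.sum_const_zero, add_zero]
    rw [map_mul, ev_C, ev_C, ev_C, derivative_coe]
  | add F G hF hG =>
    have h : Del t (F + G) = Del t F + Del t G := by
      unfold Del
      rw [dc_add]
      simp only [map_add, mul_add, Finset.sum_add_distrib]
      ring
    rw [h, map_add, map_add, map_add, hF, hG, mul_add]
  | mul_X F j hF =>
    have h : Del t (F * MvPolynomial.X j) = Del t F * MvPolynomial.X j +
        F * MvPolynomial.C (Polynomial.C (t j) * Pe t j) := by
      unfold Del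
      rw [dc_mul_X]
      have h1 : ∑ i, MvPolynomial.C (Polynomial.C (t i) * Pe t i) *
          MvPolynomial.pderiv i (F * MvPolynomial.X j) =
          (∑ i, MvPolynomial.C (Polynomial.C (t i) * Pe t i) * MvPolynomial.pderiv i F) *
            MvPolynomial.X j + F * MvPolynomial.C (Polynomial.C (t j) * Pe t j) := by
        rw [Finset.sum_mul]
        have h2 : ∀ i, MvPolynomial.C (Polynomial.C (t i) * Pe t i) *
            MvPolynomial.pderiv i (F * MvPolynomial.X j) =
            MvPolynomial.C (Polynomial.C (t i) * Pe t i) * MvPolynomial.pderiv i F *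
              MvPolynomial.X j +
            (if j = i then F * MvPolynomial.C (Polynomial.C (t i) * Pe t i) else 0) := by
          intro i
          rw [Derivation.leibniz, MvPolynomial.pderiv_X, smul_eq_mul, smul_eq_mul]
          split_ifs with hij
          · subst hij
            simp only [Pi.single_eq_same, mul_one]
            ring
          · rw [Pi.single_eq_of_ne hij]
            ring
        rw [Finset.sum_congr rfl fun i _ => h2 i, Finset.sum_add_distrib]
        congr 1
        rw [Finset.sum_ite_eq univ j]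
        simp
      rw [h1]
      ring
    have h3 := PP_mul_der_lg t j
    have h4 : ev t (MvPolynomial.C (Polynomial.C (t j) * Pe t j)) = C (t j) * (Pe t j : K⟦X⟧) := by
      rw [ev_C, Polynomial.coe_mul, Polynomial.coe_C]
    have h5 : ev t (F * MvPolynomial.X j) = ev t F * lg (t j) := by rw [map_mul, ev_X]
    have h6 : ev t (Del t F * MvPolynomial.X j + F * MvPolynomial.C (Polynomial.C (t j) * Pe t j))
        = ev t (Del t F) * lg (t j) + ev t F * (C (t j) * (Pe t j : K⟦X⟧)) := by
      rw [map_add (ev t), map_mul (ev t) (Del t F), ev_X, map_mul (ev t) F, h4]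
    rw [h, h6, h5, hF, Derivation.leibniz, smul_eq_mul, smul_eq_mul, mul_add]
    linear_combination (-(ev t F)) * h3

/-- The formal counterpart of `P ^ j · (d/dX) ^ j`. -/
noncomputable def Eo (t : Fin k → K) : ℕ → MvPolynomial (Fin k) (Polynomial K) →
    MvPolynomial (Fin k) (Polynomial K)
  | 0, F => F
  | j + 1, F => Del t (Eo t j F) -
      MvPolynomial.C ((j : Polynomial K) * Polynomial.derivative (PP t)) * Eo t j F

theorem step_identity (P : Polynomial K) (f : K⟦X⟧) (j : ℕ) :
    (P : K⟦X⟧) ^ (j + 1) * (d⁄dX K)^[j + 1] f =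
      (P : K⟦X⟧) * d⁄dX K ((P : K⟦X⟧) ^ j * (d⁄dX K)^[j] f) -
      ((((j : Polynomial K) * Polynomial.derivative P : Polynomial K)) : K⟦X⟧) *
        ((P : K⟦X⟧) ^ j * (d⁄dX K)^[j] f) := by
  have h1 : (P : K⟦X⟧) * d⁄dX K ((P : K⟦X⟧) ^ j) =
      ((((j : Polynomial K) * Polynomial.derivative P : Polynomial K)) : K⟦X⟧) *
        (P : K⟦X⟧) ^ j := by
    cases j with
    | zero => simp
    | succ j =>
      rw [Derivation.leibniz_pow, derivative_coe, Nat.add_sub_cancel, smul_eq_mul, nsmul_eq_mul,
        Polynomial.coe_mul]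
      have : (((j + 1 : ℕ) : Polynomial K) : K⟦X⟧) = ((j + 1 : ℕ) : K⟦X⟧) := by
        rw [← Polynomial.coeToPowerSeries.ringHom_apply, map_natCast]
      rw [this]
      ring
  rw [Derivation.leibniz, smul_eq_mul, smul_eq_mul, Function.iterate_succ_apply', mul_add]
  linear_combination (-(d⁄dX K)^[j] f) * h1

theorem ev_Eo (t : Fin k → K) (F : MvPolynomial (Fin k) (Polynomial K)) (j : ℕ) :
    ev t (Eo t j F) = (PP t : K⟦X⟧) ^ j * (d⁄dX K)^[j] (ev t F) := by
  induction j with
  | zero => simp [Eo]
  | succ j ih =>
    rw [Eo, map_sub, map_mul, ev_C, ev_Del, ih, step_identity]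

/-- total exponent -/
def dg (a : Fin k →₀ ℕ) : ℕ := ∑ i, a i

theorem dg_add_single (a : Fin k →₀ ℕ) (i : Fin k) : dg (a + Finsupp.single i 1) = dg a + 1 := by
  classical
  unfold dg
  simp only [Finsupp.add_apply, Finset.sum_add_distrib, Finsupp.single_apply]
  simp

/-- polynomial version of `P ^ j (d/dX) ^ j` -/
noncomputable def Pj (P : Polynomial K) (j : ℕ) (A : Polynomial K) : Polynomial K :=
  P ^ j * Polynomial.derivative^[j] A

theorem Pj_succ (P A : Polynomial K) (j : ℕ) :
    Pj P (j + 1) A = P * Polynomial.derivative (Pj P j A) -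
      ((j : Polynomial K) * Polynomial.derivative P) * Pj P j A := by
  unfold Pj
  rw [Polynomial.derivative_mul, Polynomial.derivative_pow, Function.iterate_succ_apply']
  cases j with
  | zero => simp
  | succ j =>
    rw [Nat.add_sub_cancel, Polynomial.C_eq_natCast]
    ring

theorem coeff_Eo_top (t : Fin k → K) (F : MvPolynomial (Fin k) (Polynomial K)) (δ : ℕ)
    (hF : ∀ a, δ < dg a → MvPolynomial.coeff a F = 0) (j : ℕ) :
    (∀ a, δ < dg a → MvPolynomial.coeff a (Eo t j F) = 0) ∧
    (∀ a, dg a = δ → MvPolynomial.coeff a (Eo t j F) = Pj (PP t) j (MvPolynomial.coeff a F)) := by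
  induction j with
  | zero => exact ⟨hF, fun a _ => by simp [Eo, Pj]⟩
  | succ j ih =>
    constructor
    · intro a ha
      rw [Eo, MvPolynomial.coeff_sub, MvPolynomial.coeff_C_mul, coeff_Del, ih.1 a ha]
      rw [Finset.sum_eq_zero]
      · simp
      · intro i _
        rw [ih.1 _ (by rw [dg_add_single]; omega)]
        simp
    · intro a ha
      rw [Eo, MvPolynomial.coeff_sub, MvPolynomial.coeff_C_mul, coeff_Del, ih.2 a ha, Pj_succ]
      rw [Finset.sum_eq_zero]
      · simp
      · intro i _
        rw [ih.1 _ (by rw [dg_add_single]; omega)]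
        simp

theorem coeff_Eo_sub (t : Fin k → K) (F : MvPolynomial (Fin k) (Polynomial K)) (δ : ℕ)
    (hF : ∀ a, δ < dg a → MvPolynomial.coeff a F = 0) (b : Fin k →₀ ℕ) (hb : dg b + 1 = δ)
    (A : Fin k → Polynomial K) (hA : ∀ i, A i = MvPolynomial.coeff (b + Finsupp.single i 1) F)
    (B0 : Polynomial K) (hB0 : B0 = MvPolynomial.coeff b F) (j : ℕ) :
    (PP t : K⟦X⟧) ^ j * (d⁄dX K)^[j] ((B0 : K⟦X⟧) +
      ∑ i, C ((b i : K) + 1) * ((A i : K⟦X⟧) * lg (t i))) =
    ((MvPolynomial.coeff b (Eo t j F) : Polynomial K) : K⟦X⟧) +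
      ∑ i, C ((b i : K) + 1) * ((Pj (PP t) j (A i) : K⟦X⟧) * lg (t i)) := by
  induction j with
  | zero =>
    rw [hB0]
    simp only [pow_zero, one_mul, Function.iterate_zero, id, Pj]
    rfl
  | succ j ih =>
    have hcoeb : ∀ i, ((((b i : Polynomial K) + 1 : Polynomial K)) : K⟦X⟧) = C ((b i : K) + 1) := by
      intro i
      rw [← Polynomial.coe_C]
      congr 1
      simp
    have h1 : ∀ i, MvPolynomial.coeff (b + Finsupp.single i 1) (Eo t j F) =
        Pj (PP t) j (A i) := fun i => by
      rw [hA i]
      exact (coeff_Eo_top t F δ hF j).2 _ (by rw [dg_add_single]; exact hb)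
    have hBs : ((MvPolynomial.coeff b (Eo t (j + 1) F) : Polynomial K) : K⟦X⟧) =
        (PP t : K⟦X⟧) * d⁄dX K ((MvPolynomial.coeff b (Eo t j F) : Polynomial K) : K⟦X⟧) +
        ∑ i, C ((b i : K) + 1) * ((C (t i) * (Pe t i : K⟦X⟧)) * (Pj (PP t) j (A i) : K⟦X⟧)) -
        ((((j : Polynomial K) * Polynomial.derivative (PP t) : Polynomial K)) : K⟦X⟧) *
          ((MvPolynomial.coeff b (Eo t j F) : Polynomial K) : K⟦X⟧) := by
      rw [Eo, MvPolynomial.coeff_sub, MvPolynomial.coeff_C_mul, coeff_Del, Polynomial.coe_sub,
        Polynomial.coe_mul ((j : Polynomial K) * Polynomial.derivative (PP t)),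
        Polynomial.coe_add, Polynomial.coe_mul (PP t), derivative_coe]
      congr 2
      rw [← Polynomial.coeToPowerSeries.ringHom_apply, map_sum]
      refine Finset.sum_congr rfl fun i _ => ?_
      rw [Polynomial.coeToPowerSeries.ringHom_apply, h1, Polynomial.coe_mul, Polynomial.coe_mul,
        Polynomial.coe_mul, hcoeb, Polynomial.coe_C]
      ring
    have hterm : ∀ i, (PP t : K⟦X⟧) * (C ((b i : K) + 1) *
          d⁄dX K ((Pj (PP t) j (A i) : K⟦X⟧) * lg (t i))) -
        ((((j : Polynomial K) * Polynomial.derivative (PP t) : Polynomial K)) : K⟦X⟧) *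
          (C ((b i : K) + 1) * ((Pj (PP t) j (A i) : K⟦X⟧) * lg (t i))) =
        C ((b i : K) + 1) * ((C (t i) * (Pe t i : K⟦X⟧)) * (Pj (PP t) j (A i) : K⟦X⟧)) +
        C ((b i : K) + 1) * ((Pj (PP t) (j + 1) (A i) : K⟦X⟧) * lg (t i)) := by
      intro i
      rw [Pj_succ, Polynomial.coe_sub, Polynomial.coe_mul (PP t), Polynomial.coe_mul
        ((j : Polynomial K) * Polynomial.derivative (PP t)), Derivation.leibniz, smul_eq_mul,
        smul_eq_mul, derivative_coe]
      have h3 := PP_mul_der_lg t i
      linear_combination (C ((b i : K) + 1) * (Pj (PP t) j (A i) : K⟦X⟧)) * h3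
    rw [step_identity, ih, map_add, map_sum, hBs]
    simp only [der_C_mul]
    rw [mul_add, mul_add, Finset.mul_sum, Finset.mul_sum]
    have hsum : ∑ i, (PP t : K⟦X⟧) * (C ((b i : K) + 1) *
          d⁄dX K ((Pj (PP t) j (A i) : K⟦X⟧) * lg (t i))) -
        ∑ i, ((((j : Polynomial K) * Polynomial.derivative (PP t) : Polynomial K)) : K⟦X⟧) *
          (C ((b i : K) + 1) * ((Pj (PP t) j (A i) : K⟦X⟧) * lg (t i))) =
        ∑ i, C ((b i : K) + 1) * ((C (t i) * (Pe t i : K⟦X⟧)) * (Pj (PP t) j (A i) : K⟦X⟧)) +
        ∑ i, C ((b i : K) + 1) * ((Pj (PP t) (j + 1) (A i) : K⟦X⟧) * lg (t i)) := by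
      rw [← Finset.sum_sub_distrib, ← Finset.sum_add_distrib]
      exact Finset.sum_congr rfl fun i _ => hterm i
    linear_combination hsum

theorem natDegree_PP_le (t : Fin k → K) : (PP t).natDegree ≤ k := by
  unfold PP
  refine (Polynomial.natDegree_prod_le _ _).trans ?_
  refine (Finset.sum_le_sum fun m _ => natDegree_up_le (t m)).trans ?_
  simp

theorem natDegree_Pe_le (t : Fin k → K) (i : Fin k) : (Pe t i).natDegree ≤ k - 1 := by
  unfold Pe
  refine (Polynomial.natDegree_prod_le _ _).trans ?_
  refine (Finset.sum_le_sum fun m _ => natDegree_up_le (t m)).trans ?_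
  rw [Finset.sum_const, Finset.card_erase_of_mem (Finset.mem_univ i), Finset.card_univ,
    Fintype.card_fin]
  simp

theorem natDegree_natCast_mul_le (m : ℕ) (A : Polynomial K) :
    ((m : Polynomial K) * A).natDegree ≤ A.natDegree := by
  rw [← Polynomial.C_eq_natCast]
  exact Polynomial.natDegree_C_mul_le _ _

theorem natDegree_Eo (t : Fin k → K) (hk : 0 < k) (F : MvPolynomial (Fin k) (Polynomial K))
    (N : ℕ) (hF : ∀ a, (MvPolynomial.coeff a F).natDegree ≤ N) (j : ℕ) :
    ∀ a, (MvPolynomial.coeff a (Eo t j F)).natDegree ≤ N + j * (k - 1) := by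
  induction j with
  | zero => simpa [Eo] using hF
  | succ j ih =>
    intro a
    rw [Eo, MvPolynomial.coeff_sub, MvPolynomial.coeff_C_mul, coeff_Del]
    have e : N + (j + 1) * (k - 1) = (N + j * (k - 1)) + (k - 1) := by ring
    rw [e]
    set M := N + j * (k - 1) with hM
    have h1 : (PP t * Polynomial.derivative (MvPolynomial.coeff a (Eo t j F))).natDegree
        ≤ M + (k - 1) := by
      rcases Nat.eq_zero_or_pos (MvPolynomial.coeff a (Eo t j F)).natDegree with h0 | h0
      · rw [Polynomial.derivative_of_natDegree_zero h0, mul_zero, Polynomial.natDegree_zero]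
        exact Nat.zero_le _
      · refine Polynomial.natDegree_mul_le.trans ?_
        have h2 := natDegree_PP_le t
        have h3 := Polynomial.natDegree_derivative_le (MvPolynomial.coeff a (Eo t j F))
        have h4 := ih a
        omega
    have h2 : (∑ i, (Polynomial.C (t i) * Pe t i) *
        (MvPolynomial.coeff (a + Finsupp.single i 1) (Eo t j F) *
          ((a i : Polynomial K) + 1))).natDegree ≤ M + (k - 1) := by
      apply Polynomial.natDegree_sum_le_of_forall_le
      intro i _
      refine Polynomial.natDegree_mul_le.trans ?_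
      have h3 : (Polynomial.C (t i) * Pe t i).natDegree ≤ k - 1 :=
        (Polynomial.natDegree_C_mul_le _ _).trans (natDegree_Pe_le t i)
      have h4 : (MvPolynomial.coeff (a + Finsupp.single i 1) (Eo t j F) *
          ((a i : Polynomial K) + 1)).natDegree ≤ M := by
        have h5 : ((a i : Polynomial K) + 1) = Polynomial.C ((a i : K) + 1) := by simp
        rw [h5, mul_comm]
        exact (Polynomial.natDegree_C_mul_le _ _).trans (ih _)
      omega
    have h3 : (((j : Polynomial K) * Polynomial.derivative (PP t)) *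
        MvPolynomial.coeff a (Eo t j F)).natDegree ≤ M + (k - 1) := by
      refine Polynomial.natDegree_mul_le.trans ?_
      have h4 := natDegree_natCast_mul_le j (Polynomial.derivative (PP t))
      have h5 := Polynomial.natDegree_derivative_le (PP t)
      have h6 := natDegree_PP_le t
      have h7 := ih a
      omega
    refine (Polynomial.natDegree_sub_le _ _).trans (max_le ?_ h3)
    exact (Polynomial.natDegree_add_le _ _).trans (max_le h1 h2)

/-- **Zero estimate** for polynomials of degree `δ` in `log (1 + t_i X)` with polynomial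
coefficients of degree less than `n`. -/
theorem zero_est (t : Fin k → K) (ht : ∀ l, t l ≠ 0) (hinj : Function.Injective t) (δ : ℕ) :
    ∀ n : ℕ, 0 < n → ∀ F : MvPolynomial (Fin k) (Polynomial K),
      (∀ a, δ < dg a → MvPolynomial.coeff a F = 0) →
      (∀ a, (MvPolynomial.coeff a F).natDegree < n) →
      (∀ r < n * ∑ i ∈ range (δ + 1), k ^ i, coeff r (ev t F) = 0) → F = 0 := by
  induction δ with
  | zero =>
    intro n hn F hF hdeg hvan
    have h1 : F = MvPolynomial.C (MvPolynomial.coeff 0 F) := by
      classical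
      apply MvPolynomial.ext
      intro a
      rw [MvPolynomial.coeff_C]
      split_ifs with h
      · rw [← h]
      · apply hF
        apply Nat.pos_of_ne_zero
        intro h2
        apply h
        ext i
        have h3 : ∀ i ∈ (univ : Finset (Fin k)), a i = 0 := Finset.sum_eq_zero_iff.1 h2
        simpa using (h3 i (Finset.mem_univ i)).symm
    have h2 : MvPolynomial.coeff 0 F = 0 := by
      ext r
      rw [Polynomial.coeff_zero]
      by_cases hr : r < n
      · have h3 := hvan r (by simpa using hr)
        rw [h1, ev_C, Polynomial.coeff_coe] at h3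
        exact h3
      · exact Polynomial.coeff_eq_zero_of_natDegree_lt (by have := hdeg 0; omega)
    rw [h1, h2, MvPolynomial.C_0]
  | succ δ ih =>
    intro n hn F hF hdeg hvan
    rcases Nat.eq_zero_or_pos k with hk | hk
    · subst hk
      refine ih n hn F (fun a ha => ?_) hdeg (fun r hr => hvan r (lt_of_lt_of_le hr ?_))
      · simp [dg] at ha
      · apply Nat.mul_le_mul_left
        exact Finset.sum_le_sum_of_subset (Finset.range_subset_range.2 (by omega))
    · have hsum : n * ∑ i ∈ range (δ + 1 + 1), k ^ i = n * k * ∑ i ∈ range (δ + 1), k ^ i + n := by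
        rw [Finset.sum_range_succ']
        simp only [pow_succ, pow_zero]
        rw [← Finset.sum_mul]
        ring
      set G := Eo t n F with hG
      have hnk : n ≤ n * k := Nat.le_mul_of_pos_right n hk
      have hGtop : ∀ a, δ < dg a → MvPolynomial.coeff a G = 0 := by
        intro a ha
        rcases Nat.lt_or_ge (δ + 1) (dg a) with h | h
        · exact (coeff_Eo_top t F (δ + 1) hF n).1 a h
        · rw [(coeff_Eo_top t F (δ + 1) hF n).2 a (by omega), Pj,
            Polynomial.iterate_derivative_eq_zero (hdeg a), mul_zero]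
      have hGdeg : ∀ a, (MvPolynomial.coeff a G).natDegree < n * k := by
        intro a
        have h1 : (MvPolynomial.coeff a G).natDegree ≤ (n - 1) + n * (k - 1) :=
          natDegree_Eo t hk F (n - 1) (fun a => by have := hdeg a; omega) n a
        have h2 : ∀ k' : ℕ, 0 < k' → n * k' = n * (k' - 1) + n := by
          intro k' hk'
          obtain ⟨k'', rfl⟩ : ∃ k'', k' = k'' + 1 := ⟨k' - 1, by omega⟩
          simp only [Nat.add_sub_cancel]
          ring
        have h3 := h2 k hk
        omega
      have hGvan : ∀ r < n * k * ∑ i ∈ range (δ + 1), k ^ i, coeff r (ev t G) = 0 := by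
        have h1 : (X : K⟦X⟧) ^ (n * k * ∑ i ∈ range (δ + 1), k ^ i) ∣ ev t G := by
          rw [hG, ev_Eo]
          apply Dvd.dvd.mul_left
          rw [X_pow_dvd_iff]
          intro r hr
          rw [coeff_iterate_derivative, hvan (r + n) (by omega), mul_zero]
        exact X_pow_dvd_iff.1 h1
      have hG0 : G = 0 := ih (n * k) (by positivity) G hGtop hGdeg hGvan
      have hPP : (PP t : K⟦X⟧) ≠ 0 := by
        rw [coe_PP]
        apply Finset.prod_ne_zero_iff.2
        intro i _ h
        have h1 := congrArg (coeff 0) h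
        simp [us] at h1
      have hFtop : ∀ a, δ < dg a → MvPolynomial.coeff a F = 0 := by
        intro a ha
        rcases Nat.lt_or_ge (δ + 1) (dg a) with h | h
        · exact hF a h
        · have hda : dg a = δ + 1 := by omega
          obtain ⟨i, hi⟩ : ∃ i, 0 < a i := by
            by_contra hcon
            push Not at hcon
            have : dg a = 0 := Finset.sum_eq_zero fun i _ => by have := hcon i; omega
            omega
          have hle : Finsupp.single i 1 ≤ a := by
            rw [Finsupp.single_le_iff]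
            exact hi
          set b := a - Finsupp.single i 1 with hb
          have hab : b + Finsupp.single i 1 = a := tsub_add_cancel_of_le hle
          have hdb : dg b + 1 = δ + 1 := by
            rw [← hda, ← hab, dg_add_single]
          set A : Fin k → Polynomial K := fun l => MvPolynomial.coeff (b + Finsupp.single l 1) F
            with hA
          set B0 : Polynomial K := MvPolynomial.coeff b F with hB0
          set S : K⟦X⟧ := (B0 : K⟦X⟧) + ∑ l, C ((b l : K) + 1) * ((A l : K⟦X⟧) * lg (t l)) with hS
          have h1 := coeff_Eo_sub t F (δ + 1) hF b hdb A (fun _ => rfl) B0 rfl n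
          have h2 : (PP t : K⟦X⟧) ^ n * (d⁄dX K)^[n] S = 0 := by
            rw [h1, ← hG, hG0, MvPolynomial.coeff_zero, Polynomial.coe_zero, zero_add]
            apply Finset.sum_eq_zero
            intro l _
            rw [Pj, Polynomial.iterate_derivative_eq_zero (hdeg _), mul_zero,
              Polynomial.coe_zero, zero_mul, mul_zero]
          have h3 : (d⁄dX K)^[n] S = 0 := (mul_eq_zero.1 h2).resolve_left (pow_ne_zero _ hPP)
          have h4 : ∀ r, coeff (r + n) S = 0 := by
            intro r
            have h5 := coeff_iterate_derivative S n r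
            rw [h3, map_zero] at h5
            rcases mul_eq_zero.1 h5.symm with h6 | h6
            · exfalso
              have h7 : (r + 1).ascFactorial n ≠ 0 := (Nat.ascFactorial_pos _ _).ne'
              exact h7 (by exact_mod_cast h6)
            · exact h6
          set Q : Polynomial K := trunc n S with hQ
          have hQS : (Q : K⟦X⟧) = S := by
            ext r
            rw [Polynomial.coeff_coe, hQ, coeff_trunc]
            split_ifs with hr
            · rfl
            · obtain ⟨r', rfl⟩ : ∃ r', r = r' + n := ⟨r - n, by omega⟩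
              exact (h4 r').symm
          have hQdeg : Q.natDegree < n := by
            obtain ⟨n', rfl⟩ : ∃ n', n = n' + 1 := ⟨n - 1, by omega⟩
            exact natDegree_trunc_lt _ _
          have h8 := lin_indep' k n hn t ht hinj
            (fun l => Polynomial.C ((b l : K) + 1) * A l) (B0 - Q)
            (fun l => lt_of_le_of_lt (Polynomial.natDegree_C_mul_le _ _) (hdeg _))
            (lt_of_le_of_lt (Polynomial.natDegree_sub_le _ _) (max_lt (hdeg _) hQdeg))
            (by
              intro r _
              have h9 : ((B0 - Q : Polynomial K) : K⟦X⟧) +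
                  ∑ l, ((Polynomial.C ((b l : K) + 1) * A l : Polynomial K) : K⟦X⟧) * lg (t l)
                  = 0 := by
                rw [Polynomial.coe_sub, hQS, hS]
                have h10 : ∑ l, ((Polynomial.C ((b l : K) + 1) * A l : Polynomial K) : K⟦X⟧) *
                    lg (t l) = ∑ l, C ((b l : K) + 1) * ((A l : K⟦X⟧) * lg (t l)) :=
                  Finset.sum_congr rfl fun l _ => by
                    rw [Polynomial.coe_mul, Polynomial.coe_C, mul_assoc]
                rw [h10]
                ring
              rw [h9, map_zero])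
          have h11 := h8.1 i
          rcases mul_eq_zero.1 h11 with h12 | h12
          · exfalso
            have h13 : ((b i : K) + 1) ≠ 0 := by exact_mod_cast Nat.succ_ne_zero (b i)
            exact h13 (Polynomial.C_eq_zero.1 h12)
          · rw [hA] at h12
            simp only at h12
            rwa [hab] at h12
      exact ih (n * k) (by positivity) F hFtop (fun a => lt_of_lt_of_le (hdeg a) hnk)
        (fun r hr => hvan r (by omega))

end mv

end Pool.Agent.NearOne652
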