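import Mathlib
import Pool.Agent.NearOne652.Zero
import Pool.Agent.NearOne652.PadicG

set_option autoImplicit false
set_option linter.unusedSectionVars false

open Finset

namespace Pool.Agent.NearOne652

section alg

variable {K : Type*} [Field K] [CharZero K] {k : ℕ}

/-- Substitution of the logarithmic series into a polynomial with constant coefficients. -/
noncomputable def evK (t : Fin k → K) (F : MvPolynomial (Fin k) K) : PowerSeries K :=
  MvPolynomial.eval₂ (PowerSeries.C) (fun i => lg (t i)) F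

/-- Substitution of the truncated logarithmic series. -/
noncomputable def evT (t : Fin k → K) (m : ℕ) (F : MvPolynomial (Fin k) K) : Polynomial K :=
  MvPolynomial.eval₂ Polynomial.C (fun i => PowerSeries.trunc (m + 1) (lg (t i))) F

theorem zero_const (t : Fin k → K) (ht : ∀ l, t l ≠ 0) (hinj : Function.Injective t) (δ : ℕ)
    (F : MvPolynomial (Fin k) K) (hF : ∀ a, δ < dg a → MvPolynomial.coeff a F = 0)
    (hvan : ∀ r < ∑ i ∈ range (δ + 1), k ^ i, PowerSeries.coeff r (evK t F) = 0) : F = 0 := by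
  have h1 : ev t (MvPolynomial.map Polynomial.C F) = evK t F := by
    unfold ev evK
    rw [MvPolynomial.coe_eval₂Hom, MvPolynomial.eval₂_map]
    congr 1
    ext x : 1
    simp [Polynomial.coeToPowerSeries.ringHom_apply]
  have h2 := zero_est t ht hinj δ 1 one_pos (MvPolynomial.map Polynomial.C F)
    (fun a ha => by rw [MvPolynomial.coeff_map, hF a ha, map_zero])
    (fun a => by rw [MvPolynomial.coeff_map, Polynomial.natDegree_C]; exact one_pos)
    (fun r hr => by rw [h1]; exact hvan r (by simpa using hr))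
  apply MvPolynomial.map_injective Polynomial.C Polynomial.C_injective
  rw [h2, map_zero]

theorem coeff_evT (t : Fin k → K) (m : ℕ) (F : MvPolynomial (Fin k) K) (r : ℕ) (hr : r ≤ m) :
    (evT t m F).coeff r = PowerSeries.coeff r (evK t F) := by
  set I : Ideal (PowerSeries K) := Ideal.span {PowerSeries.X ^ (m + 1)} with hI
  have h1 : Ideal.Quotient.mk I ((evT t m F : Polynomial K) : PowerSeries K) =
      Ideal.Quotient.mk I (evK t F) := by
    have e1 : ((evT t m F : Polynomial K) : PowerSeries K) =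
        MvPolynomial.eval₂ (PowerSeries.C)
          (fun i => ((PowerSeries.trunc (m + 1) (lg (t i)) : Polynomial K) : PowerSeries K)) F := by
      unfold evT
      rw [← Polynomial.coeToPowerSeries.ringHom_apply, MvPolynomial.hom_eval₂]
      congr 1
      ext x : 1
      simp [Polynomial.coeToPowerSeries.ringHom_apply]
    rw [e1, evK, MvPolynomial.hom_eval₂, MvPolynomial.hom_eval₂]
    congr 1
    funext i
    rw [Ideal.Quotient.eq, hI, Ideal.mem_span_singleton, PowerSeries.X_pow_dvd_iff]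
    intro s hs
    rw [map_sub, Polynomial.coeff_coe, PowerSeries.coeff_trunc, if_pos hs, sub_self]
  rw [Ideal.Quotient.eq, hI, Ideal.mem_span_singleton, PowerSeries.X_pow_dvd_iff] at h1
  have h2 := h1 r (by omega)
  rw [map_sub, Polynomial.coeff_coe] at h2
  exact sub_eq_zero.1 h2

/-- integral coefficients -/
def IC (P : Polynomial K) : Prop := ∀ r, IsIntegral ℤ (P.coeff r)

theorem IC.mul {P Q : Polynomial K} (hP : IC P) (hQ : IC Q) : IC (P * Q) := by
  intro r
  rw [Polynomial.coeff_mul]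
  exact IsIntegral.sum _ fun x _ => (hP _).mul (hQ _)

theorem IC.one : IC (1 : Polynomial K) := by
  intro r
  rw [Polynomial.coeff_one]
  split_ifs
  · exact isIntegral_one
  · exact isIntegral_zero

theorem IC.C {x : K} (hx : IsIntegral ℤ x) : IC (Polynomial.C x) := by
  intro r
  rw [Polynomial.coeff_C]
  split_ifs
  · exact hx
  · exact isIntegral_zero

theorem IC.pow {P : Polynomial K} (hP : IC P) (s : ℕ) : IC (P ^ s) := by
  induction s with
  | zero => rw [pow_zero]; exact IC.one
  | succ s ih => rw [pow_succ]; exact ih.mul hP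

theorem IC.prod {ι : Type*} (s : Finset ι) (P : ι → Polynomial K) (h : ∀ i ∈ s, IC (P i)) :
    IC (∏ i ∈ s, P i) := by
  classical
  induction s using Finset.induction_on with
  | empty => rw [Finset.prod_empty]; exact IC.one
  | insert a s ha ih =>
    rw [Finset.prod_insert ha]
    exact (h a (Finset.mem_insert_self _ _)).mul
      (ih fun i hi => h i (Finset.mem_insert_of_mem hi))

theorem natCast_integral (s : ℕ) : IsIntegral ℤ (s : K) := by
  have := isIntegral_algebraMap (R := ℤ) (A := K) (x := (s : ℤ))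
  simpa using this

theorem IC_trunc (t : Fin k → K) (D : ℕ) (hD : D ≠ 0) (hti : ∀ i, IsIntegral ℤ (t i)) (m : ℕ)
    (i : Fin k) :
    IC (Polynomial.C ((m.factorial * D ^ m : ℕ) : K) *
      PowerSeries.trunc (m + 1) (lg (t i / D))) := by
  intro r
  rw [Polynomial.coeff_C_mul, PowerSeries.coeff_trunc]
  split_ifs with hr
  · rw [lg, PowerSeries.coeff_mk]
    rcases Nat.eq_zero_or_pos r with h0 | h0
    · subst h0
      simp only [Nat.cast_zero, div_zero, mul_zero]
      exact isIntegral_zero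
    · obtain ⟨c, hc⟩ := Nat.dvd_factorial h0 (by omega : r ≤ m)
      have hD' : (D : K) ≠ 0 := Nat.cast_ne_zero.2 hD
      have hr' : (r : K) ≠ 0 := Nat.cast_ne_zero.2 (by omega)
      have e : (((m.factorial * D ^ m : ℕ) : K) * ((-1) ^ (r + 1) * (t i / D) ^ r / r)) =
          ((c * D ^ (m - r) : ℕ) : K) * ((-1) ^ (r + 1) * t i ^ r) := by
        have h1 : D ^ m = D ^ (m - r) * D ^ r := by rw [← pow_add]; congr 1; omega
        rw [hc, h1]
        push_cast
        rw [div_pow]
        field_simp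
      rw [e]
      refine (natCast_integral _).mul (IsIntegral.mul ?_ ((hti i).pow r))
      exact (isIntegral_one.neg).pow _
  · rw [mul_zero]
    exact isIntegral_zero

theorem IC_evT (t : Fin k → K) (D : ℕ) (hD : D ≠ 0) (hti : ∀ i, IsIntegral ℤ (t i)) (m δ : ℕ)
    (F : MvPolynomial (Fin k) K) (hF : ∀ a, δ < dg a → MvPolynomial.coeff a F = 0)
    (hFi : ∀ a, IsIntegral ℤ (MvPolynomial.coeff a F)) :
    IC (Polynomial.C (((m.factorial * D ^ m) ^ δ : ℕ) : K) * evT (fun i => t i / D) m F) := by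
  unfold evT
  rw [MvPolynomial.eval₂_eq', Finset.mul_sum]
  intro r
  rw [Polynomial.finsetSum_coeff]
  apply IsIntegral.sum
  intro a ha
  have hda : dg a ≤ δ := by
    by_contra hcon
    push Not at hcon
    exact (MvPolynomial.mem_support_iff.1 ha) (hF a hcon)
  set c : ℕ := m.factorial * D ^ m with hc
  have e : Polynomial.C ((c ^ δ : ℕ) : K) * (Polynomial.C (MvPolynomial.coeff a F) *
      ∏ i, PowerSeries.trunc (m + 1) (lg (t i / D)) ^ a i) =
      Polynomial.C (((c ^ (δ - dg a) : ℕ) : K) * MvPolynomial.coeff a F) *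
        ∏ i, (Polynomial.C (c : K) * PowerSeries.trunc (m + 1) (lg (t i / D))) ^ a i := by
    have h1 : ∏ i, (Polynomial.C (c : K) * PowerSeries.trunc (m + 1) (lg (t i / D))) ^ a i =
        Polynomial.C (((c ^ dg a : ℕ)) : K) *
          ∏ i, PowerSeries.trunc (m + 1) (lg (t i / D)) ^ a i := by
      simp only [mul_pow, Finset.prod_mul_distrib]
      congr 1
      rw [Finset.prod_pow_eq_pow_sum, ← dg]
      simp
    rw [h1]
    have h2 : c ^ δ = c ^ (δ - dg a) * c ^ dg a := by rw [← pow_add]; congr 1; omega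
    rw [h2]
    push_cast
    simp only [map_mul]
    ring
  rw [e]
  refine (IC.mul (IC.C ((natCast_integral _).mul (hFi a))) (IC.prod _ _ fun i _ => ?_)) r
  exact (IC_trunc t D hD hti m i).pow _

end alg

/-- Two products of elements of norm at most one are close if the factors are close. -/
theorem pow_close {E : Type*} [NormedField E] [IsUltrametricDist E] (x y : E) (ε : ℝ)
    (hx : ‖x‖ ≤ 1) (hy : ‖y‖ ≤ 1) (hε : 0 ≤ ε) (h : ‖x - y‖ ≤ ε) (s : ℕ) :
    ‖x ^ s - y ^ s‖ ≤ ε := by
  induction s with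
  | zero => simpa using hε
  | succ s ih =>
    have e : x ^ (s + 1) - y ^ (s + 1) = (x ^ s - y ^ s) * x + y ^ s * (x - y) := by ring
    rw [e]
    refine (IsUltrametricDist.norm_add_le_max _ _).trans (max_le ?_ ?_)
    · rw [norm_mul]
      calc ‖x ^ s - y ^ s‖ * ‖x‖ ≤ ε * 1 := mul_le_mul ih hx (norm_nonneg _) hε
        _ = ε := mul_one _
    · rw [norm_mul, norm_pow]
      calc ‖y‖ ^ s * ‖x - y‖ ≤ 1 * ε :=
            mul_le_mul (pow_le_one₀ (norm_nonneg _) hy) h (norm_nonneg _) zero_le_one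
        _ = ε := one_mul _

theorem prod_close {E ι : Type*} [NormedField E] [IsUltrametricDist E] (s : Finset ι)
    (x y : ι → E) (ε : ℝ) (hx : ∀ i, ‖x i‖ ≤ 1) (hy : ∀ i, ‖y i‖ ≤ 1) (hε : 0 ≤ ε)
    (h : ∀ i, ‖x i - y i‖ ≤ ε) :
    ‖∏ i ∈ s, x i - ∏ i ∈ s, y i‖ ≤ ε := by
  classical
  induction s using Finset.induction_on with
  | empty => simpa using hε
  | insert a s ha ih =>
    rw [Finset.prod_insert ha, Finset.prod_insert ha]
    have e : x a * ∏ i ∈ s, x i - y a * ∏ i ∈ s, y i =
        (x a - y a) * ∏ i ∈ s, x i + y a * (∏ i ∈ s, x i - ∏ i ∈ s, y i) := by ring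
    rw [e]
    refine (IsUltrametricDist.norm_add_le_max _ _).trans (max_le ?_ ?_)
    · rw [norm_mul, norm_prod]
      calc ‖x a - y a‖ * ∏ i ∈ s, ‖x i‖ ≤ ε * 1 :=
            mul_le_mul (h a) (Finset.prod_le_one (fun _ _ => norm_nonneg _) fun i _ => hx i)
              (Finset.prod_nonneg fun _ _ => norm_nonneg _) hε
        _ = ε := mul_one _
    · rw [norm_mul]
      calc ‖y a‖ * ‖∏ i ∈ s, x i - ∏ i ∈ s, y i‖ ≤ 1 * ε :=
            mul_le_mul (hy a) ih (norm_nonneg _) zero_le_one
        _ = ε := one_mul _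

/-- **Core theorem**: polynomials of degree `δ` in logarithms very close to one. -/
theorem core (p : ℕ) [Fact p.Prime] {E : Type*} [NormedField E] [NormedAlgebra ℚ_[p] E]
    [IsUltrametricDist E] (L : E → E)
    (hL : ∀ z : E, ‖z‖ < 1 →
      HasSum (fun n : ℕ => (-1 : E) ^ n * z ^ (n + 1) / ((n : E) + 1)) (L (1 + z)))
    {K : Type*} [Field K] [NumberField K] (σ : K →+* E) (k δ N D : ℕ) (hD : ¬ p ∣ D)
    (t : Fin k → K) (ht0 : ∀ i, t i ≠ 0) (htinj : Function.Injective t)
    (hti : ∀ i, IsIntegral ℤ (t i))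
    (F : MvPolynomial (Fin k) K) (hδ : ∀ a, δ < dg a → MvPolynomial.coeff a F = 0)
    (hFi : ∀ a, IsIntegral ℤ (MvPolynomial.coeff a F))
    (m : ℕ) (hm : m = ∑ i ∈ range (δ + 1), k ^ i) (X : ℝ)
    (hX : ∀ φ : K →+* ℂ, ∀ e < m, ‖φ ((((m.factorial * D ^ m) ^ δ : ℕ) : K) *
      PowerSeries.coeff e (evK (fun i => t i / D) F))‖ ≤ X)
    (hq1 : m + 1 ≤ p ^ N) (hN : X ^ (Module.finrank ℚ K) < (p : ℝ) ^ N)
    (hzero : MvPolynomial.eval₂ σ (fun i => L (1 + (p : E) ^ N * σ (t i / D))) F = 0) :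
    F = 0 := by
  by_contra hF0
  have hD0 : D ≠ 0 := by
    rintro rfl
    exact hD (dvd_zero p)
  have hm1 : 1 ≤ m := by
    rw [hm, Finset.sum_range_succ', pow_zero]
    omega
  set q : ℝ := (p : ℝ) ^ N with hq
  set z : E := (p : E) ^ N with hz
  have hzq : ‖z‖ = 1 / q := G.norm_p_pow p N
  set T : Fin k → K := fun i => t i / D with hT
  have hDK : (D : K) ≠ 0 := Nat.cast_ne_zero.2 hD0
  have hT0 : ∀ i, T i ≠ 0 := fun i => div_ne_zero (ht0 i) hDK
  have hTinj : Function.Injective T := by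
    intro i l hkl
    apply htinj
    have h1 : t i / D = t l / D := hkl
    field_simp at h1
    exact h1
  have hqm : (m : ℝ) + 1 ≤ q := by
    rw [hq]
    exact_mod_cast hq1
  have hm1r : (1 : ℝ) ≤ m := by exact_mod_cast hm1
  have hq2 : (2 : ℝ) ≤ q := by linarith
  have hq0 : 0 < q := by linarith
  have hσint : ∀ x : K, IsIntegral ℤ x → ‖σ x‖ ≤ 1 := by
    intro x hx
    exact G.norm_le_one_of_isIntegral p _ (hx.map σ.toIntAlgHom)
  have hDnorm : ‖(D : E)‖ = 1 := by
    have h1 : ‖(D : E)‖ = ‖(D : ℚ_[p])‖ := by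
      rw [← norm_algebraMap' E (D : ℚ_[p]), map_natCast]
    rw [h1, Padic.norm_natCast_eq_one_iff]
    exact (Nat.Prime.coprime_iff_not_dvd Fact.out).2 hD
  have hpt : ∀ i, ‖z * σ (T i)‖ ≤ 1 / q := by
    intro i
    rw [norm_mul, hzq, hT]
    simp only
    rw [map_div₀, map_natCast, norm_div, hDnorm, div_one]
    calc 1 / q * ‖σ (t i)‖ ≤ 1 / q * 1 :=
          mul_le_mul_of_nonneg_left (hσint _ (hti i)) (by positivity)
      _ = 1 / q := mul_one _
  have hpt1 : ∀ i, ‖z * σ (T i)‖ < 1 := by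
    intro i
    refine lt_of_le_of_lt (hpt i) ?_
    rw [div_lt_one hq0]
    linarith
  -- values and truncated values
  set lam : Fin k → E := fun i => L (1 + z * σ (T i)) with hlam
  set S : Fin k → E := fun i => G.lp (z * σ (T i)) m with hS
  have hlam1 : ∀ i, ‖lam i‖ ≤ 1 := fun i =>
    G.log_bound p _ _ q hq2 (hpt i) (hL _ (hpt1 i))
  have hS1 : ∀ i, ‖S i‖ ≤ 1 := fun i => G.lp_bound p _ m q hq2 (hpt i)
  have hlamS : ∀ i, ‖lam i - S i‖ ≤ 1 / q ^ m := fun i =>
    G.tail_bound p _ _ m hm1 q hqm (hpt i) (hL _ (hpt1 i))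
  have hε : (0 : ℝ) ≤ 1 / q ^ m := by positivity
  have hSmall : ‖MvPolynomial.eval₂ σ S F‖ ≤ 1 / q ^ m := by
    have e : MvPolynomial.eval₂ σ S F =
        MvPolynomial.eval₂ σ S F - MvPolynomial.eval₂ σ lam F := by
      rw [hzero, sub_zero]
    rw [e, MvPolynomial.eval₂_eq', MvPolynomial.eval₂_eq', ← Finset.sum_sub_distrib]
    apply IsUltrametricDist.norm_sum_le_of_forall_le_of_nonneg hε
    intro a _
    rw [← mul_sub, norm_mul]
    have h1 : ‖∏ i, S i ^ a i - ∏ i, lam i ^ a i‖ ≤ 1 / q ^ m := by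
      apply prod_close _ _ _ _ _ _ hε
      · intro i
        exact pow_close _ _ _ (hS1 i) (hlam1 i) hε (by rw [norm_sub_rev]; exact hlamS i) _
      · intro i
        rw [norm_pow]
        exact pow_le_one₀ (norm_nonneg _) (hS1 i)
      · intro i
        rw [norm_pow]
        exact pow_le_one₀ (norm_nonneg _) (hlam1 i)
    calc ‖σ (MvPolynomial.coeff a F)‖ * ‖∏ i, S i ^ a i - ∏ i, lam i ^ a i‖
        ≤ 1 * (1 / q ^ m) := mul_le_mul (hσint _ (hFi a)) h1 (norm_nonneg _) zero_le_one
      _ = 1 / q ^ m := one_mul _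
  -- the truncated polynomial
  set P : Polynomial K := evT T m F with hP
  have hSW : ∀ i, Polynomial.eval₂ σ z (PowerSeries.trunc (m + 1) (lg (T i))) = S i := by
    intro i
    rw [PowerSeries.eval₂_trunc_eq_sum_range, Finset.sum_range_succ']
    have h0 : σ (PowerSeries.coeff 0 (lg (T i))) * z ^ 0 = 0 := by
      rw [coeff_lg_zero, map_zero, zero_mul]
    rw [h0, add_zero, hS]
    simp only [G.lp]
    refine Finset.sum_congr rfl fun s _ => ?_
    rw [lg, PowerSeries.coeff_mk, map_div₀, map_mul, map_pow, map_neg, map_one, map_pow,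
      map_natCast]
    push_cast
    rw [mul_pow, pow_succ, pow_succ]
    ring
  have hPS : Polynomial.eval₂ σ z P = MvPolynomial.eval₂ σ S F := by
    rw [hP, evT, ← Polynomial.coe_eval₂RingHom, MvPolynomial.hom_eval₂]
    congr 1
    · ext x
      simp
    · funext i
      exact hSW i
  have hex : ∃ r, r < m ∧ PowerSeries.coeff r (evK T F) ≠ 0 := by
    by_contra hcon
    push Not at hcon
    apply hF0
    exact zero_const T hT0 hTinj δ F hδ (fun r hr => hcon r (by rw [hm]; exact hr))
  classical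
  set e := Nat.find hex with he
  obtain ⟨hem, hene⟩ := Nat.find_spec hex
  rw [← he] at hem hene
  have hmin : ∀ r < e, PowerSeries.coeff r (evK T F) = 0 := by
    intro r hr
    have := Nat.find_min hex hr
    push Not at this
    exact this (by omega)
  set κ : ℕ := (m.factorial * D ^ m) ^ δ with hκ
  have hκ0 : (κ : K) ≠ 0 := by
    have : κ ≠ 0 := pow_ne_zero _ (mul_ne_zero m.factorial_ne_zero (pow_ne_zero _ hD0))
    exact Nat.cast_ne_zero.2 this
  have hPint : ∀ r, IsIntegral ℤ ((κ : K) * P.coeff r) := by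
    intro r
    have := IC_evT t D hD0 hti m δ F hδ hFi r
    rwa [Polynomial.coeff_C_mul] at this
  set g : K := (κ : K) * PowerSeries.coeff e (evK T F) with hg
  have hgP : g = (κ : K) * P.coeff e := by rw [hg, hP, coeff_evT T m F e (by omega)]
  have hgint : IsIntegral ℤ g := by rw [hgP]; exact hPint e
  have hg0 : g ≠ 0 := mul_ne_zero hκ0 hene
  have hliou := G.liouville p K σ g hgint hg0 X (fun φ => hX φ e hem)
  have hmain : ‖(κ : E) * Polynomial.eval₂ σ z P - σ g * z ^ e‖ ≤ 1 / q ^ (e + 1) := by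
    set R : ℕ := max (P.natDegree + 1) (e + 1) with hR
    have e1 : (κ : E) * Polynomial.eval₂ σ z P =
        ∑ r ∈ range R, σ ((κ : K) * P.coeff r) * z ^ r := by
      rw [Polynomial.eval₂_eq_sum_range' σ (n := R) (by omega), Finset.mul_sum]
      refine Finset.sum_congr rfl fun r _ => ?_
      rw [map_mul, map_natCast]
      ring
    have e2 : (κ : E) * Polynomial.eval₂ σ z P - σ g * z ^ e =
        ∑ r ∈ (range R).erase e, σ ((κ : K) * P.coeff r) * z ^ r := by
      rw [e1, ← Finset.add_sum_erase (range R) _ (Finset.mem_range.2 (by omega : e < R)), hgP]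
      ring
    rw [e2]
    apply IsUltrametricDist.norm_sum_le_of_forall_le_of_nonneg (by positivity)
    intro r hr
    have hre := (Finset.mem_erase.1 hr).1
    rcases lt_or_gt_of_ne hre with hlt | hgt
    · rw [hP, coeff_evT T m F r (by omega), hmin r hlt, mul_zero, map_zero, zero_mul, norm_zero]
      positivity
    · rw [norm_mul, norm_pow, hzq]
      calc ‖σ ((κ : K) * P.coeff r)‖ * (1 / q) ^ r ≤ 1 * (1 / q) ^ r :=
            mul_le_mul_of_nonneg_right (hσint _ (hPint r)) (by positivity)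
        _ = 1 / q ^ r := by rw [one_mul, div_pow, one_pow]
        _ ≤ 1 / q ^ (e + 1) := by
            apply one_div_le_one_div_of_le (by positivity)
            exact pow_le_pow_right₀ (by linarith) hgt
  have hκG : ‖(κ : E) * Polynomial.eval₂ σ z P‖ ≤ 1 / q ^ (e + 1) := by
    rw [norm_mul, hPS]
    have h1 : ‖(κ : E)‖ ≤ 1 := IsUltrametricDist.norm_natCast_le_one _ _
    calc ‖(κ : E)‖ * ‖MvPolynomial.eval₂ σ S F‖ ≤ 1 * (1 / q ^ m) :=
          mul_le_mul h1 hSmall (norm_nonneg _) zero_le_one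
      _ = 1 / q ^ m := one_mul _
      _ ≤ 1 / q ^ (e + 1) := by
          apply one_div_le_one_div_of_le (by positivity)
          exact pow_le_pow_right₀ (by linarith) (by omega)
  have hfinal : ‖σ g * z ^ e‖ ≤ 1 / q ^ (e + 1) := by
    have e3 : σ g * z ^ e = (κ : E) * Polynomial.eval₂ σ z P -
        ((κ : E) * Polynomial.eval₂ σ z P - σ g * z ^ e) := by ring
    rw [e3, sub_eq_add_neg]
    exact (IsUltrametricDist.norm_add_le_max _ _).trans
      (max_le hκG (by rw [norm_neg]; exact hmain))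
  rw [norm_mul, norm_pow, hzq, div_pow, one_pow, pow_succ] at hfinal
  have hqe : 0 < q ^ e := by positivity
  have h9 : ‖σ g‖ ≤ 1 / q := by
    have h10 : ‖σ g‖ * (1 / q ^ e) ≤ (1 / q) * (1 / q ^ e) := by
      calc ‖σ g‖ * (1 / q ^ e) ≤ 1 / (q ^ e * q) := hfinal
        _ = (1 / q) * (1 / q ^ e) := by field_simp
    exact le_of_mul_le_mul_right h10 (by positivity)
  have hXnn : 0 ≤ X ^ (Module.finrank ℚ K) := by
    obtain ⟨φ⟩ : Nonempty (K →+* ℂ) := inferInstance
    have : 0 ≤ X := (norm_nonneg _).trans (hX φ e hem)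
    positivity
  have h11 : X ^ (Module.finrank ℚ K) * ‖σ g‖ ≤ X ^ (Module.finrank ℚ K) * (1 / q) :=
    mul_le_mul_of_nonneg_left h9 hXnn
  have h12 : X ^ (Module.finrank ℚ K) * (1 / q) < 1 := by
    rw [mul_one_div, div_lt_one hq0]
    exact hN
  linarith

end Pool.Agent.NearOne652
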