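import Mathlib
import Pool.Agent.NearOne652.Core

set_option autoImplicit false
set_option linter.unusedSectionVars false

open Finset

namespace Pool.Agent.NearOne652

variable {K : Type*} [Field K] [CharZero K] {k : ℕ}

/-- Coefficient bound for the first `m` coefficients. -/
def BD (φ : K →+* ℂ) (B : ℝ) (m : ℕ) (c : ℝ) (f : PowerSeries K) : Prop :=
  ∀ r < m, ‖φ (PowerSeries.coeff r f)‖ ≤ c * B ^ r

theorem BD.mul {φ : K →+* ℂ} {B : ℝ} {m : ℕ} {c c' : ℝ} {f g : PowerSeries K} (hB : 0 ≤ B)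
    (hc : 0 ≤ c) (hc' : 0 ≤ c') (hf : BD φ B m c f) (hg : BD φ B m c' g) :
    BD φ B m (m * c * c') (f * g) := by
  intro r hr
  rw [PowerSeries.coeff_mul, map_sum]
  refine (norm_sum_le _ _).trans ?_
  have key : ∀ x ∈ antidiagonal r,
      ‖φ (PowerSeries.coeff x.1 f * PowerSeries.coeff x.2 g)‖ ≤ c * c' * B ^ r := by
    intro x hx
    have hx' := Finset.HasAntidiagonal.mem_antidiagonal.1 hx
    rw [map_mul, norm_mul]
    calc ‖φ (PowerSeries.coeff x.1 f)‖ * ‖φ (PowerSeries.coeff x.2 g)‖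
        ≤ (c * B ^ x.1) * (c' * B ^ x.2) :=
          mul_le_mul (hf _ (by omega)) (hg _ (by omega)) (norm_nonneg _) (by positivity)
      _ = c * c' * B ^ r := by
          rw [← hx', pow_add]
          ring
  refine (Finset.sum_le_sum key).trans ?_
  rw [Finset.sum_const, Finset.Nat.card_antidiagonal, nsmul_eq_mul]
  have h1 : ((r + 1 : ℕ) : ℝ) ≤ m := by exact_mod_cast hr
  calc ((r + 1 : ℕ) : ℝ) * (c * c' * B ^ r) ≤ m * (c * c' * B ^ r) :=
        mul_le_mul_of_nonneg_right h1 (by positivity)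
    _ = m * c * c' * B ^ r := by ring

theorem BD.one {φ : K →+* ℂ} {B : ℝ} {m : ℕ} (hB : 0 ≤ B) : BD φ B m 1 (1 : PowerSeries K) := by
  intro r _
  rw [PowerSeries.coeff_one]
  split_ifs with h
  · subst h
    simp
  · rw [map_zero, norm_zero]
    positivity

theorem BD.mono {φ : K →+* ℂ} {B : ℝ} {m : ℕ} {c c' : ℝ} {f : PowerSeries K} (hB : 0 ≤ B)
    (h : c ≤ c') (hf : BD φ B m c f) : BD φ B m c' f := fun r hr =>
  (hf r hr).trans (mul_le_mul_of_nonneg_right h (by positivity))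

theorem BD.C_mul {φ : K →+* ℂ} {B : ℝ} {m : ℕ} {c : ℝ} {f : PowerSeries K} (x : K)
    (hf : BD φ B m c f) : BD φ B m (‖φ x‖ * c) (PowerSeries.C x * f) := by
  intro r hr
  rw [PowerSeries.coeff_C_mul, map_mul, norm_mul, mul_assoc]
  exact mul_le_mul_of_nonneg_left (hf r hr) (norm_nonneg _)

theorem BD.sum {ι : Type*} {φ : K →+* ℂ} {B : ℝ} {m : ℕ} (s : Finset ι) (c : ι → ℝ)
    (f : ι → PowerSeries K) (h : ∀ i ∈ s, BD φ B m (c i) (f i)) :
    BD φ B m (∑ i ∈ s, c i) (∑ i ∈ s, f i) := by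
  intro r hr
  rw [map_sum, map_sum, Finset.sum_mul]
  exact (norm_sum_le _ _).trans (Finset.sum_le_sum fun i hi => h i hi r hr)

theorem BD.lg {φ : K →+* ℂ} {B : ℝ} {m : ℕ} (hB : 0 ≤ B) (T : K) (hT : ‖φ T‖ ≤ B) :
    BD φ B m 1 (lg T) := by
  intro r _
  rw [NearOne652.lg, PowerSeries.coeff_mk, map_div₀, map_mul, map_pow, map_neg, map_one, map_pow,
    map_natCast, norm_div, norm_mul, norm_pow, norm_neg, norm_one, one_pow, one_mul, norm_pow,
    one_mul]
  rcases Nat.eq_zero_or_pos r with h0 | h0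
  · subst h0
    simp
  · have h4 : (1 : ℝ) ≤ ‖(r : ℂ)‖ := by
      rw [Complex.norm_natCast]
      exact_mod_cast h0
    calc ‖φ T‖ ^ r / ‖(r : ℂ)‖ ≤ ‖φ T‖ ^ r / 1 :=
          div_le_div_of_nonneg_left (by positivity) one_pos h4
      _ = ‖φ T‖ ^ r := div_one _
      _ ≤ B ^ r := pow_le_pow_left₀ (norm_nonneg _) hT r

theorem BD.pow_mul {φ : K →+* ℂ} {B : ℝ} {m : ℕ} {c c' : ℝ} {f g : PowerSeries K} (hB : 0 ≤ B)
    (hc : 0 ≤ c) (hc' : 0 ≤ c') (hf : BD φ B m c f) (hg : BD φ B m c' g) (s : ℕ) :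
    BD φ B m ((m * c) ^ s * c') (f ^ s * g) := by
  induction s with
  | zero => simpa using hg
  | succ s ih =>
    have h1 := BD.mul hB hc (by positivity) hf ih
    have e : f ^ (s + 1) * g = f * (f ^ s * g) := by ring
    rw [e]
    have e2 : (m * c) ^ (s + 1) * c' = m * c * ((m * c) ^ s * c') := by ring
    rw [e2]
    exact h1

theorem BD.prod_pow {ι : Type*} {φ : K →+* ℂ} {B : ℝ} {m : ℕ} {c : ℝ} (hB : 0 ≤ B)
    (hc : 0 ≤ c) (s : Finset ι) (f : ι → PowerSeries K) (a : ι → ℕ)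
    (hf : ∀ i ∈ s, BD φ B m c (f i)) :
    BD φ B m ((m * c) ^ (∑ i ∈ s, a i)) (∏ i ∈ s, f i ^ a i) := by
  classical
  induction s using Finset.induction_on with
  | empty => simpa using BD.one hB
  | insert j s hj ih =>
    rw [Finset.prod_insert hj, Finset.sum_insert hj, pow_add]
    exact BD.pow_mul hB hc (by positivity) (hf j (Finset.mem_insert_self _ _))
      (ih fun i hi => hf i (Finset.mem_insert_of_mem hi)) _

/-- Bound for the substitution of logarithmic series. -/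
theorem BD_evK (φ : K →+* ℂ) (B : ℝ) (hB : 0 ≤ B) (m : ℕ) (hm : 1 ≤ m) (T : Fin k → K)
    (hT : ∀ i, ‖φ (T i)‖ ≤ B) (δ : ℕ) (F : MvPolynomial (Fin k) K)
    (hδ : ∀ a, δ < dg a → MvPolynomial.coeff a F = 0) :
    BD φ B m ((∑ a ∈ F.support, ‖φ (MvPolynomial.coeff a F)‖) * (m : ℝ) ^ δ) (evK T F) := by
  unfold evK
  rw [MvPolynomial.eval₂_eq', Finset.sum_mul]
  apply BD.sum
  intro a ha
  have hda : dg a ≤ δ := by
    by_contra hcon
    push Not at hcon
    exact (MvPolynomial.mem_support_iff.1 ha) (hδ a hcon)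
  have h1 := BD.prod_pow (φ := φ) (m := m) (c := 1) hB zero_le_one univ (fun i => lg (T i))
    (fun i => a i) (fun i _ => BD.lg hB (T i) (hT i))
  have h2 : ((m : ℝ) * 1) ^ (∑ i, a i) ≤ (m : ℝ) ^ δ := by
    rw [mul_one]
    exact pow_le_pow_right₀ (by exact_mod_cast hm) hda
  exact BD.C_mul _ (BD.mono hB h2 h1)

/-- total degree in terms of `dg` -/
theorem coeff_eq_zero_of_totalDegree_le (F : MvPolynomial (Fin k) K) (δ : ℕ)
    (h : F.totalDegree ≤ δ) : ∀ a, δ < dg a → MvPolynomial.coeff a F = 0 := by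
  intro a ha
  by_contra hcon
  have h1 := MvPolynomial.le_totalDegree (MvPolynomial.mem_support_iff.2 hcon)
  have h2 : (a.sum fun _ e => e) = dg a := by
    unfold dg
    rw [Finsupp.sum_fintype]
    intro _
    rfl
  omega

end Pool.Agent.NearOne652
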