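import Mathlib
import Pool.Agent.NearOne652.Bound

set_option autoImplicit false
set_option linter.unusedSectionVars false

open Finset

namespace Pool.Agent.NearOne652

section bounds

variable {K : Type*} [Field K] [CharZero K] {k : ℕ}

/-- Bound for substitutions of series with bounded coefficients. -/
theorem BD_eval₂ (φ : K →+* ℂ) (B : ℝ) (hB : 0 ≤ B) (m : ℕ) (hm : 1 ≤ m)
    (f : Fin k → PowerSeries K) (hf : ∀ i, BD φ B m 1 (f i)) (δ : ℕ) (F : MvPolynomial (Fin k) K)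
    (hδ : ∀ a, δ < dg a → MvPolynomial.coeff a F = 0) :
    BD φ B m ((∑ a ∈ F.support, ‖φ (MvPolynomial.coeff a F)‖) * (m : ℝ) ^ δ)
      (MvPolynomial.eval₂ (PowerSeries.C) f F) := by
  rw [MvPolynomial.eval₂_eq', Finset.sum_mul]
  apply BD.sum
  intro a ha
  have hda : dg a ≤ δ := by
    by_contra hcon
    push Not at hcon
    exact (MvPolynomial.mem_support_iff.1 ha) (hδ a hcon)
  have h1 := BD.prod_pow (φ := φ) (m := m) (c := 1) hB zero_le_one univ f
    (fun i => a i) (fun i _ => hf i)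
  have h2 : ((m : ℝ) * 1) ^ (∑ i, a i) ≤ (m : ℝ) ^ δ := by
    rw [mul_one]
    exact pow_le_pow_right₀ (by exact_mod_cast hm) hda
  exact BD.C_mul _ (BD.mono hB h2 h1)

theorem coe_evT (t : Fin k → K) (m : ℕ) (F : MvPolynomial (Fin k) K) :
    ((evT t m F : Polynomial K) : PowerSeries K) = MvPolynomial.eval₂ (PowerSeries.C)
      (fun i => ((PowerSeries.trunc (m + 1) (lg (t i)) : Polynomial K) : PowerSeries K)) F := by
  unfold evT
  rw [← Polynomial.coeToPowerSeries.ringHom_apply, MvPolynomial.hom_eval₂]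
  congr 1
  ext x : 1
  simp [Polynomial.coeToPowerSeries.ringHom_apply]

theorem natDegree_evT (t : Fin k → K) (m δ : ℕ) (F : MvPolynomial (Fin k) K)
    (hδ : ∀ a, δ < dg a → MvPolynomial.coeff a F = 0) : (evT t m F).natDegree ≤ m * δ := by
  unfold evT
  rw [MvPolynomial.eval₂_eq']
  apply Polynomial.natDegree_sum_le_of_forall_le
  intro a ha
  have hda : dg a ≤ δ := by
    by_contra hcon
    push Not at hcon
    exact (MvPolynomial.mem_support_iff.1 ha) (hδ a hcon)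
  refine (Polynomial.natDegree_C_mul_le _ _).trans ?_
  refine (Polynomial.natDegree_prod_le _ _).trans ?_
  have h1 : ∀ i ∈ (univ : Finset (Fin k)),
      (PowerSeries.trunc (m + 1) (lg (t i)) ^ a i).natDegree ≤ a i * m := by
    intro i _
    apply Polynomial.natDegree_pow_le_of_le
    have := PowerSeries.natDegree_trunc_lt (lg (t i)) m
    omega
  refine (Finset.sum_le_sum h1).trans ?_
  rw [← Finset.sum_mul, mul_comm]
  exact Nat.mul_le_mul_left _ hda

theorem BD_trunc (φ : K →+* ℂ) (B : ℝ) (hB : 0 ≤ B) (m M : ℕ) (T : K) (hT : ‖φ T‖ ≤ B) :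
    BD φ B M 1 ((PowerSeries.trunc (m + 1) (lg T) : Polynomial K) : PowerSeries K) := by
  intro r hr
  rw [Polynomial.coeff_coe, PowerSeries.coeff_trunc]
  split_ifs
  · exact BD.lg hB T hT r hr
  · rw [map_zero, norm_zero]
    positivity

/-- All coefficients of the truncated substitution are bounded. -/
theorem bound_evT (φ : K →+* ℂ) (B : ℝ) (hB : 0 ≤ B) (m δ : ℕ) (T : Fin k → K)
    (hT : ∀ i, ‖φ (T i)‖ ≤ B) (F : MvPolynomial (Fin k) K)
    (hδ : ∀ a, δ < dg a → MvPolynomial.coeff a F = 0) (r : ℕ) :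
    ‖φ ((evT T m F).coeff r)‖ ≤ (∑ a ∈ F.support, ‖φ (MvPolynomial.coeff a F)‖) *
      ((m * δ + 1 : ℕ) : ℝ) ^ δ * B ^ r := by
  by_cases hr : r < m * δ + 1
  · have h1 := BD_eval₂ φ B hB (m * δ + 1) (by omega)
      (fun i => ((PowerSeries.trunc (m + 1) (lg (T i)) : Polynomial K) : PowerSeries K))
      (fun i => BD_trunc φ B hB m _ (T i) (hT i)) δ F hδ r hr
    rw [← coe_evT, Polynomial.coeff_coe] at h1
    exact h1
  · have h1 := natDegree_evT T m δ F hδ
    rw [Polynomial.coeff_eq_zero_of_natDegree_lt (by omega), map_zero, norm_zero]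
    have : 0 ≤ ∑ a ∈ F.support, ‖φ (MvPolynomial.coeff a F)‖ :=
      Finset.sum_nonneg fun _ _ => norm_nonneg _
    positivity

end bounds

/-- Liouville's inequality at an archimedean place. -/
theorem liouvilleC (K : Type*) [Field K] [NumberField K] (σ : K →+* ℂ) (g : K)
    (hg : IsIntegral ℤ g) (hg0 : g ≠ 0) (X : ℝ) (hX1 : 1 ≤ X)
    (hX : ∀ φ : K →+* ℂ, ‖φ g‖ ≤ X) :
    1 ≤ X ^ (Module.finrank ℚ K) * ‖σ g‖ := by
  classical
  obtain ⟨g', hg'⟩ : ∃ g' : NumberField.RingOfIntegers K, (g' : K) = g := ⟨⟨g, hg⟩, rfl⟩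
  have hg'0 : g' ≠ 0 := by
    intro h
    apply hg0
    rw [← hg', h]
    simp
  set N : ℕ := (Algebra.norm ℤ g').natAbs with hN
  have hN0 : N ≠ 0 := by
    rw [hN]
    exact Int.natAbs_ne_zero.2 (Algebra.norm_ne_zero_iff.2 hg'0)
  have hN1 : (1 : ℝ) ≤ N := by exact_mod_cast Nat.one_le_iff_ne_zero.2 hN0
  have h8 := Algebra.norm_eq_prod_embeddings ℚ ℂ g
  have h9 : ((Algebra.norm ℤ g' : ℤ) : ℚ) = Algebra.norm ℚ g := by
    have := Algebra.coe_norm_int g'
    rw [← hg']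
    exact this
  have h10 : ‖(algebraMap ℚ ℂ) (Algebra.norm ℚ g)‖ = (N : ℝ) := by
    rw [← h9, hN]
    simp
  have h11 : (N : ℝ) = ∏ τ : K →ₐ[ℚ] ℂ, ‖τ g‖ := by rw [← h10, h8, norm_prod]
  set σ' : K →ₐ[ℚ] ℂ := σ.toRatAlgHom with hσ'
  have h12 : ∏ τ : K →ₐ[ℚ] ℂ, ‖τ g‖ = ‖σ g‖ * ∏ τ ∈ univ.erase σ', ‖τ g‖ :=
    (Finset.mul_prod_erase univ (fun τ : K →ₐ[ℚ] ℂ => ‖τ g‖) (Finset.mem_univ σ')).symm
  have h13 : ∏ τ ∈ univ.erase σ', ‖τ g‖ ≤ X ^ (Module.finrank ℚ K) := by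
    calc ∏ τ ∈ univ.erase σ', ‖τ g‖ ≤ ∏ τ ∈ univ.erase σ', X :=
          Finset.prod_le_prod (fun _ _ => norm_nonneg _) (fun τ _ => hX τ.toRingHom)
      _ = X ^ ((univ.erase σ').card) := by rw [Finset.prod_const]
      _ ≤ X ^ (Module.finrank ℚ K) := by
          apply pow_le_pow_right₀ hX1
          rw [← AlgHom.card ℚ K ℂ, ← Finset.card_univ]
          exact Finset.card_le_card (Finset.erase_subset _ _)
  calc (1 : ℝ) ≤ N := hN1
    _ = ‖σ g‖ * ∏ τ ∈ univ.erase σ', ‖τ g‖ := by rw [h11, h12]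
    _ ≤ ‖σ g‖ * X ^ (Module.finrank ℚ K) := mul_le_mul_of_nonneg_left h13 (norm_nonneg _)
    _ = _ := mul_comm _ _

theorem pow_lip (x y : ℂ) (ε : ℝ) (hx : ‖x‖ ≤ 1) (hy : ‖y‖ ≤ 1) (h : ‖x - y‖ ≤ ε) (s : ℕ) :
    ‖x ^ s - y ^ s‖ ≤ s * ε := by
  induction s with
  | zero => simp
  | succ s ih =>
    have e : x ^ (s + 1) - y ^ (s + 1) = (x ^ s - y ^ s) * x + y ^ s * (x - y) := by ring
    rw [e]
    refine (norm_add_le _ _).trans ?_
    have h1 : ‖(x ^ s - y ^ s) * x‖ ≤ s * ε := by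
      rw [norm_mul]
      calc ‖x ^ s - y ^ s‖ * ‖x‖ ≤ ‖x ^ s - y ^ s‖ * 1 :=
            mul_le_mul_of_nonneg_left hx (norm_nonneg _)
        _ ≤ s * ε := by rw [mul_one]; exact ih
    have h2 : ‖y ^ s * (x - y)‖ ≤ ε := by
      rw [norm_mul, norm_pow]
      calc ‖y‖ ^ s * ‖x - y‖ ≤ 1 * ‖x - y‖ :=
            mul_le_mul_of_nonneg_right (pow_le_one₀ (norm_nonneg _) hy) (norm_nonneg _)
        _ ≤ ε := by rw [one_mul]; exact h
    push_cast
    linarith

theorem prod_lip {ι : Type*} (s : Finset ι) (x y : ι → ℂ) (ε : ι → ℝ) (hx : ∀ i, ‖x i‖ ≤ 1)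
    (hy : ∀ i, ‖y i‖ ≤ 1) (h : ∀ i, ‖x i - y i‖ ≤ ε i) :
    ‖∏ i ∈ s, x i - ∏ i ∈ s, y i‖ ≤ ∑ i ∈ s, ε i := by
  classical
  induction s using Finset.induction_on with
  | empty => simp
  | insert a s ha ih =>
    rw [Finset.prod_insert ha, Finset.prod_insert ha, Finset.sum_insert ha]
    have e : x a * ∏ i ∈ s, x i - y a * ∏ i ∈ s, y i =
        (x a - y a) * ∏ i ∈ s, x i + y a * (∏ i ∈ s, x i - ∏ i ∈ s, y i) := by ring
    rw [e]
    refine (norm_add_le _ _).trans (add_le_add ?_ ?_)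
    · rw [norm_mul, norm_prod]
      calc ‖x a - y a‖ * ∏ i ∈ s, ‖x i‖ ≤ ‖x a - y a‖ * 1 :=
            mul_le_mul_of_nonneg_left
              (Finset.prod_le_one (fun _ _ => norm_nonneg _) fun i _ => hx i) (norm_nonneg _)
        _ ≤ ε a := by rw [mul_one]; exact h a
    · rw [norm_mul]
      calc ‖y a‖ * ‖∏ i ∈ s, x i - ∏ i ∈ s, y i‖ ≤ 1 * ‖∏ i ∈ s, x i - ∏ i ∈ s, y i‖ :=
            mul_le_mul_of_nonneg_right (hy a) (norm_nonneg _)
        _ ≤ ∑ i ∈ s, ε i := by rw [one_mul]; exact ih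

/-- **Core theorem, complex case**: polynomials in logarithms of algebraic numbers `1 + T_i / H`. -/
theorem coreC {K : Type*} [Field K] [NumberField K] (σ : K →+* ℂ) (k δ D H : ℕ) (hD0 : D ≠ 0)
    (t : Fin k → K) (ht0 : ∀ i, t i ≠ 0) (htinj : Function.Injective t)
    (hti : ∀ i, IsIntegral ℤ (t i)) (B : ℝ) (hB : 1 ≤ B)
    (htB : ∀ (φ : K →+* ℂ) i, ‖φ (t i)‖ ≤ B)
    (F : MvPolynomial (Fin k) K) (hδ : ∀ a, δ < dg a → MvPolynomial.coeff a F = 0)
    (hFi : ∀ a, IsIntegral ℤ (MvPolynomial.coeff a F)) (A : ℝ) (hA1 : 1 ≤ A)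
    (hA : ∀ φ : K →+* ℂ, ∑ a ∈ F.support, ‖φ (MvPolynomial.coeff a F)‖ ≤ A)
    (m : ℕ) (hm : m = ∑ i ∈ range (δ + 1), k ^ i) (Y : ℝ)
    (hY : Y = 4 * (((m.factorial * D ^ m) ^ δ : ℕ) : ℝ) * A *
      ((m * δ + 1 : ℕ) : ℝ) ^ δ * B ^ (m + 1))
    (hN : Y ^ (Module.finrank ℚ K + 1) < (H : ℝ))
    (hzero : MvPolynomial.eval₂ σ (fun i => Complex.log (1 + σ (t i / D) / H)) F = 0) :
    F = 0 := by
  by_contra hF0
  have hm1 : 1 ≤ m := by
    rw [hm, Finset.sum_range_succ', pow_zero]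
    omega
  have hm1r : (1 : ℝ) ≤ m := by exact_mod_cast hm1
  have hB0 : 0 ≤ B := by linarith
  set T : Fin k → K := fun i => t i / D with hT
  have hDK : (D : K) ≠ 0 := Nat.cast_ne_zero.2 hD0
  have hD1 : (1 : ℝ) ≤ D := by exact_mod_cast Nat.one_le_iff_ne_zero.2 hD0
  have hT0 : ∀ i, T i ≠ 0 := fun i => div_ne_zero (ht0 i) hDK
  have hTinj : Function.Injective T := by
    intro i l hkl
    apply htinj
    have h1 : t i / D = t l / D := hkl
    field_simp at h1
    exact h1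
  have hTB : ∀ (φ : K →+* ℂ) i, ‖φ (T i)‖ ≤ B := by
    intro φ i
    rw [hT]
    simp only
    rw [map_div₀, map_natCast, norm_div, Complex.norm_natCast]
    calc ‖φ (t i)‖ / D ≤ ‖φ (t i)‖ / 1 :=
          div_le_div_of_nonneg_left (norm_nonneg _) one_pos hD1
      _ = ‖φ (t i)‖ := div_one _
      _ ≤ B := htB φ i
  set κ : ℕ := (m.factorial * D ^ m) ^ δ with hκ
  have hκn0 : κ ≠ 0 := pow_ne_zero _ (mul_ne_zero m.factorial_ne_zero (pow_ne_zero _ hD0))
  have hκ0 : (κ : K) ≠ 0 := Nat.cast_ne_zero.2 hκn0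
  have hκ1 : (1 : ℝ) ≤ κ := by exact_mod_cast Nat.one_le_iff_ne_zero.2 hκn0
  set M : ℝ := ((m * δ + 1 : ℕ) : ℝ) ^ δ with hM
  have hM1 : (1 : ℝ) ≤ M := by
    apply one_le_pow₀
    push_cast
    have : (0 : ℝ) ≤ (m : ℝ) * δ := by positivity
    linarith
  have hBm1 : (1 : ℝ) ≤ B ^ (m + 1) := one_le_pow₀ hB
  have hBB : B ≤ B ^ (m + 1) := le_self_pow₀ hB (by omega)
  -- size of `Y`
  have hY4 : 4 * B ≤ Y := by
    rw [hY]
    have h1 : 4 * B ≤ 4 * B ^ (m + 1) := by linarith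
    have h2 : (1 : ℝ) ≤ (κ : ℝ) * A * M :=
      one_le_mul_of_one_le_of_one_le (one_le_mul_of_one_le_of_one_le hκ1 hA1) hM1
    calc 4 * B ≤ 4 * B ^ (m + 1) := h1
      _ ≤ (κ : ℝ) * A * M * (4 * B ^ (m + 1)) := le_mul_of_one_le_left (by positivity) h2
      _ = 4 * (κ : ℝ) * A * M * B ^ (m + 1) := by ring
  have hY1 : 1 ≤ Y := by linarith
  have hYH : Y < H := lt_of_le_of_lt (le_self_pow₀ hY1 (by omega)) hN
  have hH0 : (0 : ℝ) < H := by linarith
  set x : ℝ := B / H with hx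
  have hx0 : 0 ≤ x := by positivity
  have hx12 : x ≤ 1 / 4 := by
    rw [hx, div_le_div_iff₀ hH0 (by norm_num)]
    linarith
  set z : ℂ := 1 / (H : ℂ) with hz
  have hzn : ‖z‖ = 1 / H := by rw [hz, norm_div, norm_one, Complex.norm_natCast]
  set w : Fin k → ℂ := fun i => σ (T i) / H with hw
  have hwx : ∀ i, ‖w i‖ ≤ x := by
    intro i
    rw [hw, hx]
    simp only
    rw [norm_div, Complex.norm_natCast]
    exact div_le_div_of_nonneg_right (hTB σ i) hH0.le
  set lam : Fin k → ℂ := fun i => Complex.log (1 + w i) with hlam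
  set S : Fin k → ℂ := fun i => Complex.logTaylor (m + 1) (w i) with hS
  set ε : ℝ := x ^ (m + 1) with hε
  have hε0 : 0 ≤ ε := by positivity
  have hε4 : ε ≤ 1 / 4 := by
    calc ε ≤ x ^ 1 := pow_le_pow_of_le_one hx0 (by linarith) (by omega)
      _ ≤ 1 / 4 := by rw [pow_one]; exact hx12
  have hlamS : ∀ i, ‖lam i - S i‖ ≤ ε := by
    intro i
    have h1 := Complex.norm_log_sub_logTaylor_le m (z := w i) (by linarith [hwx i])
    refine h1.trans ?_
    have h2 : ‖w i‖ ^ (m + 1) ≤ ε := pow_le_pow_left₀ (norm_nonneg _) (hwx i) _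
    have h3 : (1 - ‖w i‖)⁻¹ ≤ 2 := by
      rw [inv_le_comm₀ (by linarith [hwx i]) (by norm_num)]
      linarith [hwx i]
    rw [div_le_iff₀ (by positivity)]
    calc ‖w i‖ ^ (m + 1) * (1 - ‖w i‖)⁻¹ ≤ ε * 2 :=
          mul_le_mul h2 h3 (by
            apply inv_nonneg.2
            linarith [hwx i]) hε0
      _ ≤ ε * (m + 1) := mul_le_mul_of_nonneg_left (by linarith) hε0
  have hlam1 : ∀ i, ‖lam i‖ ≤ 3 / 4 := by
    intro i
    have h1 := Complex.norm_log_one_add_le (z := w i) (by linarith [hwx i])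
    refine h1.trans ?_
    have h3 : (1 - ‖w i‖)⁻¹ ≤ 2 := by
      rw [inv_le_comm₀ (by linarith [hwx i]) (by norm_num)]
      linarith [hwx i]
    have h4 : ‖w i‖ ^ 2 ≤ 1 / 4 := by
      have h5 : ‖w i‖ ≤ 1 / 4 := by linarith [hwx i]
      have := norm_nonneg (w i)
      nlinarith
    have h5 : ‖w i‖ ^ 2 * (1 - ‖w i‖)⁻¹ ≤ 1 / 4 * 2 :=
      mul_le_mul h4 h3 (by
        apply inv_nonneg.2
        linarith [hwx i]) (by norm_num)
    linarith [hwx i]
  have hS1 : ∀ i, ‖S i‖ ≤ 1 := by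
    intro i
    have e1 : S i = lam i - (lam i - S i) := by ring
    rw [e1]
    refine (norm_sub_le _ _).trans ?_
    linarith [hlam1 i, hlamS i]
  have hSmall : ‖MvPolynomial.eval₂ σ S F‖ ≤ A * δ * ε := by
    have hz0 : MvPolynomial.eval₂ σ lam F = 0 := hzero
    have e : MvPolynomial.eval₂ σ S F =
        MvPolynomial.eval₂ σ S F - MvPolynomial.eval₂ σ lam F := by
      rw [hz0, sub_zero]
    rw [e, MvPolynomial.eval₂_eq', MvPolynomial.eval₂_eq', ← Finset.sum_sub_distrib]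
    refine (norm_sum_le _ _).trans ?_
    have h1 : ∀ a ∈ F.support, ‖σ (MvPolynomial.coeff a F) * ∏ i, S i ^ a i -
        σ (MvPolynomial.coeff a F) * ∏ i, lam i ^ a i‖ ≤
        ‖σ (MvPolynomial.coeff a F)‖ * (δ * ε) := by
      intro a ha
      have hda : dg a ≤ δ := by
        by_contra hcon
        push Not at hcon
        exact (MvPolynomial.mem_support_iff.1 ha) (hδ a hcon)
      rw [← mul_sub, norm_mul]
      apply mul_le_mul_of_nonneg_left _ (norm_nonneg _)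
      have h2 := prod_lip (univ : Finset (Fin k)) (fun i => S i ^ a i) (fun i => lam i ^ a i)
        (fun i => (a i : ℝ) * ε)
        (fun i => by rw [norm_pow]; exact pow_le_one₀ (norm_nonneg _) (hS1 i))
        (fun i => by
          rw [norm_pow]
          exact pow_le_one₀ (norm_nonneg _) (by linarith [hlam1 i]))
        (fun i => pow_lip _ _ _ (hS1 i) (by linarith [hlam1 i])
          (by rw [norm_sub_rev]; exact hlamS i) _)
      refine h2.trans ?_
      rw [← Finset.sum_mul]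
      apply mul_le_mul_of_nonneg_right _ hε0
      rw [← Nat.cast_sum]
      exact_mod_cast hda
    refine (Finset.sum_le_sum h1).trans ?_
    rw [← Finset.sum_mul]
    calc (∑ a ∈ F.support, ‖σ (MvPolynomial.coeff a F)‖) * (δ * ε) ≤ A * (δ * ε) :=
          mul_le_mul_of_nonneg_right (hA σ) (by positivity)
      _ = A * δ * ε := by ring
  -- the truncated polynomial
  set P : Polynomial K := evT T m F with hP
  have hSW : ∀ i, Polynomial.eval₂ σ z (PowerSeries.trunc (m + 1) (lg (T i))) = S i := by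
    intro i
    rw [PowerSeries.eval₂_trunc_eq_sum_range, hS]
    simp only [Complex.logTaylor]
    refine Finset.sum_congr rfl fun s _ => ?_
    rw [lg, PowerSeries.coeff_mk, map_div₀, map_mul, map_pow, map_neg, map_one, map_pow,
      map_natCast, hw, hz]
    simp only
    rw [div_pow, div_pow, one_pow]
    ring
  have hPS : Polynomial.eval₂ σ z P = MvPolynomial.eval₂ σ S F := by
    rw [hP, evT, ← Polynomial.coe_eval₂RingHom, MvPolynomial.hom_eval₂]
    congr 1
    · ext x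
      simp
    · funext i
      exact hSW i
  have hex : ∃ r, r < m ∧ PowerSeries.coeff r (evK T F) ≠ 0 := by
    by_contra hcon
    push Not at hcon
    apply hF0
    exact zero_const T hT0 hTinj δ F hδ (fun r hr => hcon r (by rw [hm]; exact hr))
  classical
  set e := Nat.find hex with he
  obtain ⟨hem, hene⟩ := Nat.find_spec hex
  rw [← he] at hem hene
  have hmin : ∀ r < e, PowerSeries.coeff r (evK T F) = 0 := by
    intro r hr
    have := Nat.find_min hex hr
    push Not at this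
    exact this (by omega)
  have hPint : ∀ r, IsIntegral ℤ ((κ : K) * P.coeff r) := by
    intro r
    have := IC_evT t D hD0 hti m δ F hδ hFi r
    rwa [Polynomial.coeff_C_mul] at this
  have hPB : ∀ (φ : K →+* ℂ) r, ‖φ (P.coeff r)‖ ≤ A * M * B ^ r := by
    intro φ r
    refine (bound_evT φ B hB0 m δ T (hTB φ) F hδ r).trans ?_
    exact mul_le_mul_of_nonneg_right
      (mul_le_mul_of_nonneg_right (hA φ) (by positivity)) (by positivity)
  set g : K := (κ : K) * P.coeff e with hg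
  have hgint : IsIntegral ℤ g := hPint e
  have hPe : P.coeff e = PowerSeries.coeff e (evK T F) := coeff_evT T m F e (by omega)
  have hg0 : g ≠ 0 := mul_ne_zero hκ0 (by rw [hPe]; exact hene)
  have hgY : ∀ φ : K →+* ℂ, ‖φ g‖ ≤ Y := by
    intro φ
    rw [hg, map_mul, map_natCast, norm_mul, Complex.norm_natCast]
    calc (κ : ℝ) * ‖φ (P.coeff e)‖ ≤ (κ : ℝ) * (A * M * B ^ (m + 1)) := by
          apply mul_le_mul_of_nonneg_left _ (by positivity)
          refine (hPB φ e).trans (mul_le_mul_of_nonneg_left ?_ (by positivity))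
          exact pow_le_pow_right₀ hB (by omega)
      _ ≤ 4 * ((κ : ℝ) * (A * M * B ^ (m + 1))) := by
          have : 0 ≤ (κ : ℝ) * (A * M * B ^ (m + 1)) := by positivity
          linarith
      _ = Y := by rw [hY]; ring
  have hliou := liouvilleC K σ g hgint hg0 Y hY1 hgY
  have hmain : ‖(κ : ℂ) * Polynomial.eval₂ σ z P - σ g * z ^ e‖ ≤
      (κ : ℝ) * (A * M) * (2 * x ^ (e + 1)) := by
    set R : ℕ := max (P.natDegree + 1) (e + 1) with hR
    have e1 : (κ : ℂ) * Polynomial.eval₂ σ z P =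
        ∑ r ∈ range R, σ ((κ : K) * P.coeff r) * z ^ r := by
      rw [Polynomial.eval₂_eq_sum_range' σ (n := R) (by omega), Finset.mul_sum]
      refine Finset.sum_congr rfl fun r _ => ?_
      rw [map_mul, map_natCast]
      ring
    have e2 : (κ : ℂ) * Polynomial.eval₂ σ z P - σ g * z ^ e =
        ∑ r ∈ Finset.Ico (e + 1) R, σ ((κ : K) * P.coeff r) * z ^ r := by
      rw [e1, Finset.range_eq_Ico, ← Finset.sum_Ico_consecutive _ (Nat.zero_le e)
        (by omega : e ≤ R), Finset.sum_eq_sum_Ico_succ_bot (by omega : e < R)]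
      have h0 : ∑ r ∈ Finset.Ico 0 e, σ ((κ : K) * P.coeff r) * z ^ r = 0 := by
        apply Finset.sum_eq_zero
        intro r hr
        have hr' := (Finset.mem_Ico.1 hr).2
        rw [hP, coeff_evT T m F r (by omega), hmin r hr', mul_zero, map_zero, zero_mul]
      rw [h0, hg]
      ring
    rw [e2]
    refine (norm_sum_le _ _).trans ?_
    have h1 : ∀ r ∈ Finset.Ico (e + 1) R, ‖σ ((κ : K) * P.coeff r) * z ^ r‖ ≤
        (κ : ℝ) * (A * M) * x ^ r := by
      intro r _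
      rw [norm_mul, norm_pow, hzn, map_mul, map_natCast, norm_mul, Complex.norm_natCast]
      calc (κ : ℝ) * ‖σ (P.coeff r)‖ * (1 / H) ^ r ≤ (κ : ℝ) * (A * M * B ^ r) * (1 / H) ^ r := by
            apply mul_le_mul_of_nonneg_right _ (by positivity)
            exact mul_le_mul_of_nonneg_left (hPB σ r) (by positivity)
        _ = (κ : ℝ) * (A * M) * x ^ r := by
            rw [hx, div_pow, div_pow, one_pow]
            ring
    refine (Finset.sum_le_sum h1).trans ?_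
    rw [← Finset.mul_sum]
    apply mul_le_mul_of_nonneg_left _ (by positivity)
    rw [Finset.sum_Ico_eq_sum_range]
    have h2 : ∀ i ∈ range (R - (e + 1)), x ^ (e + 1 + i) ≤ x ^ (e + 1) * (1 / 2) ^ i := by
      intro i _
      rw [pow_add]
      apply mul_le_mul_of_nonneg_left _ (by positivity)
      exact pow_le_pow_left₀ hx0 (by linarith) i
    refine (Finset.sum_le_sum h2).trans ?_
    rw [← Finset.mul_sum, mul_comm]
    exact mul_le_mul_of_nonneg_right (sum_geometric_two_le _) (by positivity)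
  have hδM : (δ : ℝ) ≤ M := by
    rw [hM]
    rcases Nat.eq_zero_or_pos δ with h0 | h0
    · rw [h0]
      simp
    · have h1 : (δ : ℝ) ≤ ((m * δ + 1 : ℕ) : ℝ) := by
        have : δ ≤ m * δ := Nat.le_mul_of_pos_left δ hm1
        exact_mod_cast (by omega : δ ≤ m * δ + 1)
      have h2 : (1 : ℝ) ≤ ((m * δ + 1 : ℕ) : ℝ) := by exact_mod_cast (by omega : 1 ≤ m * δ + 1)
      exact h1.trans (le_self_pow₀ h2 (by omega))
  have hfinal : ‖σ g‖ * (1 / H) ^ e ≤ 3 * ((κ : ℝ) * (A * M)) * x ^ (e + 1) := by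
    have e3 : σ g * z ^ e = (κ : ℂ) * Polynomial.eval₂ σ z P -
        ((κ : ℂ) * Polynomial.eval₂ σ z P - σ g * z ^ e) := by ring
    have h1 : ‖σ g * z ^ e‖ = ‖σ g‖ * (1 / H) ^ e := by rw [norm_mul, norm_pow, hzn]
    rw [← h1, e3]
    refine (norm_sub_le _ _).trans ?_
    have h2 : ‖(κ : ℂ) * Polynomial.eval₂ σ z P‖ ≤ (κ : ℝ) * (A * M) * x ^ (e + 1) := by
      rw [norm_mul, Complex.norm_natCast, hPS, mul_assoc]
      apply mul_le_mul_of_nonneg_left _ (by positivity)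
      refine hSmall.trans ?_
      have h3 : ε ≤ x ^ (e + 1) := pow_le_pow_of_le_one hx0 (by linarith) (by omega)
      exact mul_le_mul (mul_le_mul_of_nonneg_left hδM (by linarith)) h3 hε0 (by positivity)
    linarith
  have hσg : ‖σ g‖ ≤ Y / H := by
    have h1 : x ^ (e + 1) = B ^ (e + 1) * ((1 / H) * (1 / H) ^ e) := by
      rw [hx, div_pow, ← pow_succ', div_pow, one_pow]
      ring
    rw [h1] at hfinal
    have h2 : ‖σ g‖ * (1 / H) ^ e ≤
        (3 * ((κ : ℝ) * (A * M)) * B ^ (e + 1) * (1 / H)) * (1 / H) ^ e := by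
      calc _ ≤ _ := hfinal
        _ = _ := by ring
    have h3 : 0 < (1 / (H : ℝ)) ^ e := by positivity
    have h4 : ‖σ g‖ ≤ 3 * ((κ : ℝ) * (A * M)) * B ^ (e + 1) * (1 / H) :=
      le_of_mul_le_mul_right h2 h3
    refine h4.trans ?_
    rw [mul_one_div]
    apply div_le_div_of_nonneg_right _ hH0.le
    rw [hY]
    have h5 : B ^ (e + 1) ≤ B ^ (m + 1) := pow_le_pow_right₀ hB (by omega)
    calc 3 * ((κ : ℝ) * (A * M)) * B ^ (e + 1) ≤ 3 * ((κ : ℝ) * (A * M)) * B ^ (m + 1) :=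
          mul_le_mul_of_nonneg_left h5 (by positivity)
      _ ≤ 4 * ((κ : ℝ) * (A * M)) * B ^ (m + 1) := by
          have : 0 ≤ ((κ : ℝ) * (A * M)) * B ^ (m + 1) := by positivity
          linarith
      _ = 4 * (κ : ℝ) * A * M * B ^ (m + 1) := by ring
  have h11 : Y ^ (Module.finrank ℚ K) * ‖σ g‖ ≤ Y ^ (Module.finrank ℚ K) * (Y / H) :=
    mul_le_mul_of_nonneg_left hσg (by positivity)
  have h12 : Y ^ (Module.finrank ℚ K) * (Y / H) < 1 := by
    rw [← mul_div_assoc, ← pow_succ, div_lt_one hH0]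
    exact hN
  linarith

end Pool.Agent.NearOne652
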