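import Mathlib

set_option autoImplicit false
set_option linter.unusedSectionVars false

open Finset

namespace Pool.Agent.NearOne652

open MvPolynomial

/-- The matrix of linear forms `∑ β_ijl X_l`. -/
noncomputable def lf {R : Type*} [CommRing R] {n k : ℕ} (β : Fin n → Fin n → Fin k → R) :
    Matrix (Fin n) (Fin n) (MvPolynomial (Fin k) R) :=
  Matrix.of fun i j => ∑ l, C (β i j l) * X l

theorem lf_eval {n k : ℕ} (β : Fin n → Fin n → Fin k → ℚ) (x : Fin k → ℚ) (l0 : Fin k)
    (i j : Fin n) :
    eval₂Hom (Polynomial.C : ℚ →+* Polynomial ℚ)
      (fun l => Polynomial.C (x l) + if l = l0 then Polynomial.X else 0) (lf β i j) =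
    Polynomial.C (eval x (lf β i j)) + Polynomial.C (β i j l0) * Polynomial.X := by
  classical
  simp only [lf, Matrix.of_apply, map_sum, map_mul, eval₂Hom_C, eval_C, eval_X, eval₂Hom_X']
  simp only [mul_add, Finset.sum_add_distrib]
  congr 1
  simp

/-- A singular matrix of rational linear forms is isotropic for a pair of rational vectors. -/
theorem pencil (k : ℕ) : ∀ (n : ℕ) (β : Fin (n + 1) → Fin (n + 1) → Fin k → ℚ),
    (lf β).det = 0 → ∃ w v : Fin (n + 1) → ℚ, w ≠ 0 ∧ v ≠ 0 ∧
      ∀ l, ∑ i, ∑ j, w i * β i j l * v j = 0 := by
  classical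
  intro n
  induction n with
  | zero =>
    intro β h
    refine ⟨fun _ => 1, fun _ => 1, ?_, ?_, fun l => ?_⟩
    · intro h0
      have := congrFun h0 0
      simp at this
    · intro h0
      have := congrFun h0 0
      simp at this
    · rw [Matrix.det_fin_one] at h
      have h1 := congrArg (coeff (Finsupp.single l 1)) h
      simp only [lf, Matrix.of_apply, coeff_sum, coeff_C_mul, coeff_zero] at h1
      rw [Finset.sum_eq_single l] at h1
      · simpa [coeff_X] using h1
      · intro i _ hi
        rw [coeff_X, if_neg, mul_zero]
        intro h2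
        exact hi (Finsupp.single_left_injective one_ne_zero h2)
      · intro h2
        exact absurd (Finset.mem_univ l) h2
  | succ n ih =>
    intro β h
    by_cases hadj : (lf β).adjugate = 0
    · have h1 : (lf β).adjugate 0 0 = 0 := by rw [hadj]; rfl
      rw [Matrix.adjugate_fin_succ_eq_det_submatrix] at h1
      simp only [Fin.val_zero, add_zero, pow_zero, one_mul] at h1
      have h2 : (lf β).submatrix (Fin.succAbove 0) (Fin.succAbove 0) =
          lf (fun i j => β (Fin.succ i) (Fin.succ j)) := by
        ext i j
        simp [lf]
      rw [h2] at h1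
      obtain ⟨w, v, hw, hv, h3⟩ := ih _ h1
      refine ⟨Fin.cons 0 w, Fin.cons 0 v, ?_, ?_, fun l => ?_⟩
      · intro h0
        apply hw
        funext i
        have := congrFun h0 i.succ
        simpa using this
      · intro h0
        apply hv
        funext i
        have := congrFun h0 i.succ
        simpa using this
      · rw [Fin.sum_univ_succ]
        simp only [Fin.cons_zero, zero_mul, Finset.sum_const_zero, zero_add, Fin.cons_succ]
        refine Eq.trans ?_ (h3 l)
        refine Finset.sum_congr rfl fun i _ => ?_
        rw [Fin.sum_univ_succ]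
        simp
    · obtain ⟨i0, j0, h0⟩ : ∃ i0 j0, (lf β).adjugate i0 j0 ≠ 0 := by
        by_contra hcon
        push Not at hcon
        exact hadj (Matrix.ext fun i j => hcon i j)
      obtain ⟨x, hx⟩ : ∃ x : Fin k → ℚ, eval x ((lf β).adjugate i0 j0) ≠ 0 := by
        by_contra hcon
        push Not at hcon
        exact h0 (MvPolynomial.funext fun x => by simpa using hcon x)
      set w : Fin (n + 1 + 1) → ℚ := fun s => eval x ((lf β).adjugate i0 s) with hw
      set v : Fin (n + 1 + 1) → ℚ := fun s => eval x ((lf β).adjugate s j0) with hv
      refine ⟨w, v, ?_, ?_, fun l0 => ?_⟩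
      · intro h1
        exact hx (congrFun h1 j0)
      · intro h1
        exact hx (congrFun h1 i0)
      · set ψ := eval₂Hom (Polynomial.C : ℚ →+* Polynomial ℚ)
          (fun l => Polynomial.C (x l) + if l = l0 then Polynomial.X else 0) with hψ
        have hψ0 : ∀ P, (ψ P).coeff 0 = eval x P := by
          intro P
          have h1 : (Polynomial.constantCoeff.comp ψ) = eval x := by
            apply MvPolynomial.ringHom_ext
            · intro r
              simp [hψ]
            · intro l
              simp only [hψ, RingHom.comp_apply, eval₂Hom_X', eval_X]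
              split_ifs <;> simp
          have h2 := congrArg (fun f : MvPolynomial (Fin k) ℚ →+* ℚ => f P) h1
          simpa using h2
        have h1 : ∀ j, ∑ s, (w s * β s j l0 +
            (ψ ((lf β).adjugate i0 s)).coeff 1 * eval x (lf β s j)) = 0 := by
          intro j
          have h2 := congrArg (fun A : Matrix (Fin (n + 1 + 1)) (Fin (n + 1 + 1))
            (MvPolynomial (Fin k) ℚ) => (ψ (A i0 j)).coeff 1) (Matrix.adjugate_mul (lf β))
          simp only [h, zero_smul, Matrix.zero_apply, map_zero, Polynomial.coeff_zero,
            Matrix.mul_apply, map_sum, map_mul, Polynomial.finsetSum_coeff] at h2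
          rw [← h2]
          refine Finset.sum_congr rfl fun s _ => ?_
          rw [Polynomial.mul_coeff_one, hψ0, hψ, lf_eval, ← hψ]
          simp [hw]
        have h2 : ∀ s, ∑ j, eval x (lf β s j) * v j = 0 := by
          intro s
          have h3 := congrArg (fun A : Matrix (Fin (n + 1 + 1)) (Fin (n + 1 + 1))
            (MvPolynomial (Fin k) ℚ) => eval x (A s j0)) (Matrix.mul_adjugate (lf β))
          simp only [h, zero_smul, Matrix.zero_apply, map_zero, Matrix.mul_apply, map_sum,
            map_mul] at h3
          exact h3
        have h4 : ∑ j, (∑ s, (w s * β s j l0 +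
            (ψ ((lf β).adjugate i0 s)).coeff 1 * eval x (lf β s j))) * v j = 0 := by
          apply Finset.sum_eq_zero
          intro j _
          rw [h1 j, zero_mul]
        have h5 : ∑ j, (∑ s, (w s * β s j l0 +
            (ψ ((lf β).adjugate i0 s)).coeff 1 * eval x (lf β s j))) * v j =
            ∑ i, ∑ j, w i * β i j l0 * v j +
            ∑ s, (ψ ((lf β).adjugate i0 s)).coeff 1 * ∑ j, eval x (lf β s j) * v j := by
          simp only [Finset.sum_mul, Finset.mul_sum, add_mul, Finset.sum_add_distrib]
          rw [Finset.sum_comm]
          congr 1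
          rw [Finset.sum_comm]
          refine Finset.sum_congr rfl fun s _ => Finset.sum_congr rfl fun j _ => ?_
          ring
        rw [h5] at h4
        have h6 : ∑ s, (ψ ((lf β).adjugate i0 s)).coeff 1 * ∑ j, eval x (lf β s j) * v j = 0 := by
          apply Finset.sum_eq_zero
          intro s _
          rw [h2 s, mul_zero]
        rw [h6, add_zero] at h4
        exact h4

end Pool.Agent.NearOne652
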