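import Mathlib
import Pool.Agent.NearOne652.Bound
import Pool.Agent.NearOne652.Pencil

set_option autoImplicit false
set_option linter.unusedSectionVars false

open Finset

namespace Pool.Agent.NearOne652

/-- total degree in terms of `dg`, general coefficients -/
theorem coeff_zero_of_totalDegree {R : Type*} [CommSemiring R] {k : ℕ}
    (F : MvPolynomial (Fin k) R) (δ : ℕ)
    (h : F.totalDegree ≤ δ) : ∀ a, δ < dg a → MvPolynomial.coeff a F = 0 := by
  intro a ha
  by_contra hcon
  have h1 := MvPolynomial.le_totalDegree (MvPolynomial.mem_support_iff.2 hcon)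
  have h2 : (a.sum fun _ e => e) = dg a := by
    unfold dg
    rw [Finsupp.sum_fintype]
    intro _
    rfl
  omega

theorem totalDegree_det_lf {n k : ℕ} (β : Fin n → Fin n → Fin k → ℤ) :
    (lf β).det.totalDegree ≤ n := by
  rw [Matrix.det_apply']
  apply MvPolynomial.totalDegree_finsetSum_le
  intro τ _
  refine (MvPolynomial.totalDegree_mul _ _).trans ?_
  have h1 : (((Equiv.Perm.sign τ : ℤ) : MvPolynomial (Fin k) ℤ)).totalDegree = 0 := by
    rcases Int.units_eq_one_or (Equiv.Perm.sign τ) with h | h <;> rw [h] <;> simp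
  rw [h1, zero_add]
  refine (MvPolynomial.totalDegree_finsetProd _ _).trans ?_
  have h2 : ∀ i ∈ (univ : Finset (Fin n)), (lf β (τ i) i).totalDegree ≤ 1 := by
    intro i _
    simp only [lf, Matrix.of_apply]
    apply MvPolynomial.totalDegree_finsetSum_le
    intro l _
    refine (MvPolynomial.totalDegree_mul _ _).trans ?_
    rw [MvPolynomial.totalDegree_C, zero_add]
    exact (MvPolynomial.totalDegree_X _).le
  refine (Finset.sum_le_sum h2).trans ?_
  simp

/-- Substituting into the determinant of linear forms. -/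
theorem eval_det_lf {R : Type*} [CommRing R] {n k : ℕ} (β : Fin n → Fin n → Fin k → ℤ)
    (x : Fin k → R) :
    MvPolynomial.eval₂ (Int.castRingHom R) x (lf β).det =
      (Matrix.of fun i j => ∑ l, (β i j l : R) * x l).det := by
  rw [← MvPolynomial.coe_eval₂Hom, RingHom.map_det]
  congr 1
  ext i j
  simp only [lf, RingHom.mapMatrix_apply, Matrix.map_apply, Matrix.of_apply, map_sum, map_mul,
    MvPolynomial.eval₂Hom_C, MvPolynomial.eval₂Hom_X']
  simp only [eq_intCast]

theorem BD_det {K : Type*} [Field K] [CharZero K] (φ : K →+* ℂ) (B : ℝ) (hB : 0 ≤ B) (m : ℕ)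
    (n : ℕ) (c : ℝ) (hc : 0 ≤ c) (W : Matrix (Fin n) (Fin n) (PowerSeries K))
    (hW : ∀ i j, BD φ B m c (W i j)) :
    BD φ B m ((n.factorial : ℝ) * (m * c) ^ n) W.det := by
  rw [Matrix.det_apply']
  have h1 : (n.factorial : ℝ) * (m * c) ^ n = ∑ τ : Equiv.Perm (Fin n), (m * c) ^ n := by
    rw [Finset.sum_const, Finset.card_univ, Fintype.card_perm, Fintype.card_fin, nsmul_eq_mul]
  rw [h1]
  apply BD.sum
  intro τ _
  have h2 := BD.prod_pow (φ := φ) (m := m) (c := c) hB hc univ (fun i => W (τ i) i)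
    (fun _ => 1) (fun i _ => hW _ _)
  simp only [Finset.sum_const, Finset.card_univ, Fintype.card_fin, smul_eq_mul, mul_one,
    pow_one] at h2
  have h3 := BD.C_mul (((Equiv.Perm.sign τ : ℤ) : K)) h2
  have h4 : ‖φ ((Equiv.Perm.sign τ : ℤ) : K)‖ = 1 := by
    rcases Int.units_eq_one_or (Equiv.Perm.sign τ) with h | h <;> rw [h] <;> simp
  rw [h4, one_mul] at h3
  have h5 : PowerSeries.C (((Equiv.Perm.sign τ : ℤ) : K)) =
      (((Equiv.Perm.sign τ : ℤ)) : PowerSeries K) := by simp
  rw [h5] at h3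
  exact h3

/-- rational pencil consequence for integer data -/
theorem pencil_int {n k : ℕ} (hn : 1 ≤ n) (β : Fin n → Fin n → Fin k → ℤ)
    (h : (lf β).det = 0) : ∃ w v : Fin n → ℚ, w ≠ 0 ∧ v ≠ 0 ∧
      ∀ l, ∑ i, ∑ j, w i * (β i j l : ℚ) * v j = 0 := by
  obtain ⟨n', rfl⟩ : ∃ n', n = n' + 1 := ⟨n - 1, by omega⟩
  apply pencil k n' (fun i j l => (β i j l : ℚ))
  have h1 : lf (fun i j l => (β i j l : ℚ)) =
      (MvPolynomial.map (Int.castRingHom ℚ)).mapMatrix (lf β) := by
    ext i j : 2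
    simp [lf, RingHom.mapMatrix_apply]
  rw [h1, ← RingHom.map_det, h, map_zero]

end Pool.Agent.NearOne652
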