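import Mathlib
import Pool.Agent.NearOne652.Zero

set_option autoImplicit false
set_option linter.unusedSectionVars false

open Finset

namespace Pool.Agent.NearOne652

open PowerSeries

variable {K : Type*} [Field K] [CharZero K] {k : ℕ}

/-- Common denominator of the forms `dx/x` and `t_i dx/(1 - t_i x)`. -/
noncomputable def HQ (t : Fin k → K) : Polynomial K := Polynomial.X * PP (fun i => - t i)

/-- Numerators of the forms `dx/x` and `t_i dx/(1 - t_i x)` over the common denominator. -/
noncomputable def Hg (t : Fin k → K) : Option (Fin k) → Polynomial K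
  | none => PP (fun i => - t i)
  | some i => Polynomial.C (t i) * (Polynomial.X * Pe (fun i => - t i) i)

/-- Rational part of the derivatives of `B0 + ∑ A_l ∫ ω_l`. -/
noncomputable def Rr (t : Fin k → K) (A : Option (Fin k) → Polynomial K) (B0 : Polynomial K) :
    ℕ → Polynomial K
  | 0 => B0
  | j + 1 => HQ t * Polynomial.derivative (Rr t A B0 j) + ∑ l, Hg t l * Pj (HQ t) j (A l) -
      ((j : Polynomial K) * Polynomial.derivative (HQ t)) * Rr t A B0 j

/-- Shift of the variable. -/
noncomputable def sh (c : K) : Polynomial K →+* K⟦X⟧ :=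
  (Polynomial.coeToPowerSeries.ringHom).comp
    (Polynomial.compRingHom (Polynomial.X + Polynomial.C c))

theorem sh_apply (c : K) (P : Polynomial K) :
    sh c P = ((P.comp (Polynomial.X + Polynomial.C c) : Polynomial K) : K⟦X⟧) := by
  simp [sh, Polynomial.coeToPowerSeries.ringHom_apply]

theorem der_sh (c : K) (P : Polynomial K) : d⁄dX K (sh c P) = sh c (Polynomial.derivative P) := by
  rw [sh_apply, sh_apply, derivative_coe]
  congr 1
  rw [Polynomial.derivative_comp]
  simp

theorem sh_injective (c : K) (P : Polynomial K) (h : sh c P = 0) : P = 0 := by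
  rw [sh_apply] at h
  have h1 : P.comp (Polynomial.X + Polynomial.C c) = 0 := by
    apply Polynomial.coe_injective K
    rw [h, Polynomial.coe_zero]
  have h2 := congrArg (fun R : Polynomial K => R.comp (Polynomial.X - Polynomial.C c)) h1
  simp only [Polynomial.comp_assoc, Polynomial.zero_comp] at h2
  simpa using h2

/-- Letters after the shift. -/
noncomputable def Tc (t : Fin k → K) (c : K) : Option (Fin k) → K
  | none => 1 / c
  | some i => - (t i / (1 - t i * c))

/-- Sign of the letters. -/
def eps : Option (Fin k) → K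
  | none => 1
  | some _ => -1

theorem exists_base (t : Fin k → K) : ∃ c : K, c ≠ 0 ∧ ∀ i, 1 - t i * c ≠ 0 := by
  classical
  set P : Polynomial K := Polynomial.X * ∏ i, (1 - Polynomial.C (t i) * Polynomial.X) with hP
  have hP0 : P ≠ 0 := by
    apply mul_ne_zero Polynomial.X_ne_zero
    apply Finset.prod_ne_zero_iff.2
    intro i _ h
    have h1 := congrArg (Polynomial.eval 0) h
    simp at h1
  obtain ⟨c, hc⟩ : ∃ c : K, P.eval c ≠ 0 := by
    by_contra hcon
    push Not at hcon
    exact hP0 (Polynomial.funext (by simpa using hcon))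
  refine ⟨c, ?_, ?_⟩
  · rintro rfl
    apply hc
    simp [hP]
  · intro i h
    apply hc
    rw [hP, Polynomial.eval_mul, Polynomial.eval_prod]
    apply mul_eq_zero_of_right
    apply Finset.prod_eq_zero (Finset.mem_univ i)
    simpa using h

theorem Tc_ne (t : Fin k → K) (ht : ∀ i, t i ≠ 0) (c : K) (hc : c ≠ 0)
    (hc1 : ∀ i, 1 - t i * c ≠ 0) (l : Option (Fin k)) : Tc t c l ≠ 0 := by
  cases l with
  | none => exact one_div_ne_zero hc
  | some i => exact neg_ne_zero.2 (div_ne_zero (ht i) (hc1 i))

theorem Tc_inj (t : Fin k → K) (hinj : Function.Injective t) (c : K)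
    (hc : c ≠ 0) (hc1 : ∀ i, 1 - t i * c ≠ 0) : Function.Injective (Tc t c) := by
  intro l l' h
  have key : ∀ i, (1 / c : K) ≠ - (t i / (1 - t i * c)) := by
    intro i h
    have h1 := hc1 i
    rw [eq_neg_iff_add_eq_zero, div_add_div _ _ hc h1, div_eq_zero_iff] at h
    rcases h with h | h
    · have h2 : (1 : K) = 0 := by linear_combination h
      exact one_ne_zero h2
    · exact (mul_ne_zero hc h1) h
  cases l with
  | none =>
    cases l' with
    | none => rfl
    | some i => exact absurd h (key i)
  | some i =>
    cases l' with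
    | none => exact absurd h.symm (key i)
    | some j =>
      have h0 : - (t i / (1 - t i * c)) = - (t j / (1 - t j * c)) := h
      have h1 := hc1 i
      have h2 := hc1 j
      have h3 : t i / (1 - t i * c) = t j / (1 - t j * c) := neg_injective h0
      rw [div_eq_div_iff h1 h2] at h3
      have h4 : t i = t j := by linear_combination h3
      rw [hinj h4]

theorem sh_up (c : K) (s : K) (h : 1 - s * c ≠ 0) :
    sh c (up (-s)) = C (1 - s * c) * us (- (s / (1 - s * c))) := by
  rw [sh_apply]
  have : (up (-s)).comp (Polynomial.X + Polynomial.C c) =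
      Polynomial.C (1 - s * c) * up (- (s / (1 - s * c))) := by
    unfold up
    have h1 : (1 - s * c) * (- (s / (1 - s * c))) = -s := by field_simp
    have h1' : Polynomial.C (1 - s * c) * Polynomial.C (- (s / (1 - s * c))) =
        Polynomial.C (-s) := by rw [← Polynomial.C_mul, h1]
    have h2 : Polynomial.C (1 - s * c) = 1 + Polynomial.C (-s) * Polynomial.C c := by
      rw [← Polynomial.C_mul, ← Polynomial.C_1, ← Polynomial.C_add]
      congr 1
      ring
    simp only [Polynomial.add_comp, Polynomial.one_comp, Polynomial.mul_comp, Polynomial.C_comp,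
      Polynomial.X_comp]
    linear_combination (-1 : Polynomial K) * h2 - Polynomial.X * h1'
  rw [this, Polynomial.coe_mul, Polynomial.coe_C, coe_up]

theorem sh_X (c : K) (h : c ≠ 0) : sh c Polynomial.X = C c * us (1 / c) := by
  rw [sh_apply, Polynomial.X_comp, Polynomial.coe_add, Polynomial.coe_X, Polynomial.coe_C]
  unfold us
  rw [mul_add, ← mul_assoc, ← map_mul, mul_one_div_cancel h, map_one]
  ring

theorem sh_Q_der (t : Fin k → K) (c : K) (hc : c ≠ 0)
    (hc1 : ∀ i, 1 - t i * c ≠ 0) (l : Option (Fin k)) :
    sh c (HQ t) * d⁄dX K (C (eps l) * lg (Tc t c l)) = sh c (Hg t l) := by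
  rw [der_C_mul]
  cases l with
  | none =>
    have h1 := der_lg (1 / c : K)
    simp only [HQ, Hg, Tc, eps, map_mul, map_one, one_mul]
    rw [sh_X c hc]
    have h2 : C c * (us (1 / c) * d⁄dX K (lg (1 / c))) = (1 : K⟦X⟧) := by
      rw [h1, ← map_mul, mul_one_div_cancel hc, map_one]
    linear_combination (sh c (PP fun i => -t i)) * h2
  | some i =>
    have h1 := der_lg (- (t i / (1 - t i * c)) : K)
    simp only [HQ, Hg, Tc, eps, map_mul]
    have h3 : PP (fun i => - t i) = up (- t i) * Pe (fun i => - t i) i := by
      unfold PP Pe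
      rw [Finset.mul_prod_erase univ (fun i => up (- t i)) (Finset.mem_univ i)]
    rw [h3, map_mul, sh_up c (t i) (hc1 i)]
    have h4 : sh c (Polynomial.C (t i)) = C (t i) := by
      rw [sh_apply, Polynomial.C_comp, Polynomial.coe_C]
    have h5 : C (1 - t i * c) * (us (- (t i / (1 - t i * c))) *
        (C (-1) * d⁄dX K (lg (- (t i / (1 - t i * c)))))) = C (t i) := by
      have : (1 - t i * c) * (-1) * (- (t i / (1 - t i * c))) = t i := by
        have := hc1 i
        field_simp
      rw [mul_left_comm (us _), h1, ← mul_assoc, ← map_mul, ← map_mul, this]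
    rw [h4]
    linear_combination (sh c Polynomial.X * sh c (Pe (fun i => -t i) i)) * h5

theorem Rr_shift (t : Fin k → K) (c : K) (hc : c ≠ 0) (hc1 : ∀ i, 1 - t i * c ≠ 0)
    (A : Option (Fin k) → Polynomial K) (B0 : Polynomial K) (j : ℕ) :
    (sh c (HQ t)) ^ j * (d⁄dX K)^[j] (sh c B0 +
      ∑ l, sh c (A l) * (C (eps l) * lg (Tc t c l))) =
    sh c (Rr t A B0 j) + ∑ l, sh c (Pj (HQ t) j (A l)) * (C (eps l) * lg (Tc t c l)) := by
  induction j with
  | zero => simp [Rr, Pj]
  | succ j ih =>
    have h0 : ∀ P : Polynomial K, sh c P =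
        ((P.comp (Polynomial.X + Polynomial.C c) : Polynomial K) : K⟦X⟧) := sh_apply c
    have hstep := step_identity ((HQ t).comp (Polynomial.X + Polynomial.C c))
      (sh c B0 + ∑ l, sh c (A l) * (C (eps l) * lg (Tc t c l))) j
    rw [← h0] at hstep
    have hder : ((((j : Polynomial K) * Polynomial.derivative
        ((HQ t).comp (Polynomial.X + Polynomial.C c)) : Polynomial K)) : K⟦X⟧) =
        sh c ((j : Polynomial K) * Polynomial.derivative (HQ t)) := by
      rw [h0]
      congr 1
      rw [Polynomial.mul_comp, Polynomial.derivative_comp]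
      simp
    rw [hder] at hstep
    rw [hstep, ih]
    have hterm : ∀ l, sh c (HQ t) * d⁄dX K (sh c (Pj (HQ t) j (A l)) * (C (eps l) * lg (Tc t c l)))
        - sh c ((j : Polynomial K) * Polynomial.derivative (HQ t)) *
          (sh c (Pj (HQ t) j (A l)) * (C (eps l) * lg (Tc t c l))) =
        sh c (Hg t l * Pj (HQ t) j (A l)) +
          sh c (Pj (HQ t) (j + 1) (A l)) * (C (eps l) * lg (Tc t c l)) := by
      intro l
      have h3 := sh_Q_der t c hc hc1 l
      rw [Derivation.leibniz, smul_eq_mul, smul_eq_mul, der_sh, Pj_succ]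
      simp only [map_sub, map_mul]
      linear_combination (sh c (Pj (HQ t) j (A l))) * h3
    have hsum : ∑ l, sh c (HQ t) *
          d⁄dX K (sh c (Pj (HQ t) j (A l)) * (C (eps l) * lg (Tc t c l)))
        - ∑ l, sh c ((j : Polynomial K) * Polynomial.derivative (HQ t)) *
          (sh c (Pj (HQ t) j (A l)) * (C (eps l) * lg (Tc t c l))) =
        ∑ l, sh c (Hg t l * Pj (HQ t) j (A l)) +
          ∑ l, sh c (Pj (HQ t) (j + 1) (A l)) * (C (eps l) * lg (Tc t c l)) := by
      rw [← Finset.sum_sub_distrib, ← Finset.sum_add_distrib]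
      exact Finset.sum_congr rfl fun l _ => hterm l
    simp only [Rr, map_sub, map_add, map_mul, map_sum, der_sh, mul_add, Finset.mul_sum]
      at hsum ⊢
    linear_combination hsum

/-- **Key lemma**: the rational part of the `n`-th derivative of `B0 + ∑ A_l ∫ ω_l` determines
the polynomials `A_l` of degree less than `n`. -/
theorem key_lemma (t : Fin k → K) (ht : ∀ i, t i ≠ 0) (hinj : Function.Injective t)
    (n : ℕ) (hn : 0 < n) (A : Option (Fin k) → Polynomial K) (B0 : Polynomial K)
    (hA : ∀ l, (A l).natDegree < n) (hB : B0.natDegree < n) (hR : Rr t A B0 n = 0) :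
    ∀ l, A l = 0 := by
  obtain ⟨c, hc, hc1⟩ := exists_base t
  set S : K⟦X⟧ := sh c B0 + ∑ l, sh c (A l) * (C (eps l) * lg (Tc t c l)) with hS
  have h1 := Rr_shift t c hc hc1 A B0 n
  rw [← hS, hR, map_zero, zero_add] at h1
  have h2 : ∑ l, sh c (Pj (HQ t) n (A l)) * (C (eps l) * lg (Tc t c l)) = 0 := by
    apply Finset.sum_eq_zero
    intro l _
    rw [Pj, Polynomial.iterate_derivative_eq_zero (hA l), mul_zero, map_zero, zero_mul]
  rw [h2] at h1
  have hQ0 : sh c (HQ t) ≠ 0 := by
    intro h
    have h3 := sh_injective c _ h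
    unfold HQ PP at h3
    rcases mul_eq_zero.1 h3 with h4 | h4
    · exact Polynomial.X_ne_zero h4
    · obtain ⟨i, _, hi⟩ := Finset.prod_eq_zero_iff.1 h4
      have h5 := congrArg (Polynomial.eval 0) hi
      simp [up] at h5
  have h3 : (d⁄dX K)^[n] S = 0 := (mul_eq_zero.1 h1).resolve_left (pow_ne_zero _ hQ0)
  have h4 : ∀ r, coeff (r + n) S = 0 := by
    intro r
    have h5 := coeff_iterate_derivative S n r
    rw [h3, map_zero] at h5
    rcases mul_eq_zero.1 h5.symm with h6 | h6
    · exfalso
      have h7 : (r + 1).ascFactorial n ≠ 0 := (Nat.ascFactorial_pos _ _).ne'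
      exact h7 (by exact_mod_cast h6)
    · exact h6
  set Q : Polynomial K := trunc n S with hQ
  have hQS : (Q : K⟦X⟧) = S := by
    ext r
    rw [Polynomial.coeff_coe, hQ, coeff_trunc]
    split_ifs with hr
    · rfl
    · obtain ⟨r', rfl⟩ : ∃ r', r = r' + n := ⟨r - n, by omega⟩
      exact (h4 r').symm
  have hQdeg : Q.natDegree < n := by
    obtain ⟨n', rfl⟩ : ∃ n', n = n' + 1 := ⟨n - 1, by omega⟩
    exact natDegree_trunc_lt _ _
  -- reindex by `Fin (k + 1)`
  set T : Fin (k + 1) → K := Fin.cons (Tc t c none) (fun i => Tc t c (some i)) with hT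
  set A' : Fin (k + 1) → Polynomial K := Fin.cons ((A none).comp (Polynomial.X + Polynomial.C c))
    (fun i => Polynomial.C (-1) * (A (some i)).comp (Polynomial.X + Polynomial.C c)) with hA'
  have hcomp : ∀ P : Polynomial K, P.natDegree < n →
      (P.comp (Polynomial.X + Polynomial.C c)).natDegree < n := by
    intro P hP
    rw [Polynomial.natDegree_comp]
    have : (Polynomial.X + Polynomial.C c).natDegree = 1 := Polynomial.natDegree_X_add_C c
    rw [this, mul_one]
    exact hP
  have hTi : Function.Injective T := by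
    intro a b hab
    induction a using Fin.cases with
    | zero =>
      induction b using Fin.cases with
      | zero => rfl
      | succ j =>
        have := Tc_inj t hinj c hc hc1 (show Tc t c none = Tc t c (some j) by simpa [hT] using hab)
        cases this
    | succ i =>
      induction b using Fin.cases with
      | zero =>
        have := Tc_inj t hinj c hc hc1 (show Tc t c (some i) = Tc t c none by simpa [hT] using hab)
        cases this
      | succ j =>
        have := Tc_inj t hinj c hc hc1
          (show Tc t c (some i) = Tc t c (some j) by simpa [hT] using hab)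
        rw [Option.some.inj this]
  have hT0 : ∀ a, T a ≠ 0 := by
    intro a
    induction a using Fin.cases with
    | zero => simpa [hT] using Tc_ne t ht c hc hc1 none
    | succ i => simpa [hT] using Tc_ne t ht c hc hc1 (some i)
  have hA'd : ∀ a, (A' a).natDegree < n := by
    intro a
    induction a using Fin.cases with
    | zero => simpa [hA'] using hcomp _ (hA none)
    | succ i =>
      simp only [hA', Fin.cons_succ]
      exact lt_of_le_of_lt (Polynomial.natDegree_C_mul_le _ _) (hcomp _ (hA (some i)))
  have h8 := lin_indep' (k + 1) n hn T hT0 hTi A'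
    (B0.comp (Polynomial.X + Polynomial.C c) - Q) hA'd
    (lt_of_le_of_lt (Polynomial.natDegree_sub_le _ _) (max_lt (hcomp _ hB) hQdeg))
    (by
      intro r _
      have h9 : ((B0.comp (Polynomial.X + Polynomial.C c) - Q : Polynomial K) : K⟦X⟧) +
          ∑ a, ((A' a : Polynomial K) : K⟦X⟧) * lg (T a) = 0 := by
        rw [Polynomial.coe_sub, hQS, hS, Fin.sum_univ_succ, Fintype.sum_option]
        simp only [hA', hT, Fin.cons_zero, Fin.cons_succ, ← sh_apply, eps, Polynomial.coe_mul,
          Polynomial.coe_C, map_one, one_mul]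
        have : ∀ i : Fin k, C (-1 : K) * sh c (A (some i)) * lg (Tc t c (some i)) =
            sh c (A (some i)) * (C (-1 : K) * lg (Tc t c (some i))) := by
          intro i
          ring
        rw [Finset.sum_congr rfl fun i _ => this i]
        ring
      rw [h9, map_zero])
  intro l
  cases l with
  | none =>
    have h11 := h8.1 0
    simp only [hA', Fin.cons_zero] at h11
    apply sh_injective c
    rw [sh_apply, h11, Polynomial.coe_zero]
  | some i =>
    have h11 := h8.1 i.succ
    simp only [hA', Fin.cons_succ] at h11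
    apply sh_injective c
    rw [sh_apply]
    rcases mul_eq_zero.1 h11 with h12 | h12
    · exfalso
      have := Polynomial.C_eq_zero.1 h12
      exact (neg_ne_zero.2 (one_ne_zero (α := K))) this
    · rw [h12, Polynomial.coe_zero]

end Pool.Agent.NearOne652
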