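import Mathlib
import Pool.Agent.NearOne652.Hyp1

set_option autoImplicit false
set_option linter.unusedSectionVars false

open Finset

namespace Pool.Agent.NearOne652

open PowerSeries

variable {K : Type*} [Field K] [CharZero K] {k : ℕ}

/-- Taylor coefficients at zero of the hyperlogarithm attached to a word: the letter `none` stands
for the form `dx/x` and the letter `some i` for `t_i dx/(1 - t_i x)`. -/
noncomputable def cw (t : Fin k → K) : List (Option (Fin k)) → ℕ → K
  | [], n => if n = 0 then 1 else 0
  | none :: w, n => cw t w n / n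
  | some i :: w, n => (∑ m ∈ range n, t i ^ (n - m) * cw t w m) / n

/-- The power series with coefficients `cw t w`. -/
noncomputable def Iw (t : Fin k → K) (w : List (Option (Fin k))) : K⟦X⟧ := PowerSeries.mk (cw t w)

/-- Words whose last letter is not `dx/x`. -/
def Adm (w : List (Option (Fin k))) : Prop := w.getLast? ≠ some none

theorem cw_zero (t : Fin k → K) (w : List (Option (Fin k))) (hw : w ≠ []) : cw t w 0 = 0 := by
  match w, hw with
  | none :: w, _ => simp [cw]
  | some i :: w, _ => simp [cw]

theorem Iw_nil (t : Fin k → K) : Iw t [] = 1 := by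
  ext n
  simp [Iw, cw, coeff_one]

theorem X_mul_der_none (t : Fin k → K) (w : List (Option (Fin k))) (hw : w ≠ []) :
    X * d⁄dX K (Iw t (none :: w)) = Iw t w := by
  ext n
  cases n with
  | zero => simp [Iw, cw_zero t w hw]
  | succ n =>
    rw [coeff_succ_X_mul, coeff_derivative]
    simp only [Iw, coeff_mk, cw]
    have : ((n + 1 : ℕ) : K) ≠ 0 := Nat.cast_ne_zero.2 (Nat.succ_ne_zero n)
    push_cast at this ⊢
    field_simp

theorem us_mul_der_some (t : Fin k → K) (i : Fin k) (w : List (Option (Fin k))) :
    us (- t i) * d⁄dX K (Iw t (some i :: w)) = C (t i) * Iw t w := by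
  have hz : ∀ n, coeff n (d⁄dX K (Iw t (some i :: w))) =
      ∑ m ∈ range (n + 1), t i ^ (n + 1 - m) * cw t w m := by
    intro n
    rw [coeff_derivative]
    simp only [Iw, coeff_mk, cw]
    have : ((n + 1 : ℕ) : K) ≠ 0 := Nat.cast_ne_zero.2 (Nat.succ_ne_zero n)
    push_cast at this ⊢
    field_simp
  ext n
  unfold us
  rw [add_mul, one_mul, map_add, mul_assoc, coeff_C_mul, coeff_C_mul]
  cases n with
  | zero =>
    rw [hz]
    simp [Iw]
  | succ n =>
    rw [coeff_succ_X_mul, hz, hz, Finset.sum_range_succ (fun m => t i ^ (n + 1 + 1 - m) * cw t w m)]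
    have h1 : ∑ m ∈ range (n + 1), t i ^ (n + 1 + 1 - m) * cw t w m =
        t i * ∑ m ∈ range (n + 1), t i ^ (n + 1 - m) * cw t w m := by
      rw [Finset.mul_sum]
      refine Finset.sum_congr rfl fun m hm => ?_
      have : n + 1 + 1 - m = (n + 1 - m) + 1 := by
        have := Finset.mem_range.1 hm
        omega
      rw [this, pow_succ]
      ring
    rw [h1]
    have h2 : n + 1 + 1 - (n + 1) = 1 := by omega
    rw [h2, pow_one]
    simp only [Iw, coeff_mk]
    ring

theorem coe_HQ (t : Fin k → K) : ((HQ t : Polynomial K) : K⟦X⟧) =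
    X * ((PP (fun i => - t i) : Polynomial K) : K⟦X⟧) := by
  unfold HQ
  rw [Polynomial.coe_mul, Polynomial.coe_X]

theorem HQ_mul_der (t : Fin k → K) (l : Option (Fin k)) (w : List (Option (Fin k)))
    (h : Adm (l :: w)) :
    ((HQ t : Polynomial K) : K⟦X⟧) * d⁄dX K (Iw t (l :: w)) =
      ((Hg t l : Polynomial K) : K⟦X⟧) * Iw t w := by
  cases l with
  | none =>
    have hw : w ≠ [] := by
      rintro rfl
      exact h (by simp)
    have h1 := X_mul_der_none t w hw
    rw [coe_HQ, Hg]
    linear_combination ((PP (fun i => - t i) : Polynomial K) : K⟦X⟧) * h1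
  | some i =>
    have h1 := us_mul_der_some t i w
    have h3 : PP (fun i => - t i) = up (- t i) * Pe (fun i => - t i) i := by
      unfold PP Pe
      rw [Finset.mul_prod_erase univ (fun i => up (- t i)) (Finset.mem_univ i)]
    rw [coe_HQ, Hg, h3, Polynomial.coe_mul, coe_up, Polynomial.coe_mul, Polynomial.coe_mul,
      Polynomial.coe_C, Polynomial.coe_X]
    linear_combination (X * ((Pe (fun i => - t i) i : Polynomial K) : K⟦X⟧)) * h1

theorem Adm_tail (l : Option (Fin k)) (w : List (Option (Fin k))) (h : ¬ Adm w) :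
    ¬ Adm (l :: w) := by
  intro h1
  apply h
  intro h2
  apply h1
  cases w with
  | nil => simp at h2
  | cons a w => simpa [List.getLast?_cons_cons] using h2

theorem Adm_nil : Adm ([] : List (Option (Fin k))) := by simp [Adm]

/-- Words of length at most `δ`. -/
noncomputable def Wd (k δ : ℕ) : Finset (List (Option (Fin k))) :=
  (List.finite_length_le (Option (Fin k)) δ).toFinset

theorem mem_Wd (δ : ℕ) (w : List (Option (Fin k))) : w ∈ Wd k δ ↔ w.length ≤ δ := by
  simp [Wd]

theorem sum_Wd_succ {M : Type*} [AddCommMonoid M] (δ : ℕ) (f : List (Option (Fin k)) → M) :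
    ∑ w ∈ Wd k (δ + 1), f w = f [] + ∑ l, ∑ w ∈ Wd k δ, f (l :: w) := by
  classical
  have h : Wd k (δ + 1) = insert [] (((univ : Finset (Option (Fin k))) ×ˢ Wd k δ).image
      fun p => p.1 :: p.2) := by
    ext w
    cases w with
    | nil => simp [mem_Wd]
    | cons l w =>
      rw [Finset.mem_insert, Finset.mem_image, mem_Wd]
      constructor
      · intro h
        right
        refine ⟨(l, w), ?_, rfl⟩
        rw [Finset.mem_product]
        exact ⟨Finset.mem_univ _, (mem_Wd δ w).2 (by simpa using h)⟩
      · rintro (h | ⟨p, hp, h⟩)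
        · simp at h
        · rw [Finset.mem_product] at hp
          have h2 := (mem_Wd δ p.2).1 hp.2
          rw [← h]
          simpa using h2
  rw [h, Finset.sum_insert, Finset.sum_image, Finset.sum_product]
  · rintro ⟨a, b⟩ _ ⟨c, d⟩ _ hab
    simp only [List.cons.injEq] at hab
    rw [hab.1, hab.2]
  · simp

theorem sum_Wd_extend {M : Type*} [AddCommMonoid M] (δ : ℕ) (f : List (Option (Fin k)) → M)
    (hf : ∀ w, δ < w.length → f w = 0) :
    ∑ w ∈ Wd k (δ + 1), f w = ∑ w ∈ Wd k δ, f w := by
  symm
  apply Finset.sum_subset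
  · intro w hw
    rw [mem_Wd] at hw ⊢
    omega
  · intro w _ hw
    rw [mem_Wd] at hw
    exact hf w (by omega)

/-- Evaluation of a form. -/
noncomputable def evw (t : Fin k → K) (δ : ℕ) (A : List (Option (Fin k)) → Polynomial K) : K⟦X⟧ :=
  ∑ w ∈ Wd k δ, (A w : K⟦X⟧) * Iw t w

/-- Formal counterpart of `Q d/dX`. -/
noncomputable def HDel (t : Fin k → K) (A : List (Option (Fin k)) → Polynomial K) :
    List (Option (Fin k)) → Polynomial K :=
  fun w => HQ t * Polynomial.derivative (A w) + ∑ l, Hg t l * A (l :: w)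

/-- Formal counterpart of `Q ^ j (d/dX) ^ j`. -/
noncomputable def HEo (t : Fin k → K) : ℕ → (List (Option (Fin k)) → Polynomial K) →
    (List (Option (Fin k)) → Polynomial K)
  | 0, A => A
  | j + 1, A => fun w => HDel t (HEo t j A) w -
      ((j : Polynomial K) * Polynomial.derivative (HQ t)) * HEo t j A w

theorem HDel_apply (t : Fin k → K) (A : List (Option (Fin k)) → Polynomial K)
    (w : List (Option (Fin k))) :
    HDel t A w = HQ t * Polynomial.derivative (A w) + ∑ l, Hg t l * A (l :: w) := rfl

theorem HEo_succ (t : Fin k → K) (j : ℕ) (A : List (Option (Fin k)) → Polynomial K)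
    (w : List (Option (Fin k))) :
    HEo t (j + 1) A w = HDel t (HEo t j A) w -
      ((j : Polynomial K) * Polynomial.derivative (HQ t)) * HEo t j A w := rfl

/-- Support condition. -/
def Sup (δ : ℕ) (A : List (Option (Fin k)) → Polynomial K) : Prop :=
  (∀ w, δ < w.length → A w = 0) ∧ (∀ w, ¬ Adm w → A w = 0)

theorem Sup_HDel (t : Fin k → K) (δ : ℕ) (A : List (Option (Fin k)) → Polynomial K)
    (h : Sup δ A) : Sup δ (HDel t A) := by
  constructor
  · intro w hw
    unfold HDel
    rw [h.1 w hw, map_zero, mul_zero, zero_add]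
    apply Finset.sum_eq_zero
    intro l _
    rw [h.1 (l :: w) (by rw [List.length_cons]; omega), mul_zero]
  · intro w hw
    unfold HDel
    rw [h.2 w hw, map_zero, mul_zero, zero_add]
    apply Finset.sum_eq_zero
    intro l _
    rw [h.2 (l :: w) (Adm_tail l w hw), mul_zero]

theorem Sup_HEo (t : Fin k → K) (δ : ℕ) (A : List (Option (Fin k)) → Polynomial K)
    (h : Sup δ A) (j : ℕ) : Sup δ (HEo t j A) := by
  induction j with
  | zero => exact h
  | succ j ih =>
    have h1 := Sup_HDel t δ _ ih
    constructor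
    · intro w hw
      rw [HEo_succ, h1.1 w hw, ih.1 w hw]
      simp
    · intro w hw
      rw [HEo_succ, h1.2 w hw, ih.2 w hw]
      simp

theorem evw_HDel (t : Fin k → K) (δ : ℕ) (A : List (Option (Fin k)) → Polynomial K)
    (h : Sup δ A) : evw t δ (HDel t A) = ((HQ t : Polynomial K) : K⟦X⟧) * d⁄dX K (evw t δ A) := by
  unfold evw
  rw [map_sum, Finset.mul_sum]
  have h1 : ∀ w, ((HQ t : Polynomial K) : K⟦X⟧) * d⁄dX K ((A w : K⟦X⟧) * Iw t w) =
      ((HQ t * Polynomial.derivative (A w) : Polynomial K) : K⟦X⟧) * Iw t w +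
      (A w : K⟦X⟧) * (((HQ t : Polynomial K) : K⟦X⟧) * d⁄dX K (Iw t w)) := by
    intro w
    rw [Derivation.leibniz, smul_eq_mul, smul_eq_mul, derivative_coe, Polynomial.coe_mul]
    ring
  rw [Finset.sum_congr rfl fun w _ => h1 w, Finset.sum_add_distrib]
  have h2 : ∑ w ∈ Wd k δ, (A w : K⟦X⟧) * (((HQ t : Polynomial K) : K⟦X⟧) * d⁄dX K (Iw t w)) =
      ∑ w ∈ Wd k δ, ∑ l, ((Hg t l * A (l :: w) : Polynomial K) : K⟦X⟧) * Iw t w := by
    rw [← sum_Wd_extend δ _ (fun w hw => by rw [h.1 w hw, Polynomial.coe_zero, zero_mul]),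
      sum_Wd_succ, Iw_nil, Finset.sum_comm]
    have h0 : d⁄dX K (1 : K⟦X⟧) = 0 := by
      rw [← map_one (C (R := K))]
      simp
    rw [h0, mul_zero, mul_zero, zero_add]
    refine Finset.sum_congr rfl fun w _ => Finset.sum_congr rfl fun l _ => ?_
    by_cases hl : Adm (l :: w)
    · rw [HQ_mul_der t l w hl, Polynomial.coe_mul]
      ring
    · rw [h.2 _ hl]
      simp
  rw [h2, ← Finset.sum_add_distrib]
  refine Finset.sum_congr rfl fun w _ => ?_
  rw [HDel_apply, Polynomial.coe_add, add_mul]
  congr 1
  rw [← Finset.sum_mul]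
  congr 1
  rw [← Polynomial.coeToPowerSeries.ringHom_apply, map_sum]
  rfl

theorem evw_HEo (t : Fin k → K) (δ : ℕ) (A : List (Option (Fin k)) → Polynomial K)
    (h : Sup δ A) (j : ℕ) :
    evw t δ (HEo t j A) = ((HQ t : Polynomial K) : K⟦X⟧) ^ j * (d⁄dX K)^[j] (evw t δ A) := by
  induction j with
  | zero => simp [HEo]
  | succ j ih =>
    have h1 : evw t δ (HEo t (j + 1) A) = evw t δ (HDel t (HEo t j A)) -
        ((((j : Polynomial K) * Polynomial.derivative (HQ t) : Polynomial K)) : K⟦X⟧) *
          evw t δ (HEo t j A) := by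
      unfold evw
      rw [Finset.mul_sum, ← Finset.sum_sub_distrib]
      refine Finset.sum_congr rfl fun w _ => ?_
      rw [HEo_succ, Polynomial.coe_sub, Polynomial.coe_mul (_ * _)]
      ring
    rw [h1, evw_HDel t δ _ (Sup_HEo t δ A h j), ih, step_identity]

theorem HEo_top (t : Fin k → K) (δ : ℕ) (A : List (Option (Fin k)) → Polynomial K)
    (h : Sup δ A) (j : ℕ) (w : List (Option (Fin k))) (hw : w.length = δ) :
    HEo t j A w = Pj (HQ t) j (A w) := by
  induction j with
  | zero => simp [HEo, Pj]
  | succ j ih =>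
    rw [HEo_succ, HDel_apply, ih, Pj_succ]
    rw [Finset.sum_eq_zero]
    · simp
    · intro l _
      rw [(Sup_HEo t δ A h j).1 (l :: w) (by rw [List.length_cons]; omega), mul_zero]

theorem HEo_sub (t : Fin k → K) (δ : ℕ) (A : List (Option (Fin k)) → Polynomial K)
    (h : Sup (δ + 1) A) (j : ℕ) (w : List (Option (Fin k))) (hw : w.length = δ) :
    HEo t j A w = Rr t (fun l => A (l :: w)) (A w) j := by
  induction j with
  | zero => simp [HEo, Rr]
  | succ j ih =>
    rw [HEo_succ, HDel_apply, ih, Rr]
    congr 2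
    refine Finset.sum_congr rfl fun l _ => ?_
    rw [HEo_top t (δ + 1) A h j (l :: w) (by rw [List.length_cons]; omega)]

theorem natDegree_HQ_le (t : Fin k → K) : (HQ t).natDegree ≤ k + 1 := by
  unfold HQ
  refine Polynomial.natDegree_mul_le.trans ?_
  have h1 := natDegree_PP_le (fun i => - t i)
  have h2 : (Polynomial.X : Polynomial K).natDegree ≤ 1 := Polynomial.natDegree_X_le
  omega

theorem natDegree_Hg_le (t : Fin k → K) (l : Option (Fin k)) : (Hg t l).natDegree ≤ k := by
  cases l with
  | none => exact natDegree_PP_le _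
  | some i =>
    unfold Hg
    refine (Polynomial.natDegree_C_mul_le _ _).trans (Polynomial.natDegree_mul_le.trans ?_)
    have h1 := natDegree_Pe_le (fun i => - t i) i
    have h2 : (Polynomial.X : Polynomial K).natDegree ≤ 1 := Polynomial.natDegree_X_le
    have h3 : 0 < k := Fin.pos i
    omega

theorem natDegree_HEo (t : Fin k → K) (A : List (Option (Fin k)) → Polynomial K)
    (N : ℕ) (hA : ∀ w, (A w).natDegree ≤ N) (j : ℕ) :
    ∀ w, (HEo t j A w).natDegree ≤ N + j * k := by
  induction j with
  | zero => simpa [HEo] using hA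
  | succ j ih =>
    intro w
    rw [HEo_succ, HDel_apply]
    have e : N + (j + 1) * k = (N + j * k) + k := by ring
    rw [e]
    set M := N + j * k with hM
    have h1 : (HQ t * Polynomial.derivative (HEo t j A w)).natDegree ≤ M + k := by
      rcases Nat.eq_zero_or_pos (HEo t j A w).natDegree with h0 | h0
      · rw [Polynomial.derivative_of_natDegree_zero h0, mul_zero, Polynomial.natDegree_zero]
        exact Nat.zero_le _
      · refine Polynomial.natDegree_mul_le.trans ?_
        have h2 := natDegree_HQ_le t
        have h3 := Polynomial.natDegree_derivative_le (HEo t j A w)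
        have h4 := ih w
        omega
    have h2 : (∑ l, Hg t l * HEo t j A (l :: w)).natDegree ≤ M + k := by
      apply Polynomial.natDegree_sum_le_of_forall_le
      intro l _
      refine Polynomial.natDegree_mul_le.trans ?_
      have h3 := natDegree_Hg_le t l
      have h4 := ih (l :: w)
      omega
    have h3 : (((j : Polynomial K) * Polynomial.derivative (HQ t)) *
        HEo t j A w).natDegree ≤ M + k := by
      refine Polynomial.natDegree_mul_le.trans ?_
      have h4 := natDegree_natCast_mul_le j (Polynomial.derivative (HQ t))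
      have h5 := Polynomial.natDegree_derivative_le (HQ t)
      have h6 := natDegree_HQ_le t
      have h7 := ih w
      omega
    refine (Polynomial.natDegree_sub_le _ _).trans (max_le ?_ h3)
    exact (Polynomial.natDegree_add_le _ _).trans (max_le h1 h2)

/-- **Zero estimate** for linear forms in hyperlogarithms with polynomial coefficients. -/
theorem zero_words (t : Fin k → K) (ht : ∀ l, t l ≠ 0) (hinj : Function.Injective t) (δ : ℕ) :
    ∀ n : ℕ, 0 < n → ∀ A : List (Option (Fin k)) → Polynomial K, Sup δ A →
      (∀ w, (A w).natDegree < n) →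
      (∀ r < n * (k + 1) ^ δ, coeff r (evw t δ A) = 0) → ∀ w, A w = 0 := by
  induction δ with
  | zero =>
    intro n hn A hA hdeg hvan w
    cases w with
    | cons l w => exact hA.1 _ (by simp)
    | nil =>
      have hW : Wd k 0 = {[]} := by
        ext w
        rw [mem_Wd, Finset.mem_singleton]
        simp
      ext r
      rw [Polynomial.coeff_zero]
      by_cases hr : r < n
      · have h3 := hvan r (by simpa using hr)
        rw [evw, hW, Finset.sum_singleton, Iw_nil, mul_one, Polynomial.coeff_coe] at h3
        exact h3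
      · exact Polynomial.coeff_eq_zero_of_natDegree_lt (by have := hdeg []; omega)
  | succ δ ih =>
    intro n hn A hA hdeg hvan
    set G := HEo t n A with hG
    have hGS : Sup (δ + 1) G := Sup_HEo t (δ + 1) A hA n
    have hGS' : Sup δ G := by
      refine ⟨fun w hw => ?_, hGS.2⟩
      rcases Nat.lt_or_ge (δ + 1) w.length with h | h
      · exact hGS.1 w h
      · rw [hG, HEo_top t (δ + 1) A hA n w (by omega), Pj,
          Polynomial.iterate_derivative_eq_zero (hdeg w), mul_zero]
    have hGdeg : ∀ w, (G w).natDegree < n * (k + 1) := by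
      intro w
      have h1 : (G w).natDegree ≤ (n - 1) + n * k :=
        natDegree_HEo t A (n - 1) (fun w => by have := hdeg w; omega) n w
      have h2 : n * (k + 1) = n * k + n := by ring
      omega
    have hev : ∀ A' : List (Option (Fin k)) → Polynomial K, Sup δ A' →
        evw t (δ + 1) A' = evw t δ A' := by
      intro A' hA'
      exact sum_Wd_extend δ _ (fun w hw => by rw [hA'.1 w hw, Polynomial.coe_zero, zero_mul])
    have hpow : n * (k + 1) ^ (δ + 1) = n * (k + 1) * (k + 1) ^ δ := by ring
    have hGvan : ∀ r < n * (k + 1) * (k + 1) ^ δ, coeff r (evw t δ G) = 0 := by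
      have h1 : (X : K⟦X⟧) ^ (n * (k + 1) * (k + 1) ^ δ) ∣ evw t δ G := by
        rw [← hev G hGS', hG, evw_HEo t (δ + 1) A hA n, coe_HQ, mul_pow]
        have hle : n ≤ n * (k + 1) * (k + 1) ^ δ := by
          rw [← hpow]
          exact Nat.le_mul_of_pos_right n (by positivity)
        obtain ⟨M, hM⟩ := Nat.exists_eq_add_of_le hle
        rw [hM, pow_add, mul_assoc]
        apply mul_dvd_mul_left
        apply Dvd.dvd.mul_left
        rw [X_pow_dvd_iff]
        intro r hr
        rw [coeff_iterate_derivative, hvan (r + n) (by rw [hpow, hM]; omega), mul_zero]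
      exact X_pow_dvd_iff.1 h1
    have hG0 : ∀ w, G w = 0 := ih (n * (k + 1)) (by positivity) G hGS' hGdeg hGvan
    have hAS : Sup δ A := by
      refine ⟨fun w hw => ?_, hA.2⟩
      rcases Nat.lt_or_ge (δ + 1) w.length with h | h
      · exact hA.1 w h
      · cases w with
        | nil => simp at hw
        | cons l w =>
          rw [List.length_cons] at hw h
          have h1 := HEo_sub t δ A hA n w (by omega)
          rw [← hG, hG0 w] at h1
          exact key_lemma t ht hinj n hn (fun l => A (l :: w)) (A w) (fun l => hdeg _) (hdeg _)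
            h1.symm l
    refine ih (n * (k + 1)) (by positivity) A hAS
      (fun w => lt_of_lt_of_le (hdeg w) (Nat.le_mul_of_pos_right n (by positivity))) ?_
    intro r hr
    rw [← hev A hAS]
    exact hvan r (by rw [hpow]; exact hr)

end Pool.Agent.NearOne652
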