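import Mathlib
import Pool.Agent.NearOne652.Hyp2
import Pool.Agent.NearOne652.CoreC

set_option autoImplicit false
set_option linter.unusedSectionVars false

open Finset

namespace Pool.Agent.NearOne652

variable {K : Type*} [Field K] {k : ℕ}

theorem cw_int [CharZero K] (t : Fin k → K) (D : ℕ) (hD : D ≠ 0) (hti : ∀ i, IsIntegral ℤ (t i))
    (n : ℕ) : ∀ (w : List (Option (Fin k))) (j : ℕ), j ≤ n →
      IsIntegral ℤ ((D : K) ^ j * (n.factorial : K) ^ w.length * cw (fun i => t i / D) w j) := by
  have hDK : (D : K) ≠ 0 := Nat.cast_ne_zero.2 hD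
  have hdiv : ∀ j, 0 < j → j ≤ n → ∃ q : ℕ, (n.factorial : K) / j = (q : K) := by
    intro j hj hjn
    obtain ⟨q, hq⟩ := Nat.dvd_factorial hj hjn
    refine ⟨q, ?_⟩
    rw [hq]
    have : (j : K) ≠ 0 := Nat.cast_ne_zero.2 (by omega)
    push_cast
    field_simp
  intro w
  induction w with
  | nil =>
    intro j _
    rcases Nat.eq_zero_or_pos j with h | h
    · subst h
      simp only [pow_zero, List.length_nil, cw, if_true, mul_one]
      exact isIntegral_one
    · have : cw (fun i => t i / D) [] j = 0 := by
        simp only [cw]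
        rw [if_neg (by omega)]
      rw [this, mul_zero]
      exact isIntegral_zero
  | cons l w ih =>
    intro j hj
    rcases Nat.eq_zero_or_pos j with h | h
    · subst h
      rw [cw_zero _ _ (by simp), mul_zero]
      exact isIntegral_zero
    · obtain ⟨q, hq⟩ := hdiv j h hj
      cases l with
      | none =>
        have e : (D : K) ^ j * (n.factorial : K) ^ (none :: w).length *
            cw (fun i => t i / D) (none :: w) j =
            (q : K) * ((D : K) ^ j * (n.factorial : K) ^ w.length *
              cw (fun i => t i / D) w j) := by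
          rw [← hq, List.length_cons, cw, pow_succ]
          ring
        rw [e]
        exact (natCast_integral q).mul (ih j hj)
      | some i =>
        have e : (D : K) ^ j * (n.factorial : K) ^ (some i :: w).length *
            cw (fun i => t i / D) (some i :: w) j =
            (q : K) * ∑ m ∈ range j, (t i) ^ (j - m) * ((D : K) ^ m *
              (n.factorial : K) ^ w.length * cw (fun i => t i / D) w m) := by
          rw [← hq, List.length_cons, cw, pow_succ]
          have e1 : ∀ m ∈ range j, (t i) ^ (j - m) * ((D : K) ^ m *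
              (n.factorial : K) ^ w.length * cw (fun i => t i / D) w m) =
              (D : K) ^ j * (n.factorial : K) ^ w.length *
                ((t i / D) ^ (j - m) * cw (fun i => t i / D) w m) := by
            intro m hm
            have h1 : (D : K) ^ j = (D : K) ^ (j - m) * (D : K) ^ m := by
              rw [← pow_add]
              congr 1
              have := Finset.mem_range.1 hm
              omega
            rw [h1, div_pow]
            have : (D : K) ^ (j - m) ≠ 0 := pow_ne_zero _ hDK
            field_simp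
          rw [Finset.sum_congr rfl e1, ← Finset.mul_sum]
          ring
        rw [e]
        refine (natCast_integral q).mul (IsIntegral.sum _ fun m hm => ?_)
        exact ((hti i).pow _).mul (ih m (by have := Finset.mem_range.1 hm; omega))

theorem cw_bound [CharZero K] (φ : K →+* ℂ) (B : ℝ) (hB : 1 ≤ B) (T : Fin k → K)
    (hT : ∀ i, ‖φ (T i)‖ ≤ B) :
    ∀ (w : List (Option (Fin k))) (n : ℕ), ‖φ (cw T w n)‖ ≤ B ^ n := by
  have hB0 : 0 ≤ B := by linarith
  intro w
  induction w with
  | nil =>
    intro n
    simp only [cw]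
    split_ifs with h
    · rw [h]
      simp
    · rw [map_zero, norm_zero]
      positivity
  | cons l w ih =>
    intro n
    rcases Nat.eq_zero_or_pos n with h | h
    · subst h
      rw [cw_zero _ _ (by simp), map_zero, norm_zero]
      positivity
    · have hn1 : (1 : ℝ) ≤ n := by exact_mod_cast h
      have hn0 : (0 : ℝ) < n := by linarith
      cases l with
      | none =>
        rw [cw, map_div₀, map_natCast, norm_div, Complex.norm_natCast, div_le_iff₀ hn0]
        calc ‖φ (cw T w n)‖ ≤ B ^ n := ih n
          _ ≤ B ^ n * n := le_mul_of_one_le_right (by positivity) hn1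
      | some i =>
        rw [cw, map_div₀, map_natCast, norm_div, Complex.norm_natCast, div_le_iff₀ hn0, map_sum]
        calc ‖∑ m ∈ range n, φ (T i ^ (n - m) * cw T w m)‖
            ≤ ∑ m ∈ range n, ‖φ (T i ^ (n - m) * cw T w m)‖ := norm_sum_le _ _
          _ ≤ ∑ m ∈ range n, B ^ n := by
              apply Finset.sum_le_sum
              intro m hm
              rw [map_mul, map_pow, norm_mul, norm_pow]
              calc ‖φ (T i)‖ ^ (n - m) * ‖φ (cw T w m)‖ ≤ B ^ (n - m) * B ^ m :=
                    mul_le_mul (pow_le_pow_left₀ (norm_nonneg _) (hT i) _) (ih m)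
                      (norm_nonneg _) (by positivity)
                _ = B ^ n := by
                    rw [← pow_add]
                    congr 1
                    have := Finset.mem_range.1 hm
                    omega
          _ = B ^ n * n := by
              rw [Finset.sum_const, card_range, nsmul_eq_mul, mul_comm]

/-- **Core theorem for hyperlogarithms** (complex case). -/
theorem hyperC (K : Type*) [Field K] [NumberField K] (σ : K →+* ℂ)
    (k δ D H m : ℕ) (B : ℝ) (hD : D ≠ 0) (hDB : (D : ℝ) ≤ B)
    (t : Fin k → K) (ht0 : ∀ i, t i ≠ 0) (htinj : Function.Injective t)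
    (hti : ∀ i, IsIntegral ℤ (t i)) (htB : ∀ (φ : K →+* ℂ) i, ‖φ (t i)‖ ≤ B)
    (c : List (Option (Fin k)) →₀ K) (hc0 : c ≠ 0)
    (hcw : ∀ w ∈ c.support, w.length ≤ δ ∧ w.getLast? ≠ some none)
    (hci : ∀ w, IsIntegral ℤ (c w))
    (hcB : ∀ φ : K →+* ℂ, ∑ w ∈ c.support, ‖φ (c w)‖ ≤ B)
    (hm : m = (k + 1) ^ δ)
    (hH : (2 * (m.factorial : ℝ) ^ δ * B ^ (2 * m)) ^ (Module.finrank ℚ K + 1) < (H : ℝ)) :
    ∑ w ∈ c.support, σ (c w) * ∑' n : ℕ, σ (cw (fun i => t i / D) w n) / (H : ℂ) ^ n ≠ 0 := by
  classical
  intro hzero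
  have hD1 : (1 : ℝ) ≤ D := by exact_mod_cast Nat.one_le_iff_ne_zero.2 hD
  have hB : 1 ≤ B := by linarith
  have hB0 : 0 ≤ B := by linarith
  have hDK : (D : K) ≠ 0 := Nat.cast_ne_zero.2 hD
  set T : Fin k → K := fun i => t i / D with hT
  have hT0 : ∀ i, T i ≠ 0 := fun i => div_ne_zero (ht0 i) hDK
  have hTinj : Function.Injective T := by
    intro i j hij
    apply htinj
    have h1 : t i / D = t j / D := hij
    field_simp at h1
    exact h1
  have hTB : ∀ (φ : K →+* ℂ) i, ‖φ (T i)‖ ≤ B := by
    intro φ i
    rw [hT]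
    simp only
    rw [map_div₀, map_natCast, norm_div, Complex.norm_natCast]
    exact (div_le_self (norm_nonneg _) hD1).trans (htB φ i)
  set f : ℕ → K := fun n => ∑ w ∈ c.support, c w * cw T w n with hf
  -- zero estimate
  have hex : ∃ n, n < m ∧ f n ≠ 0 := by
    by_contra hcon
    push Not at hcon
    apply hc0
    set A : List (Option (Fin k)) → Polynomial K := fun w => Polynomial.C (c w) with hA
    have hS : Sup δ A := by
      constructor
      · intro w hw
        have : c w = 0 := by
          by_contra h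
          have := (hcw w (Finsupp.mem_support_iff.2 h)).1
          omega
        rw [hA]
        simp only
        rw [this, Polynomial.C_0]
      · intro w hw
        have : c w = 0 := by
          by_contra h
          exact hw (hcw w (Finsupp.mem_support_iff.2 h)).2
        rw [hA]
        simp only
        rw [this, Polynomial.C_0]
    have h1 := zero_words T hT0 hTinj δ 1 one_pos A hS
      (fun w => by rw [hA]; simp only; rw [Polynomial.natDegree_C]; exact one_pos)
      (by
        intro r hr
        rw [one_mul, ← hm] at hr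
        have h2 := hcon r hr
        rw [evw, map_sum, ← h2, hf]
        simp only
        symm
        have hsub : c.support ⊆ Wd k δ := fun w hw => (mem_Wd δ w).2 (hcw w hw).1
        rw [Finset.sum_subset hsub (fun w _ hw => by
          rw [Finsupp.notMem_support_iff.1 hw, zero_mul])]
        refine Finset.sum_congr rfl fun w _ => ?_
        rw [hA]
        simp only
        rw [Polynomial.coe_C, PowerSeries.coeff_C_mul, Iw, PowerSeries.coeff_mk])
    ext w
    have := h1 w
    rw [hA] at this
    simpa using this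
  set n0 := Nat.find hex with hn0
  have hn0m : n0 < m := (Nat.find_spec hex).1
  have hfn0 : f n0 ≠ 0 := (Nat.find_spec hex).2
  have hlow : ∀ n < n0, f n = 0 := by
    intro n hn
    by_contra h
    exact Nat.find_min hex hn ⟨by omega, h⟩
  have hfB : ∀ (φ : K →+* ℂ) n, ‖φ (f n)‖ ≤ B * B ^ n := by
    intro φ n
    rw [hf]
    simp only
    rw [map_sum]
    calc ‖∑ w ∈ c.support, φ (c w * cw T w n)‖ ≤ ∑ w ∈ c.support, ‖φ (c w * cw T w n)‖ :=
          norm_sum_le _ _
      _ ≤ ∑ w ∈ c.support, ‖φ (c w)‖ * B ^ n := by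
          apply Finset.sum_le_sum
          intro w _
          rw [map_mul, norm_mul]
          exact mul_le_mul_of_nonneg_left (cw_bound φ B hB T (hTB φ) w n) (norm_nonneg _)
      _ = (∑ w ∈ c.support, ‖φ (c w)‖) * B ^ n := by rw [Finset.sum_mul]
      _ ≤ B * B ^ n := mul_le_mul_of_nonneg_right (hcB φ) (by positivity)
  -- size of `H`
  set Y : ℝ := 2 * (m.factorial : ℝ) ^ δ * B ^ (2 * m) with hY
  have hfac : (1 : ℝ) ≤ m.factorial := by exact_mod_cast Nat.succ_le_of_lt m.factorial_pos
  have hfacp : (1 : ℝ) ≤ (m.factorial : ℝ) ^ δ := one_le_pow₀ hfac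
  have hYB : 2 * B ≤ Y := by
    rw [hY]
    have h1 : B ≤ B ^ (2 * m) := le_self_pow₀ hB (by omega)
    have h2 : 2 * B ≤ 2 * (m.factorial : ℝ) ^ δ * B := by
      have : B ≤ (m.factorial : ℝ) ^ δ * B := le_mul_of_one_le_left hB0 hfacp
      linarith
    exact h2.trans (mul_le_mul_of_nonneg_left h1 (by positivity))
  have hY1 : 1 ≤ Y := by linarith
  have hYH : Y < H := lt_of_le_of_lt (le_self_pow₀ hY1 (by omega)) hH
  have hH0 : (0 : ℝ) < H := by linarith
  have hBH : B / H ≤ 1 / 2 := by
    rw [div_le_div_iff₀ hH0 (by norm_num)]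
    linarith
  have hBH0 : 0 ≤ B / H := by positivity
  -- the series
  set g : ℕ → ℂ := fun n => σ (f n) / (H : ℂ) ^ n with hg
  have hgB : ∀ n, ‖g n‖ ≤ B * (B / H) ^ n := by
    intro n
    rw [hg]
    simp only
    rw [norm_div, norm_pow, Complex.norm_natCast, div_pow, ← mul_div_assoc]
    exact div_le_div_of_nonneg_right (hfB σ n) (by positivity)
  have hgeo : Summable fun n : ℕ => (B / H) ^ n :=
    summable_geometric_of_lt_one hBH0 (by linarith)
  have hgs : Summable g := Summable.of_norm_bounded (hgeo.mul_left B) hgB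
  have hws : ∀ w, Summable fun n : ℕ => σ (cw T w n) / (H : ℂ) ^ n := by
    intro w
    refine Summable.of_norm_bounded hgeo fun n => ?_
    rw [norm_div, norm_pow, Complex.norm_natCast, div_pow]
    exact div_le_div_of_nonneg_right (cw_bound σ B hB T (hTB σ) w n) (by positivity)
  have hsum : ∑' n, g n = 0 := by
    rw [← hzero]
    have h1 : ∀ w ∈ c.support, σ (c w) * ∑' n : ℕ, σ (cw T w n) / (H : ℂ) ^ n =
        ∑' n : ℕ, σ (c w) * (σ (cw T w n) / (H : ℂ) ^ n) := fun w _ => tsum_mul_left.symm
    rw [Finset.sum_congr rfl h1, ← Summable.tsum_finsetSum fun w _ => (hws w).mul_left _]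
    refine tsum_congr fun n => ?_
    rw [hg, hf]
    simp only
    rw [map_sum, Finset.sum_div]
    refine Finset.sum_congr rfl fun w _ => ?_
    rw [map_mul, mul_div_assoc]
  have hsplit := hgs.sum_add_tsum_nat_add (n0 + 1)
  have hfin : ∑ i ∈ range (n0 + 1), g i = g n0 := by
    rw [Finset.sum_range_succ, Finset.sum_eq_zero, zero_add]
    intro i hi
    rw [hg]
    simp only
    rw [hlow i (Finset.mem_range.1 hi), map_zero, zero_div]
  have htail : ‖∑' i, g (i + (n0 + 1))‖ ≤ 2 * B * (B / H) ^ (n0 + 1) := by
    have h1 : HasSum (fun i : ℕ => B * (B / H) ^ (n0 + 1) * (B / H) ^ i)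
        (B * (B / H) ^ (n0 + 1) * (1 - B / H)⁻¹) :=
      (hasSum_geometric_of_lt_one hBH0 (by linarith)).mul_left _
    have h2 := tsum_of_norm_bounded h1 (fun i => by
      refine (hgB (i + (n0 + 1))).trans (le_of_eq ?_)
      rw [pow_add]
      ring)
    refine h2.trans ?_
    have h3 : (1 - B / H)⁻¹ ≤ 2 := by
      rw [inv_le_comm₀ (by linarith) (by norm_num)]
      linarith
    calc B * (B / H) ^ (n0 + 1) * (1 - B / H)⁻¹ ≤ B * (B / H) ^ (n0 + 1) * 2 :=
          mul_le_mul_of_nonneg_left h3 (by positivity)
      _ = _ := by ring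
  have hgn0 : ‖g n0‖ ≤ 2 * B * (B / H) ^ (n0 + 1) := by
    have h1 : g n0 = - ∑' i, g (i + (n0 + 1)) := by
      rw [hfin, hsum] at hsplit
      exact eq_neg_of_add_eq_zero_left hsplit
    rw [h1, norm_neg]
    exact htail
  have hσf : ‖σ (f n0)‖ ≤ 2 * B * B ^ (n0 + 1) / H := by
    rw [hg] at hgn0
    simp only at hgn0
    rw [norm_div, norm_pow, Complex.norm_natCast, div_pow, div_le_iff₀ (by positivity)] at hgn0
    refine hgn0.trans (le_of_eq ?_)
    have : (H : ℝ) ≠ 0 := hH0.ne'
    field_simp
    ring
  -- Liouville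
  set γ : K := (D : K) ^ n0 * (n0.factorial : K) ^ δ * f n0 with hγ
  have hγ0 : γ ≠ 0 := by
    rw [hγ]
    refine mul_ne_zero (mul_ne_zero (pow_ne_zero _ hDK) (pow_ne_zero _ ?_)) hfn0
    exact Nat.cast_ne_zero.2 n0.factorial_ne_zero
  have hγi : IsIntegral ℤ γ := by
    rw [hγ, hf]
    simp only
    rw [Finset.mul_sum]
    refine IsIntegral.sum _ fun w hw => ?_
    have hl := (hcw w hw).1
    have e : (D : K) ^ n0 * (n0.factorial : K) ^ δ * (c w * cw T w n0) =
        c w * ((n0.factorial : K) ^ (δ - w.length) * ((D : K) ^ n0 *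
          (n0.factorial : K) ^ w.length * cw T w n0)) := by
      have : (n0.factorial : K) ^ δ = (n0.factorial : K) ^ (δ - w.length) *
          (n0.factorial : K) ^ w.length := by
        rw [← pow_add]
        congr 1
        omega
      rw [this]
      ring
    rw [e]
    exact (hci w).mul (((natCast_integral _).pow _).mul (cw_int t D hD hti n0 w n0 le_rfl))
  have hfac2 : (n0.factorial : ℝ) ≤ m.factorial := by
    exact_mod_cast Nat.factorial_le hn0m.le
  have hγB : ∀ φ : K →+* ℂ, ‖φ γ‖ ≤ Y := by
    intro φ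
    rw [hγ, map_mul, map_mul, map_pow, map_pow, map_natCast, map_natCast, norm_mul, norm_mul,
      norm_pow, norm_pow, Complex.norm_natCast, Complex.norm_natCast]
    calc (D : ℝ) ^ n0 * (n0.factorial : ℝ) ^ δ * ‖φ (f n0)‖
        ≤ B ^ n0 * (m.factorial : ℝ) ^ δ * (B * B ^ n0) := by
          apply mul_le_mul _ (hfB φ n0) (norm_nonneg _) (by positivity)
          exact mul_le_mul (pow_le_pow_left₀ (by positivity) hDB _)
            (pow_le_pow_left₀ (by positivity) hfac2 _) (by positivity) (by positivity)
      _ = (m.factorial : ℝ) ^ δ * B ^ (2 * n0 + 1) := by ring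
      _ ≤ (m.factorial : ℝ) ^ δ * B ^ (2 * m) :=
          mul_le_mul_of_nonneg_left (pow_le_pow_right₀ hB (by omega)) (by positivity)
      _ ≤ Y := by
          rw [hY]
          have : 0 ≤ (m.factorial : ℝ) ^ δ * B ^ (2 * m) := by positivity
          linarith
  have hL := liouvilleC K σ γ hγi hγ0 Y hY1 hγB
  have hσγ : ‖σ γ‖ ≤ Y / H := by
    rw [hγ, map_mul, map_mul, map_pow, map_pow, map_natCast, map_natCast, norm_mul, norm_mul,
      norm_pow, norm_pow, Complex.norm_natCast, Complex.norm_natCast]
    calc (D : ℝ) ^ n0 * (n0.factorial : ℝ) ^ δ * ‖σ (f n0)‖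
        ≤ B ^ n0 * (m.factorial : ℝ) ^ δ * (2 * B * B ^ (n0 + 1) / H) := by
          apply mul_le_mul _ hσf (norm_nonneg _) (by positivity)
          exact mul_le_mul (pow_le_pow_left₀ (by positivity) hDB _)
            (pow_le_pow_left₀ (by positivity) hfac2 _) (by positivity) (by positivity)
      _ = 2 * (m.factorial : ℝ) ^ δ * B ^ (2 * n0 + 2) / H := by ring
      _ ≤ 2 * (m.factorial : ℝ) ^ δ * B ^ (2 * m) / H := by
          apply div_le_div_of_nonneg_right _ hH0.le
          exact mul_le_mul_of_nonneg_left (pow_le_pow_right₀ hB (by omega)) (by positivity)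
      _ = Y / H := by rw [hY]
  have hfin2 : (H : ℝ) ≤ Y ^ (Module.finrank ℚ K + 1) := by
    have h1 : 1 ≤ Y ^ (Module.finrank ℚ K) * (Y / H) :=
      hL.trans (mul_le_mul_of_nonneg_left hσγ (by positivity))
    rw [← mul_div_assoc, ← pow_succ, one_le_div hH0] at h1
    exact h1
  linarith

end Pool.Agent.NearOne652
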