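import Mathlib
import Pool.Agent.NearOne652.Hyp3
import Pool.Agent.NearOne652.PadicG

set_option autoImplicit false
set_option linter.unusedSectionVars false

open Finset

namespace Pool.Agent.NearOne652

theorem norm_sum_le_ultra {E ι : Type*} [NormedField E] [IsUltrametricDist E] (s : Finset ι)
    (f : ι → E) (C : ℝ) (hC : 0 ≤ C) (h : ∀ i ∈ s, ‖f i‖ ≤ C) : ‖∑ i ∈ s, f i‖ ≤ C :=
  IsUltrametricDist.norm_sum_le_of_forall_le_of_nonneg hC h

theorem cw_boundP (p : ℕ) [Fact p.Prime] {E : Type*} [NormedField E] [NormedAlgebra ℚ_[p] E]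
    [IsUltrametricDist E] {K : Type*} [Field K] [CharZero K] {k : ℕ} (σ : K →+* E) (T : Fin k → K)
    (hT : ∀ i, ‖σ (T i)‖ ≤ 1) :
    ∀ (w : List (Option (Fin k))) (n : ℕ), ‖σ (cw T w n)‖ ≤ ((n : ℝ) + 1) ^ w.length := by
  intro w
  induction w with
  | nil =>
    intro n
    simp only [cw]
    split_ifs with h
    · simp
    · simp
  | cons l w ih =>
    intro n
    rcases Nat.eq_zero_or_pos n with h | h
    · subst h
      rw [cw_zero _ _ (by simp), map_zero, norm_zero]
      positivity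
    · have hn0 : (0 : ℝ) < n := by exact_mod_cast h
      have hnE := G.norm_natCast_ge p (E := E) n (by omega)
      have hnE0 : 0 < ‖(n : E)‖ := lt_of_lt_of_le (by positivity) hnE
      have hinv : ‖(n : E)‖⁻¹ ≤ n := by
        rw [inv_le_comm₀ hnE0 hn0, inv_eq_one_div]
        exact hnE
      have key : ∀ y : E, ‖y‖ ≤ ((n : ℝ) + 1) ^ w.length →
          ‖y / n‖ ≤ ((n : ℝ) + 1) ^ (l :: w).length := by
        intro y hy
        rw [norm_div, div_eq_mul_inv, List.length_cons, pow_succ]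
        exact mul_le_mul hy (by linarith) (by positivity) (by positivity)
      cases l with
      | none =>
        rw [cw, map_div₀, map_natCast]
        exact key _ (ih n)
      | some i =>
        rw [cw, map_div₀, map_natCast, map_sum]
        apply key
        apply norm_sum_le_ultra _ _ _ (by positivity)
        intro m hm
        have hmn : (m : ℝ) ≤ n := by exact_mod_cast (Finset.mem_range.1 hm).le
        rw [map_mul, map_pow, norm_mul, norm_pow]
        calc ‖σ (T i)‖ ^ (n - m) * ‖σ (cw T w m)‖ ≤ 1 * ((m : ℝ) + 1) ^ w.length :=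
              mul_le_mul (pow_le_one₀ (norm_nonneg _) (hT i)) (ih m) (norm_nonneg _) zero_le_one
          _ = ((m : ℝ) + 1) ^ w.length := one_mul _
          _ ≤ ((n : ℝ) + 1) ^ w.length := pow_le_pow_left₀ (by positivity) (by linarith) _

/-- **Core theorem for hyperlogarithms** (p-adic case). -/
theorem hyperP (p : ℕ) [Fact p.Prime] {E : Type*} [NormedField E] [NormedAlgebra ℚ_[p] E]
    [IsUltrametricDist E] [CompleteSpace E] (K : Type*) [Field K] [NumberField K] (σ : K →+* E)
    (k δ D N m : ℕ) (B : ℝ) (hD : ¬ p ∣ D) (hDB : (D : ℝ) ≤ B)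
    (t : Fin k → K) (ht0 : ∀ i, t i ≠ 0) (htinj : Function.Injective t)
    (hti : ∀ i, IsIntegral ℤ (t i)) (htB : ∀ (φ : K →+* ℂ) i, ‖φ (t i)‖ ≤ B)
    (c : List (Option (Fin k)) →₀ K) (hc0 : c ≠ 0)
    (hcw : ∀ w ∈ c.support, w.length ≤ δ ∧ w.getLast? ≠ some none)
    (hci : ∀ w, IsIntegral ℤ (c w))
    (hcB : ∀ φ : K →+* ℂ, ∑ w ∈ c.support, ‖φ (c w)‖ ≤ B)
    (hm : m = (k + 1) ^ δ)
    (hN : (((m + 1).factorial : ℝ) ^ δ * B ^ (2 * m)) ^ (Module.finrank ℚ K) < (p : ℝ) ^ N) :
    ∑ w ∈ c.support, σ (c w) *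
      ∑' n : ℕ, σ (cw (fun i => t i / D) w n) * ((p : E) ^ N) ^ n ≠ 0 := by
  classical
  intro hzero
  have hD0 : D ≠ 0 := by
    rintro rfl
    exact hD (dvd_zero p)
  have hD1 : (1 : ℝ) ≤ D := by exact_mod_cast Nat.one_le_iff_ne_zero.2 hD0
  have hB : 1 ≤ B := by linarith
  have hB0 : 0 ≤ B := by linarith
  have hDK : (D : K) ≠ 0 := Nat.cast_ne_zero.2 hD0
  set T : Fin k → K := fun i => t i / D with hT
  have hT0 : ∀ i, T i ≠ 0 := fun i => div_ne_zero (ht0 i) hDK
  have hTinj : Function.Injective T := by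
    intro i j hij
    apply htinj
    have h1 : t i / D = t j / D := hij
    field_simp at h1
    exact h1
  have hTB : ∀ (φ : K →+* ℂ) i, ‖φ (T i)‖ ≤ B := by
    intro φ i
    rw [hT]
    simp only
    rw [map_div₀, map_natCast, norm_div, Complex.norm_natCast]
    exact (div_le_self (norm_nonneg _) hD1).trans (htB φ i)
  have hσint : ∀ x : K, IsIntegral ℤ x → ‖σ x‖ ≤ 1 := by
    intro x hx
    exact G.norm_le_one_of_isIntegral p _ (hx.map σ.toIntAlgHom)
  have hDnorm : ‖(D : E)‖ = 1 := by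
    have h1 : ‖(D : E)‖ = ‖(D : ℚ_[p])‖ := by
      rw [← norm_algebraMap' E (D : ℚ_[p]), map_natCast]
    rw [h1, Padic.norm_natCast_eq_one_iff]
    exact (Nat.Prime.coprime_iff_not_dvd Fact.out).2 hD
  have hTσ : ∀ i, ‖σ (T i)‖ ≤ 1 := by
    intro i
    rw [hT]
    simp only
    rw [map_div₀, map_natCast, norm_div, hDnorm, div_one]
    exact hσint _ (hti i)
  set f : ℕ → K := fun n => ∑ w ∈ c.support, c w * cw T w n with hf
  -- zero estimate
  have hex : ∃ n, n < m ∧ f n ≠ 0 := by
    by_contra hcon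
    push Not at hcon
    apply hc0
    set A : List (Option (Fin k)) → Polynomial K := fun w => Polynomial.C (c w) with hA
    have hS : Sup δ A := by
      constructor
      · intro w hw
        have : c w = 0 := by
          by_contra h
          have := (hcw w (Finsupp.mem_support_iff.2 h)).1
          omega
        rw [hA]
        simp only
        rw [this, Polynomial.C_0]
      · intro w hw
        have : c w = 0 := by
          by_contra h
          exact hw (hcw w (Finsupp.mem_support_iff.2 h)).2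
        rw [hA]
        simp only
        rw [this, Polynomial.C_0]
    have h1 := zero_words T hT0 hTinj δ 1 one_pos A hS
      (fun w => by rw [hA]; simp only; rw [Polynomial.natDegree_C]; exact one_pos)
      (by
        intro r hr
        rw [one_mul, ← hm] at hr
        have h2 := hcon r hr
        rw [evw, map_sum, ← h2, hf]
        simp only
        symm
        have hsub : c.support ⊆ Wd k δ := fun w hw => (mem_Wd δ w).2 (hcw w hw).1
        rw [Finset.sum_subset hsub (fun w _ hw => by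
          rw [Finsupp.notMem_support_iff.1 hw, zero_mul])]
        refine Finset.sum_congr rfl fun w _ => ?_
        rw [hA]
        simp only
        rw [Polynomial.coe_C, PowerSeries.coeff_C_mul, Iw, PowerSeries.coeff_mk])
    ext w
    have := h1 w
    rw [hA] at this
    simpa using this
  set n0 := Nat.find hex with hn0
  have hn0m : n0 < m := (Nat.find_spec hex).1
  have hfn0 : f n0 ≠ 0 := (Nat.find_spec hex).2
  have hlow : ∀ n < n0, f n = 0 := by
    intro n hn
    by_contra h
    exact Nat.find_min hex hn ⟨by omega, h⟩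
  have hfB : ∀ (φ : K →+* ℂ) n, ‖φ (f n)‖ ≤ B * B ^ n := by
    intro φ n
    rw [hf]
    simp only
    rw [map_sum]
    calc ‖∑ w ∈ c.support, φ (c w * cw T w n)‖ ≤ ∑ w ∈ c.support, ‖φ (c w * cw T w n)‖ :=
          norm_sum_le _ _
      _ ≤ ∑ w ∈ c.support, ‖φ (c w)‖ * B ^ n := by
          apply Finset.sum_le_sum
          intro w _
          rw [map_mul, norm_mul]
          exact mul_le_mul_of_nonneg_left (cw_bound φ B hB T (hTB φ) w n) (norm_nonneg _)
      _ = (∑ w ∈ c.support, ‖φ (c w)‖) * B ^ n := by rw [Finset.sum_mul]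
      _ ≤ B * B ^ n := mul_le_mul_of_nonneg_right (hcB φ) (by positivity)
  have hwP : ∀ w ∈ c.support, ∀ n, ‖σ (cw T w n)‖ ≤ ((n : ℝ) + 1) ^ δ := by
    intro w hw n
    refine (cw_boundP p σ T hTσ w n).trans ?_
    exact pow_le_pow_right₀ (by have : (0 : ℝ) ≤ n := by positivity
                                linarith) (hcw w hw).1
  have hfP : ∀ n, ‖σ (f n)‖ ≤ ((n : ℝ) + 1) ^ δ := by
    intro n
    rw [hf]
    simp only
    rw [map_sum]
    apply norm_sum_le_ultra _ _ _ (by positivity)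
    intro w hw
    rw [map_mul, norm_mul]
    calc ‖σ (c w)‖ * ‖σ (cw T w n)‖ ≤ 1 * ((n : ℝ) + 1) ^ δ :=
          mul_le_mul (hσint _ (hci w)) (hwP w hw n) (norm_nonneg _) zero_le_one
      _ = _ := one_mul _
  -- size of `p ^ N`
  set q : ℝ := (p : ℝ) ^ N with hq
  set z : E := (p : E) ^ N with hz
  have hzq : ‖z‖ = 1 / q := G.norm_p_pow p N
  set Y : ℝ := (m.factorial : ℝ) ^ δ * B ^ (2 * m) with hY
  set Y' : ℝ := ((m + 1).factorial : ℝ) ^ δ * B ^ (2 * m) with hY'
  have hm1 : 1 ≤ m := by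
    rw [hm]
    exact Nat.one_le_pow _ _ (by omega)
  have hfac : (1 : ℝ) ≤ m.factorial := by exact_mod_cast Nat.succ_le_of_lt m.factorial_pos
  have hBm : (1 : ℝ) ≤ B ^ (2 * m) := one_le_pow₀ hB
  have hY1 : 1 ≤ Y := by
    rw [hY]
    exact one_le_mul_of_one_le_of_one_le (one_le_pow₀ hfac) hBm
  have hYY' : Y' = ((m : ℝ) + 1) ^ δ * Y := by
    rw [hY', hY, Nat.factorial_succ]
    push_cast
    rw [mul_pow]
    ring
  have hm1p : (1 : ℝ) ≤ ((m : ℝ) + 1) ^ δ := by
    apply one_le_pow₀
    have : (0 : ℝ) ≤ m := by positivity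
    linarith
  have hd : 1 ≤ Module.finrank ℚ K := Nat.one_le_iff_ne_zero.2 Module.finrank_pos.ne'
  have hbig : ((m : ℝ) + 1) ^ δ * Y ^ (Module.finrank ℚ K) < q := by
    refine lt_of_le_of_lt ?_ hN
    have hmp := mul_pow (((m : ℝ) + 1) ^ δ) Y (Module.finrank ℚ K)
    have hYd0 : 0 ≤ Y ^ (Module.finrank ℚ K) := by positivity
    rw [hYY', hmp]
    exact mul_le_mul_of_nonneg_right (le_self_pow₀ hm1p (by omega)) hYd0
  have hYd : 1 ≤ Y ^ (Module.finrank ℚ K) := one_le_pow₀ hY1
  have hmq : ((m : ℝ) + 1) ^ δ < q :=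
    lt_of_le_of_lt (le_mul_of_one_le_right (by positivity) hYd) hbig
  have h2q : (2 : ℝ) ^ δ ≤ q := by
    refine le_trans (pow_le_pow_left₀ (by norm_num) ?_ _) hmq.le
    have : (1 : ℝ) ≤ m := by exact_mod_cast hm1
    linarith
  have hq1 : 1 < q := lt_of_le_of_lt hm1p hmq
  have hq0 : 0 < q := by linarith
  have hqi : (1 / q) < 1 := by
    rw [div_lt_one hq0]
    exact hq1
  have hqi0 : 0 ≤ 1 / q := by positivity
  -- the series
  have hgeo : Summable fun n : ℕ => ((n : ℝ) + 1) ^ δ * (1 / q) ^ n := by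
    have h1 : Summable fun n : ℕ => ((n : ℝ)) ^ δ * (1 / q) ^ n :=
      summable_pow_mul_geometric_of_norm_lt_one δ (by
        rw [Real.norm_of_nonneg hqi0]
        exact hqi)
    have h2 := (summable_nat_add_iff 1).2 h1
    have h3 := h2.mul_left q
    refine h3.congr fun n => ?_
    push_cast
    rw [pow_succ]
    field_simp
  set g : ℕ → E := fun n => σ (f n) * z ^ n with hg
  have hgB : ∀ n, ‖g n‖ ≤ ((n : ℝ) + 1) ^ δ * (1 / q) ^ n := by
    intro n
    rw [hg]
    simp only
    rw [norm_mul, norm_pow, hzq]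
    exact mul_le_mul_of_nonneg_right (hfP n) (by positivity)
  have hgs : Summable g := Summable.of_norm_bounded hgeo hgB
  have hws : ∀ w ∈ c.support, Summable fun n : ℕ => σ (cw T w n) * z ^ n := by
    intro w hw
    refine Summable.of_norm_bounded hgeo fun n => ?_
    rw [norm_mul, norm_pow, hzq]
    exact mul_le_mul_of_nonneg_right (hwP w hw n) (by positivity)
  have hsum : ∑' n, g n = 0 := by
    rw [← hzero]
    have h1 : ∀ w ∈ c.support, σ (c w) * ∑' n : ℕ, σ (cw T w n) * z ^ n =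
        ∑' n : ℕ, σ (c w) * (σ (cw T w n) * z ^ n) := fun w _ => tsum_mul_left.symm
    rw [Finset.sum_congr rfl h1, ← Summable.tsum_finsetSum fun w hw => (hws w hw).mul_left _]
    refine tsum_congr fun n => ?_
    rw [hg, hf]
    simp only
    rw [map_sum, Finset.sum_mul]
    refine Finset.sum_congr rfl fun w _ => ?_
    rw [map_mul, mul_assoc]
  set ε : ℝ := ((m : ℝ) + 1) ^ δ * (1 / q) ^ (n0 + 1) with hε
  have hεpos : 0 ≤ ε := by positivity
  -- the terms after `n0` are small
  have hstep : ∀ j : ℕ, (((n0 + 1 + j : ℕ) : ℝ) + 1) ^ δ * (1 / q) ^ (n0 + 1 + j) ≤ ε := by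
    intro j
    induction j with
    | zero =>
      rw [hε]
      apply mul_le_mul_of_nonneg_right _ (by positivity)
      apply pow_le_pow_left₀ (by positivity)
      have : ((n0 + 1 + 0 : ℕ) : ℝ) ≤ m := by exact_mod_cast hn0m
      linarith
    | succ j ih =>
      refine le_trans ?_ ih
      set a : ℝ := ((n0 + 1 + j : ℕ) : ℝ) + 1 with ha
      have ha1 : 1 ≤ a := by
        rw [ha]
        have : (0 : ℝ) ≤ ((n0 + 1 + j : ℕ) : ℝ) := by positivity
        linarith
      have e1 : (((n0 + 1 + (j + 1) : ℕ) : ℝ) + 1) = a + 1 := by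
        rw [ha]
        push_cast
        ring
      rw [e1]
      have h1 : (a + 1) ^ δ ≤ q * a ^ δ := by
        calc (a + 1) ^ δ ≤ (2 * a) ^ δ := pow_le_pow_left₀ (by linarith) (by linarith) _
          _ = 2 ^ δ * a ^ δ := mul_pow _ _ _
          _ ≤ q * a ^ δ := mul_le_mul_of_nonneg_right h2q (by positivity)
      calc (a + 1) ^ δ * (1 / q) ^ (n0 + 1 + (j + 1))
          ≤ (q * a ^ δ) * (1 / q) ^ (n0 + 1 + (j + 1)) :=
            mul_le_mul_of_nonneg_right h1 (by positivity)
        _ = a ^ δ * (1 / q) ^ (n0 + 1 + j) := by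
            rw [← add_assoc, pow_succ (1 / q) (n0 + 1 + j)]
            field_simp
  have htail : ∀ n, n0 < n → ‖g n‖ ≤ ε := by
    intro n hn
    obtain ⟨j, rfl⟩ := Nat.exists_eq_add_of_le (show n0 + 1 ≤ n from hn)
    exact (hgB _).trans (hstep j)
  have hgn0 : ‖g n0‖ ≤ ε := by
    have h1 : Filter.Tendsto (fun n => ∑ i ∈ range n, g i) Filter.atTop (nhds 0) := by
      rw [← hsum]
      exact hgs.hasSum.tendsto_sum_nat
    have h2 : Filter.Tendsto (fun n => ‖g n0 - ∑ i ∈ range n, g i‖) Filter.atTop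
        (nhds ‖g n0 - 0‖) := (tendsto_const_nhds.sub h1).norm
    rw [sub_zero] at h2
    refine le_of_tendsto h2 (Filter.eventually_atTop.2 ⟨n0 + 1, fun n hn => ?_⟩)
    have h3 : ∑ i ∈ range n, g i = g n0 + ∑ i ∈ (range n).erase n0, g i :=
      (Finset.add_sum_erase _ _ (Finset.mem_range.2 (by omega))).symm
    rw [h3, sub_add_cancel_left, norm_neg]
    apply norm_sum_le_ultra _ _ _ hεpos
    intro i hi
    rcases lt_trichotomy i n0 with h | h | h
    · rw [hg]
      simp only
      rw [hlow i h, map_zero, zero_mul, norm_zero]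
      exact hεpos
    · exact absurd h (Finset.mem_erase.1 hi).1
    · exact htail i h
  have hσf : ‖σ (f n0)‖ ≤ ((m : ℝ) + 1) ^ δ / q := by
    rw [hg] at hgn0
    simp only at hgn0
    rw [norm_mul, norm_pow, hzq, hε, pow_succ (1 / q) n0, ← mul_assoc,
      mul_right_comm] at hgn0
    have h1 : 0 < (1 / q) ^ n0 := by positivity
    have h2 := le_of_mul_le_mul_right hgn0 h1
    rwa [mul_one_div] at h2
  -- Liouville
  set γ : K := (D : K) ^ n0 * (n0.factorial : K) ^ δ * f n0 with hγ
  have hγ0 : γ ≠ 0 := by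
    rw [hγ]
    refine mul_ne_zero (mul_ne_zero (pow_ne_zero _ hDK) (pow_ne_zero _ ?_)) hfn0
    exact Nat.cast_ne_zero.2 n0.factorial_ne_zero
  have hγi : IsIntegral ℤ γ := by
    rw [hγ, hf]
    simp only
    rw [Finset.mul_sum]
    refine IsIntegral.sum _ fun w hw => ?_
    have hl := (hcw w hw).1
    have e : (D : K) ^ n0 * (n0.factorial : K) ^ δ * (c w * cw T w n0) =
        c w * ((n0.factorial : K) ^ (δ - w.length) * ((D : K) ^ n0 *
          (n0.factorial : K) ^ w.length * cw T w n0)) := by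
      have : (n0.factorial : K) ^ δ = (n0.factorial : K) ^ (δ - w.length) *
          (n0.factorial : K) ^ w.length := by
        rw [← pow_add]
        congr 1
        omega
      rw [this]
      ring
    rw [e]
    exact (hci w).mul (((natCast_integral _).pow _).mul (cw_int t D hD0 hti n0 w n0 le_rfl))
  have hfac2 : (n0.factorial : ℝ) ≤ m.factorial := by
    exact_mod_cast Nat.factorial_le hn0m.le
  have hγB : ∀ φ : K →+* ℂ, ‖φ γ‖ ≤ Y := by
    intro φ
    rw [hγ, map_mul, map_mul, map_pow, map_pow, map_natCast, map_natCast, norm_mul, norm_mul,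
      norm_pow, norm_pow, Complex.norm_natCast, Complex.norm_natCast]
    calc (D : ℝ) ^ n0 * (n0.factorial : ℝ) ^ δ * ‖φ (f n0)‖
        ≤ B ^ n0 * (m.factorial : ℝ) ^ δ * (B * B ^ n0) := by
          apply mul_le_mul _ (hfB φ n0) (norm_nonneg _) (by positivity)
          exact mul_le_mul (pow_le_pow_left₀ (by positivity) hDB _)
            (pow_le_pow_left₀ (by positivity) hfac2 _) (by positivity) (by positivity)
      _ = (m.factorial : ℝ) ^ δ * B ^ (2 * n0 + 1) := by ring
      _ ≤ (m.factorial : ℝ) ^ δ * B ^ (2 * m) :=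
          mul_le_mul_of_nonneg_left (pow_le_pow_right₀ hB (by omega)) (by positivity)
  have hL := G.liouville p K σ γ hγi hγ0 Y hγB
  have hσγ : ‖σ γ‖ ≤ ((m : ℝ) + 1) ^ δ / q := by
    rw [hγ, map_mul, norm_mul]
    have h1 : ‖σ ((D : K) ^ n0 * (n0.factorial : K) ^ δ)‖ ≤ 1 :=
      hσint _ (((natCast_integral _).pow _).mul ((natCast_integral _).pow _))
    calc ‖σ ((D : K) ^ n0 * (n0.factorial : K) ^ δ)‖ * ‖σ (f n0)‖ ≤ 1 * ‖σ (f n0)‖ :=
          mul_le_mul_of_nonneg_right h1 (norm_nonneg _)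
      _ = ‖σ (f n0)‖ := one_mul _
      _ ≤ _ := hσf
  have hfin : q ≤ ((m : ℝ) + 1) ^ δ * Y ^ (Module.finrank ℚ K) := by
    have h1 : 1 ≤ Y ^ (Module.finrank ℚ K) * (((m : ℝ) + 1) ^ δ / q) :=
      hL.trans (mul_le_mul_of_nonneg_left hσγ (by positivity))
    rw [← mul_div_assoc, one_le_div hq0, mul_comm] at h1
    exact h1
  linarith

end Pool.Agent.NearOne652
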