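import Mathlib
import Pool.Agent.NearOne652.DetForm
import Pool.Agent.NearOne652.CoreC

set_option autoImplicit false
set_option linter.unusedSectionVars false

open Finset

namespace Pool.Agent.NearOne652

/-- Length of an integer polynomial in several variables. -/
noncomputable def mlen {k : ℕ} (F : MvPolynomial (Fin k) ℤ) : ℝ :=
  ∑ a ∈ F.support, |((MvPolynomial.coeff a F : ℤ) : ℝ)|

variable {k : ℕ}

theorem mlen_eq (F : MvPolynomial (Fin k) ℤ) (s : Finset (Fin k →₀ ℕ)) (h : F.support ⊆ s) :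
    mlen F = ∑ a ∈ s, |((MvPolynomial.coeff a F : ℤ) : ℝ)| := by
  unfold mlen
  apply Finset.sum_subset h
  intro a _ ha
  rw [MvPolynomial.notMem_support_iff.1 ha]
  simp

theorem mlen_nonneg (F : MvPolynomial (Fin k) ℤ) : 0 ≤ mlen F :=
  Finset.sum_nonneg fun _ _ => abs_nonneg _

theorem mlen_zero : mlen (0 : MvPolynomial (Fin k) ℤ) = 0 := by simp [mlen]

theorem mlen_add (F G : MvPolynomial (Fin k) ℤ) : mlen (F + G) ≤ mlen F + mlen G := by
  classical
  have h := MvPolynomial.support_add (p := F) (q := G)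
  rw [mlen_eq (F + G) _ h, mlen_eq F (F.support ∪ G.support) Finset.subset_union_left,
    mlen_eq G (F.support ∪ G.support) Finset.subset_union_right, ← Finset.sum_add_distrib]
  refine Finset.sum_le_sum fun a _ => ?_
  rw [MvPolynomial.coeff_add]
  push_cast
  exact abs_add_le _ _

theorem mlen_sum {ι : Type*} (s : Finset ι) (f : ι → MvPolynomial (Fin k) ℤ) :
    mlen (∑ i ∈ s, f i) ≤ ∑ i ∈ s, mlen (f i) := by
  classical
  induction s using Finset.induction_on with
  | empty => simp [mlen_zero]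
  | insert a s ha ih =>
    rw [Finset.sum_insert ha, Finset.sum_insert ha]
    exact (mlen_add _ _).trans (by linarith)

theorem mlen_monomial (a : Fin k →₀ ℕ) (c : ℤ) :
    mlen (MvPolynomial.monomial a c) ≤ |(c : ℝ)| := by
  classical
  rw [mlen_eq _ {a} MvPolynomial.support_monomial_subset, Finset.sum_singleton,
    MvPolynomial.coeff_monomial, if_pos rfl]

theorem mlen_mul (F G : MvPolynomial (Fin k) ℤ) : mlen (F * G) ≤ mlen F * mlen G := by
  have h : F * G = ∑ a ∈ F.support, ∑ b ∈ G.support,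
      MvPolynomial.monomial (a + b) (MvPolynomial.coeff a F * MvPolynomial.coeff b G) := by
    conv_lhs => rw [← MvPolynomial.support_sum_monomial_coeff F,
      ← MvPolynomial.support_sum_monomial_coeff G]
    rw [Finset.sum_mul_sum]
    simp only [MvPolynomial.monomial_mul]
  rw [h]
  refine (mlen_sum _ _).trans ?_
  unfold mlen
  rw [Finset.sum_mul_sum]
  refine Finset.sum_le_sum fun a _ => ?_
  refine (mlen_sum _ _).trans (Finset.sum_le_sum fun b _ => ?_)
  refine (mlen_monomial _ _).trans ?_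
  push_cast
  rw [abs_mul]

theorem mlen_prod {ι : Type*} (s : Finset ι) (f : ι → MvPolynomial (Fin k) ℤ) (c : ℝ)
    (hf : ∀ i ∈ s, mlen (f i) ≤ c) (hc : 0 ≤ c) : mlen (∏ i ∈ s, f i) ≤ c ^ s.card := by
  classical
  induction s using Finset.induction_on with
  | empty =>
    have := mlen_monomial (k := k) 0 1
    simpa using this
  | insert a s ha ih =>
    rw [Finset.prod_insert ha, Finset.card_insert_of_notMem ha, pow_succ']
    refine (mlen_mul _ _).trans ?_
    exact mul_le_mul (hf a (Finset.mem_insert_self _ _))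
      (ih fun i hi => hf i (Finset.mem_insert_of_mem hi)) (mlen_nonneg _) hc

theorem mlen_det_lf {n : ℕ} (β : Fin n → Fin n → Fin k → ℤ) (B : ℝ) (hB : 0 ≤ B)
    (hβ : ∀ i j l, |(β i j l : ℝ)| ≤ B) :
    mlen (lf β).det ≤ (n.factorial : ℝ) * (k * B) ^ n := by
  rw [Matrix.det_apply']
  refine (mlen_sum _ _).trans ?_
  have h1 : (n.factorial : ℝ) * (k * B) ^ n = ∑ τ : Equiv.Perm (Fin n), (k * B) ^ n := by
    rw [Finset.sum_const, Finset.card_univ, Fintype.card_perm, Fintype.card_fin, nsmul_eq_mul]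
  rw [h1]
  refine Finset.sum_le_sum fun τ _ => ?_
  have h2 : mlen (∏ i, lf β (τ i) i) ≤ (k * B) ^ n := by
    have h3 := mlen_prod (univ : Finset (Fin n)) (fun i => lf β (τ i) i) (k * B) (fun i _ => by
      simp only [lf, Matrix.of_apply]
      refine (mlen_sum _ _).trans ?_
      have h4 : ∀ l ∈ (univ : Finset (Fin k)),
          mlen (MvPolynomial.C (β (τ i) i l) * MvPolynomial.X l) ≤ B := by
        intro l _
        rw [MvPolynomial.C_mul_X_eq_monomial]
        exact (mlen_monomial _ _).trans (hβ _ _ _)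
      refine (Finset.sum_le_sum h4).trans ?_
      simp) (by positivity)
    simpa using h3
  rcases Int.units_eq_one_or (Equiv.Perm.sign τ) with h | h
  · rw [h]
    simpa using h2
  · rw [h]
    have h5 : mlen (((((-1 : ℤˣ) : ℤ)) : MvPolynomial (Fin k) ℤ) * ∏ i, lf β (τ i) i) ≤
        mlen (((((-1 : ℤˣ) : ℤ)) : MvPolynomial (Fin k) ℤ)) * mlen (∏ i, lf β (τ i) i) :=
      mlen_mul _ _
    have h6 : mlen (((((-1 : ℤˣ) : ℤ)) : MvPolynomial (Fin k) ℤ)) ≤ 1 := by
      have h7 : (((((-1 : ℤˣ) : ℤ)) : MvPolynomial (Fin k) ℤ)) = MvPolynomial.monomial 0 (-1) := by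
        simp
      rw [h7]
      have := mlen_monomial (k := k) 0 (-1)
      simpa using this
    refine h5.trans ?_
    calc _ ≤ 1 * (k * B) ^ n := mul_le_mul h6 h2 (mlen_nonneg _) zero_le_one
      _ = _ := one_mul _

theorem sum_map_le {K : Type*} [Field K] [CharZero K] (φ : K →+* ℂ)
    (F : MvPolynomial (Fin k) ℤ) :
    ∑ a ∈ (MvPolynomial.map (Int.castRingHom K) F).support,
      ‖φ (MvPolynomial.coeff a (MvPolynomial.map (Int.castRingHom K) F))‖ ≤ mlen F := by
  unfold mlen
  have h1 : (MvPolynomial.map (Int.castRingHom K) F).support ⊆ F.support :=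
    MvPolynomial.support_map_subset _ _
  refine (Finset.sum_le_sum_of_subset_of_nonneg h1 (fun _ _ _ => norm_nonneg _)).trans ?_
  refine Finset.sum_le_sum fun a _ => ?_
  rw [MvPolynomial.coeff_map, eq_intCast, map_intCast, Complex.norm_intCast]

/-- Singular `n × n` matrices of logarithms near one, complex case. -/
theorem singularC (K : Type*) [Field K] [NumberField K] (σ : K →+* ℂ)
    (n k D H m : ℕ) (hn : 1 ≤ n) (B : ℝ) (hD : D ≠ 0) (hDB : (D : ℝ) ≤ B)
    (t : Fin k → K) (ht0 : ∀ i, t i ≠ 0) (htinj : Function.Injective t)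
    (hti : ∀ i, IsIntegral ℤ (t i)) (htB : ∀ (φ : K →+* ℂ) i, ‖φ (t i)‖ ≤ B)
    (β : Fin n → Fin n → Fin k → ℤ) (hβ : ∀ i j l, |(β i j l : ℝ)| ≤ B)
    (hm : m = ∑ i ∈ range (n + 1), k ^ i)
    (hH : (4 * (n.factorial : ℝ) * ((m.factorial : ℝ) * (k + 1) * (m * n + 1)) ^ n *
      B ^ (m * n + n + m + 1)) ^ (Module.finrank ℚ K + 1) < (H : ℝ))
    (M : Matrix (Fin n) (Fin n) ℂ)
    (hM : ∀ i j, M i j = ∑ l, (β i j l : ℂ) * Complex.log (1 + σ (t l / D) / H))
    (hdet : M.det = 0) :
    ∃ w v : Fin n → ℚ, w ≠ 0 ∧ v ≠ 0 ∧ ∑ i, ∑ j, (w i : ℂ) * M i j * (v j : ℂ) = 0 := by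
  have hD1 : (1 : ℝ) ≤ D := by exact_mod_cast Nat.one_le_iff_ne_zero.2 hD
  have hB : 1 ≤ B := by linarith
  have hB0 : 0 ≤ B := by linarith
  have hnfac : (1 : ℝ) ≤ n.factorial := by exact_mod_cast Nat.succ_le_of_lt n.factorial_pos
  have hk1 : (1 : ℝ) ≤ (k : ℝ) + 1 := by
    have : (0 : ℝ) ≤ k := by positivity
    linarith
  set A : ℝ := (n.factorial : ℝ) * ((k + 1) * B) ^ n with hA
  have hA1 : 1 ≤ A :=
    one_le_mul_of_one_le_of_one_le hnfac
      (one_le_pow₀ (one_le_mul_of_one_le_of_one_le hk1 hB))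
  set F : MvPolynomial (Fin k) K := MvPolynomial.map (Int.castRingHom K) (lf β).det with hF
  set lam : Fin k → ℂ := fun l => Complex.log (1 + σ (t l / D) / H) with hlam
  have hF0 : F = 0 := by
    refine coreC σ k n D H hD t ht0 htinj hti B hB htB F ?_ ?_ A hA1 ?_ m hm _ rfl ?_ ?_
    · intro a ha
      rw [hF, MvPolynomial.coeff_map,
        coeff_zero_of_totalDegree _ n (totalDegree_det_lf β) a ha, map_zero]
    · intro a
      rw [hF, MvPolynomial.coeff_map]
      exact isIntegral_algebraMap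
    · intro φ
      rw [hF]
      refine (sum_map_le φ _).trans ((mlen_det_lf β B hB0 hβ).trans ?_)
      rw [hA]
      apply mul_le_mul_of_nonneg_left _ (by positivity)
      apply pow_le_pow_left₀ (by positivity)
      apply mul_le_mul_of_nonneg_right _ hB0
      linarith
    · refine lt_of_le_of_lt (pow_le_pow_left₀ (by positivity) ?_ _) hH
      have h2 : (((m.factorial * D ^ m) ^ n : ℕ) : ℝ) ≤ (m.factorial : ℝ) ^ n * B ^ (m * n) := by
        push_cast
        rw [mul_pow, ← pow_mul]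
        exact mul_le_mul_of_nonneg_left (pow_le_pow_left₀ (by positivity) hDB _) (by positivity)
      calc 4 * (((m.factorial * D ^ m) ^ n : ℕ) : ℝ) * A * ((m * n + 1 : ℕ) : ℝ) ^ n *
            B ^ (m + 1)
          ≤ 4 * ((m.factorial : ℝ) ^ n * B ^ (m * n)) * A * ((m * n + 1 : ℕ) : ℝ) ^ n *
            B ^ (m + 1) := by gcongr
        _ = 4 * (n.factorial : ℝ) * ((m.factorial : ℝ) * (k + 1) * (m * n + 1)) ^ n *
            B ^ (m * n + n + m + 1) := by
            rw [hA]
            push_cast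
            rw [mul_pow, mul_pow, mul_pow, pow_add, pow_add, pow_add, pow_add]
            ring
    · rw [hF, MvPolynomial.eval₂_map]
      have h1 : σ.comp (Int.castRingHom K) = Int.castRingHom ℂ := by
        ext x
        simp
      rw [h1, eval_det_lf, ← hdet]
      congr 1
      ext i j
      rw [hM i j]
      simp [Matrix.of_apply]
  have hdet0 : (lf β).det = 0 := by
    apply MvPolynomial.map_injective (Int.castRingHom K) (Int.cast_injective)
    rw [map_zero]
    exact hF0
  obtain ⟨w, v, hw, hv, h⟩ := pencil_int hn β hdet0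
  refine ⟨w, v, hw, hv, ?_⟩
  have h1 : ∀ i j, (w i : ℂ) * M i j * (v j : ℂ) =
      ∑ l, ((w i * (β i j l : ℚ) * v j : ℚ) : ℂ) * lam l := by
    intro i j
    rw [hM i j, Finset.mul_sum, Finset.sum_mul]
    refine Finset.sum_congr rfl fun l _ => ?_
    push_cast
    ring
  calc ∑ i, ∑ j, (w i : ℂ) * M i j * (v j : ℂ)
      = ∑ i, ∑ j, ∑ l, ((w i * (β i j l : ℚ) * v j : ℚ) : ℂ) * lam l := by
        simp only [h1]
    _ = ∑ l, ((∑ i, ∑ j, w i * (β i j l : ℚ) * v j : ℚ) : ℂ) * lam l := by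
        rw [Finset.sum_congr rfl fun i _ => Finset.sum_comm, Finset.sum_comm]
        refine Finset.sum_congr rfl fun l _ => ?_
        push_cast
        simp only [Finset.sum_mul]
    _ = 0 := by
        apply Finset.sum_eq_zero
        intro l _
        rw [h l]
        simp

end Pool.Agent.NearOne652
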