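import Mathlib
import Pool.Agent.NearOne652.CoreC

set_option autoImplicit false
set_option linter.unusedSectionVars false

open Finset

namespace Pool.Agent.NearOne652

theorem hasSum_one_add_cpow (a z : ℂ) (hz : ‖z‖ < 1) :
    HasSum (fun n : ℕ => (∏ i ∈ range n, (a - i)) / n.factorial * z ^ n) ((1 + z) ^ a) := by
  have h1 := (Complex.one_add_cpow_hasFPowerSeriesOnBall_zero (a := a)).hasSum (y := z) (by
    rw [← ENNReal.ofReal_one, Metric.eball_ofReal]
    simpa using hz)
  rw [zero_add] at h1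
  have e : (fun n : ℕ => (∏ i ∈ range n, (a - i)) / n.factorial * z ^ n) =
      fun n => binomialSeries ℂ a n (fun _ => z) := by
    funext n
    rw [binomialSeries_apply, List.ofFn_const, List.prod_replicate, smul_eq_mul]
    congr 1
    have h2 := Ring.descPochhammer_eq_factorial_smul_choose a n
    have h3 : ∀ n : ℕ, (descPochhammer ℤ n).smeval a = ∏ i ∈ range n, (a - i) := by
      intro n
      induction n with
      | zero => simp
      | succ n ih =>
        rw [Finset.prod_range_succ, ← ih]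
        simp [descPochhammer_succ_right, Polynomial.smeval_mul, Polynomial.smeval_natCast]
    rw [h3, nsmul_eq_mul] at h2
    rw [h2]
    have : (n.factorial : ℂ) ≠ 0 := Nat.cast_ne_zero.2 n.factorial_ne_zero
    field_simp
  rw [e]
  exact h1

theorem falling_indep {K : Type*} [Field K] [CharZero K] (m : ℕ) (l : Fin m → K)
    (hl : Function.Injective l) (c : Fin m → K)
    (h : ∀ n < m, ∑ j, c j * ∏ i ∈ range n, (l j - i) = 0) : c = 0 := by
  set P : Fin m → Polynomial K := fun n => ∏ i ∈ range n, (Polynomial.X - Polynomial.C (i : K))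
    with hP
  have hmon : ∀ n, (P n).Monic := fun n =>
    Polynomial.monic_prod_of_monic _ _ fun i _ => Polynomial.monic_X_sub_C _
  have hdeg : ∀ n, (P n).natDegree = n := by
    intro n
    rw [hP]
    simp only
    rw [Polynomial.natDegree_prod_of_monic _ _ fun i _ => Polynomial.monic_X_sub_C _]
    simp only [Polynomial.natDegree_X_sub_C, sum_const, card_range, smul_eq_mul, mul_one]
  have h1 := Matrix.det_eval_matrixOfPolynomials_eq_det_vandermonde l P hdeg hmon
  have h2 : (Matrix.of (fun i j => ((P j).eval (l i)))).det ≠ 0 := by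
    rw [← h1]
    exact Matrix.det_vandermonde_ne_zero_iff.2 hl
  apply Matrix.eq_zero_of_vecMul_eq_zero h2
  funext n
  rw [Matrix.vecMul, Pi.zero_apply, ← h n n.2]
  simp only [dotProduct, Matrix.of_apply]
  refine Finset.sum_congr rfl fun j _ => ?_
  rw [hP]
  simp only
  rw [Polynomial.eval_prod]
  simp

theorem norm_falling_le (φ : ℂ) (B : ℝ) (hB : 1 ≤ B) (hφ : ‖φ‖ ≤ B) (n : ℕ) :
    ‖(∏ i ∈ range n, (φ - i)) / (n.factorial : ℂ)‖ ≤ B ^ n := by
  induction n with
  | zero => simp
  | succ n ih =>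
    rw [Finset.prod_range_succ, Nat.factorial_succ]
    push_cast
    rw [mul_comm ((n : ℂ) + 1), mul_div_mul_comm, norm_mul, pow_succ]
    refine mul_le_mul ih ?_ (norm_nonneg _) (by positivity)
    have h1 : ‖((n : ℂ) + 1)‖ = (n : ℝ) + 1 := by
      rw [← Nat.cast_one, ← Nat.cast_add, Complex.norm_natCast]
      push_cast
      rfl
    rw [norm_div, h1, div_le_iff₀ (by positivity)]
    have h2 : ‖φ - (n : ℂ)‖ ≤ B + n := by
      refine (norm_sub_le _ _).trans ?_
      rw [Complex.norm_natCast]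
      linarith
    refine h2.trans ?_
    have h3 : (0 : ℝ) ≤ n := by positivity
    nlinarith

/-- **Core theorem for algebraic powers** of algebraic numbers close to one. -/
theorem powC (K : Type*) [Field K] [NumberField K] (σ : K →+* ℂ)
    (m D E H : ℕ) (B : ℝ) (hD : D ≠ 0) (hDB : (D : ℝ) ≤ B) (hE : E ≠ 0) (hEB : (E : ℝ) ≤ B)
    (t : K) (ht0 : t ≠ 0) (hti : IsIntegral ℤ t) (htB : ∀ φ : K →+* ℂ, ‖φ t‖ ≤ B)
    (b : Fin m → K) (hb : Function.Injective b) (hbi : ∀ j, IsIntegral ℤ (b j))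
    (hbB : ∀ (φ : K →+* ℂ) j, ‖φ (b j)‖ ≤ B)
    (c : Fin m → K) (hc0 : c ≠ 0) (hci : ∀ j, IsIntegral ℤ (c j))
    (hcB : ∀ φ : K →+* ℂ, ∑ j, ‖φ (c j)‖ ≤ B)
    (hH : (2 * (m.factorial : ℝ) * B ^ (4 * m)) ^ (Module.finrank ℚ K + 1) < (H : ℝ)) :
    ∑ j, σ (c j) * (1 + σ (t / D) / H) ^ (σ (b j / E)) ≠ 0 := by
  classical
  intro hzero
  have hD1 : (1 : ℝ) ≤ D := by exact_mod_cast Nat.one_le_iff_ne_zero.2 hD
  have hE1 : (1 : ℝ) ≤ E := by exact_mod_cast Nat.one_le_iff_ne_zero.2 hE
  have hB : 1 ≤ B := by linarith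
  have hB0 : 0 ≤ B := by linarith
  have hDK : (D : K) ≠ 0 := Nat.cast_ne_zero.2 hD
  have hEK : (E : K) ≠ 0 := Nat.cast_ne_zero.2 hE
  have hdivB : ∀ (φ : K →+* ℂ) (x : K) (q : ℕ), (1 : ℝ) ≤ q → ‖φ x‖ ≤ B → ‖φ (x / q)‖ ≤ B := by
    intro φ x q hq hx
    rw [map_div₀, map_natCast, norm_div, Complex.norm_natCast]
    exact (div_le_self (norm_nonneg _) hq).trans hx
  set T : K := t / D with hT
  have hT0 : T ≠ 0 := div_ne_zero ht0 hDK
  set l : Fin m → K := fun j => b j / E with hl
  have hlinj : Function.Injective l := by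
    intro i j hij
    apply hb
    have h1 : b i / E = b j / E := hij
    field_simp at h1
    exact h1
  set g : ℕ → K := fun n => ∑ j, c j * ∏ i ∈ range n, (l j - i) with hg
  have hex : ∃ n, n < m ∧ g n ≠ 0 := by
    by_contra hcon
    push Not at hcon
    exact hc0 (falling_indep m l hlinj c hcon)
  set n0 := Nat.find hex with hn0
  have hn0m : n0 < m := (Nat.find_spec hex).1
  have hgn0 : g n0 ≠ 0 := (Nat.find_spec hex).2
  have hlow : ∀ n < n0, g n = 0 := by
    intro n hn
    by_contra h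
    exact Nat.find_min hex hn ⟨by omega, h⟩
  -- size of `H`
  set Y : ℝ := 2 * (m.factorial : ℝ) * B ^ (4 * m) with hY
  have hfac : (1 : ℝ) ≤ m.factorial := by exact_mod_cast Nat.succ_le_of_lt m.factorial_pos
  have hYB : 2 * B ^ 2 ≤ Y := by
    rw [hY]
    have h1 : B ^ 2 ≤ B ^ (4 * m) := pow_le_pow_right₀ hB (by omega)
    calc 2 * B ^ 2 ≤ 2 * B ^ (4 * m) := by linarith
      _ ≤ 2 * (m.factorial : ℝ) * B ^ (4 * m) := by
          apply mul_le_mul_of_nonneg_right _ (by positivity)
          linarith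
  have hB2 : 1 ≤ B ^ 2 := one_le_pow₀ hB
  have hY1 : 1 ≤ Y := by linarith
  have hYH : Y < H := lt_of_le_of_lt (le_self_pow₀ hY1 (by omega)) hH
  have hH0 : (0 : ℝ) < H := by linarith
  have hr : B ^ 2 / H ≤ 1 / 2 := by
    rw [div_le_div_iff₀ hH0 (by norm_num)]
    linarith
  have hr0 : 0 ≤ B ^ 2 / H := by positivity
  set z : ℂ := σ T / H with hz
  have hzB : ‖z‖ ≤ B / H := by
    rw [hz, norm_div, Complex.norm_natCast]
    exact div_le_div_of_nonneg_right (hdivB σ t D hD1 (htB σ)) hH0.le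
  have hz1 : ‖z‖ < 1 := by
    refine lt_of_le_of_lt hzB ?_
    rw [div_lt_one hH0]
    have : B ≤ B ^ 2 := le_self_pow₀ hB (by norm_num)
    linarith
  -- the series
  set G : ℕ → ℂ := fun n => σ (g n) / n.factorial * z ^ n with hG
  have hGs : HasSum G 0 := by
    rw [← hzero]
    have h1 : ∀ j ∈ (univ : Finset (Fin m)), HasSum (fun n : ℕ => σ (c j) *
        ((∏ i ∈ range n, (σ (l j) - i)) / n.factorial * z ^ n))
        (σ (c j) * (1 + z) ^ (σ (l j))) := fun j _ =>
      (hasSum_one_add_cpow (σ (l j)) z hz1).mul_left _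
    have h2 := hasSum_sum h1
    have e : (fun n : ℕ => ∑ j, σ (c j) *
        ((∏ i ∈ range n, (σ (l j) - i)) / n.factorial * z ^ n)) = G := by
      funext n
      rw [hG, hg]
      simp only
      rw [map_sum, Finset.sum_div, Finset.sum_mul]
      refine Finset.sum_congr rfl fun j _ => ?_
      rw [map_mul, map_prod]
      simp only [map_sub, map_natCast]
      ring
    rw [← e]
    exact h2
  have hGB : ∀ n, ‖G n‖ ≤ B * (B ^ 2 / H) ^ n := by
    intro n
    rw [hG, hg]
    simp only
    have e1 : σ (∑ j, c j * ∏ i ∈ range n, (l j - i)) / (n.factorial : ℂ) =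
        ∑ j, σ (c j) * ((∏ i ∈ range n, (σ (l j) - i)) / (n.factorial : ℂ)) := by
      rw [map_sum, Finset.sum_div]
      refine Finset.sum_congr rfl fun j _ => ?_
      rw [map_mul, map_prod]
      simp only [map_sub, map_natCast]
      ring
    rw [e1, norm_mul, norm_pow]
    have e2 : ‖∑ j, σ (c j) * ((∏ i ∈ range n, (σ (l j) - i)) / (n.factorial : ℂ))‖ ≤
        B * B ^ n := by
      calc ‖∑ j, σ (c j) * ((∏ i ∈ range n, (σ (l j) - i)) / (n.factorial : ℂ))‖
          ≤ ∑ j, ‖σ (c j) * ((∏ i ∈ range n, (σ (l j) - i)) / (n.factorial : ℂ))‖ :=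
            norm_sum_le _ _
        _ ≤ ∑ j, ‖σ (c j)‖ * B ^ n := by
            apply Finset.sum_le_sum
            intro j _
            rw [norm_mul]
            exact mul_le_mul_of_nonneg_left
              (norm_falling_le (σ (l j)) B hB (hdivB σ _ E hE1 (hbB σ j)) n) (norm_nonneg _)
        _ = (∑ j, ‖σ (c j)‖) * B ^ n := by rw [Finset.sum_mul]
        _ ≤ B * B ^ n := mul_le_mul_of_nonneg_right (hcB σ) (by positivity)
    calc _ ≤ (B * B ^ n) * (B / H) ^ n :=
          mul_le_mul e2 (pow_le_pow_left₀ (norm_nonneg _) hzB n) (by positivity) (by positivity)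
      _ = B * (B ^ 2 / H) ^ n := by
          rw [mul_assoc, ← mul_pow]
          congr 2
          ring
  have hgs : Summable G := hGs.summable
  have hsum : ∑' n, G n = 0 := hGs.tsum_eq
  have hsplit := hgs.sum_add_tsum_nat_add (n0 + 1)
  have hfin : ∑ i ∈ range (n0 + 1), G i = G n0 := by
    rw [Finset.sum_range_succ, Finset.sum_eq_zero, zero_add]
    intro i hi
    rw [hG]
    simp only
    rw [hlow i (Finset.mem_range.1 hi), map_zero, zero_div, zero_mul]
  have htail : ‖∑' i, G (i + (n0 + 1))‖ ≤ 2 * B * (B ^ 2 / H) ^ (n0 + 1) := by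
    have h1 : HasSum (fun i : ℕ => B * (B ^ 2 / H) ^ (n0 + 1) * (B ^ 2 / H) ^ i)
        (B * (B ^ 2 / H) ^ (n0 + 1) * (1 - B ^ 2 / H)⁻¹) :=
      (hasSum_geometric_of_lt_one hr0 (by linarith)).mul_left _
    have h2 := tsum_of_norm_bounded h1 (fun i => by
      refine (hGB (i + (n0 + 1))).trans (le_of_eq ?_)
      rw [pow_add]
      ring)
    refine h2.trans ?_
    have h3 : (1 - B ^ 2 / H)⁻¹ ≤ 2 := by
      rw [inv_le_comm₀ (by linarith) (by norm_num)]
      linarith
    calc B * (B ^ 2 / H) ^ (n0 + 1) * (1 - B ^ 2 / H)⁻¹ ≤ B * (B ^ 2 / H) ^ (n0 + 1) * 2 :=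
          mul_le_mul_of_nonneg_left h3 (by positivity)
      _ = _ := by ring
  have hGn0 : ‖G n0‖ ≤ 2 * B * (B ^ 2 / H) ^ (n0 + 1) := by
    have h1 : G n0 = - ∑' i, G (i + (n0 + 1)) := by
      rw [hfin, hsum] at hsplit
      exact eq_neg_of_add_eq_zero_left hsplit
    rw [h1, norm_neg]
    exact htail
  have hfac2 : (n0.factorial : ℝ) ≤ m.factorial := by
    exact_mod_cast Nat.factorial_le hn0m.le
  have hn0f : (0 : ℝ) < n0.factorial := by exact_mod_cast n0.factorial_pos
  have hσ : ‖σ (g n0)‖ * ‖σ T‖ ^ n0 ≤ m.factorial * (2 * B * B ^ (2 * n0 + 2) / H) := by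
    rw [hG] at hGn0
    simp only at hGn0
    rw [norm_mul, norm_div, norm_pow, hz, norm_div, Complex.norm_natCast, Complex.norm_natCast,
      div_pow, div_pow] at hGn0
    have hHp : (0 : ℝ) < (H : ℝ) ^ n0 := by positivity
    have h1 : ‖σ (g n0)‖ * ‖σ T‖ ^ n0 ≤ (2 * B * ((B ^ 2) ^ (n0 + 1) / (H : ℝ) ^ (n0 + 1))) *
        ((n0.factorial : ℝ) * (H : ℝ) ^ n0) := by
      rw [← div_le_iff₀ (by positivity)]
      refine le_trans (le_of_eq ?_) hGn0
      rw [mul_div_mul_comm]
    refine h1.trans ?_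
    have h2 : (2 * B * ((B ^ 2) ^ (n0 + 1) / (H : ℝ) ^ (n0 + 1))) *
        ((n0.factorial : ℝ) * (H : ℝ) ^ n0) =
        n0.factorial * (2 * B * B ^ (2 * n0 + 2) / H) := by
      have hHne : (H : ℝ) ≠ 0 := hH0.ne'
      rw [pow_succ (H : ℝ) n0, ← pow_mul]
      have : 2 * (n0 + 1) = 2 * n0 + 2 := by ring
      rw [this]
      field_simp
    rw [h2]
    exact mul_le_mul_of_nonneg_right hfac2 (by positivity)
  -- Liouville
  set γ : K := t ^ n0 * ∑ j, c j * ∏ i ∈ range n0, (b j - (i : K) * E) with hγ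
  have hγe : γ = (D : K) ^ n0 * (E : K) ^ n0 * (T ^ n0 * g n0) := by
    have e1 : ∀ j, ∏ i ∈ range n0, (b j - (i : K) * E) =
        (E : K) ^ n0 * ∏ i ∈ range n0, (l j - i) := by
      intro j
      have : (E : K) ^ n0 = ∏ i ∈ range n0, (E : K) := by
        rw [Finset.prod_const, card_range]
      rw [this, ← Finset.prod_mul_distrib]
      refine Finset.prod_congr rfl fun i _ => ?_
      rw [hl]
      field_simp
    have e2 : t ^ n0 = (D : K) ^ n0 * T ^ n0 := by
      rw [← mul_pow, hT]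
      congr 1
      field_simp
    rw [hγ, e2, hg]
    simp only
    simp_rw [e1]
    rw [show ∑ j, c j * ((E : K) ^ n0 * ∏ i ∈ range n0, (l j - i)) =
      (E : K) ^ n0 * ∑ j, c j * ∏ i ∈ range n0, (l j - i) by
        rw [Finset.mul_sum]
        exact Finset.sum_congr rfl fun j _ => by ring]
    ring
  have hγ0 : γ ≠ 0 := by
    rw [hγe]
    exact mul_ne_zero (mul_ne_zero (pow_ne_zero _ hDK) (pow_ne_zero _ hEK))
      (mul_ne_zero (pow_ne_zero _ hT0) hgn0)
  have hγi : IsIntegral ℤ γ := by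
    rw [hγ]
    refine (hti.pow _).mul (IsIntegral.sum _ fun j _ => (hci j).mul
      (IsIntegral.prod _ fun i _ => ?_))
    exact (hbi j).sub ((natCast_integral _).mul (natCast_integral _))
  have hγB : ∀ φ : K →+* ℂ, ‖φ γ‖ ≤ Y := by
    intro φ
    rw [hγ, map_mul, map_pow, norm_mul, norm_pow, map_sum]
    have h1 : ∀ j, ‖φ (∏ i ∈ range n0, (b j - (i : K) * E))‖ ≤ B ^ n0 * m.factorial := by
      intro j
      rw [map_prod, norm_prod]
      calc ∏ i ∈ range n0, ‖φ (b j - (i : K) * E)‖ ≤ ∏ i ∈ range n0, (B * ((i : ℝ) + 1)) := by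
            apply Finset.prod_le_prod (fun _ _ => norm_nonneg _)
            intro i _
            rw [map_sub, map_mul, map_natCast, map_natCast]
            refine (norm_sub_le _ _).trans ?_
            rw [norm_mul, Complex.norm_natCast, Complex.norm_natCast]
            have h2 := hbB φ j
            have h3 : (i : ℝ) * E ≤ i * B := mul_le_mul_of_nonneg_left hEB (by positivity)
            linarith
        _ = B ^ n0 * n0.factorial := by
            rw [Finset.prod_mul_distrib, Finset.prod_const, card_range]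
            congr 1
            rw [← Finset.prod_range_add_one_eq_factorial]
            push_cast
            rfl
        _ ≤ B ^ n0 * m.factorial := mul_le_mul_of_nonneg_left hfac2 (by positivity)
    calc ‖φ t‖ ^ n0 * ‖∑ j, φ (c j * ∏ i ∈ range n0, (b j - (i : K) * E))‖
        ≤ B ^ n0 * (B * (B ^ n0 * m.factorial)) := by
          apply mul_le_mul (pow_le_pow_left₀ (norm_nonneg _) (htB φ) _) _ (norm_nonneg _)
            (by positivity)
          calc ‖∑ j, φ (c j * ∏ i ∈ range n0, (b j - (i : K) * E))‖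
              ≤ ∑ j, ‖φ (c j * ∏ i ∈ range n0, (b j - (i : K) * E))‖ := norm_sum_le _ _
            _ ≤ ∑ j, ‖φ (c j)‖ * (B ^ n0 * m.factorial) := by
                apply Finset.sum_le_sum
                intro j _
                rw [map_mul, norm_mul]
                exact mul_le_mul_of_nonneg_left (h1 j) (norm_nonneg _)
            _ = (∑ j, ‖φ (c j)‖) * (B ^ n0 * m.factorial) := by rw [Finset.sum_mul]
            _ ≤ B * (B ^ n0 * m.factorial) := mul_le_mul_of_nonneg_right (hcB φ) (by positivity)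
      _ = m.factorial * B ^ (2 * n0 + 1) := by ring
      _ ≤ m.factorial * B ^ (4 * m) :=
          mul_le_mul_of_nonneg_left (pow_le_pow_right₀ hB (by omega)) (by positivity)
      _ ≤ Y := by
          rw [hY]
          have : 0 ≤ (m.factorial : ℝ) * B ^ (4 * m) := by positivity
          linarith
  have hL := liouvilleC K σ γ hγi hγ0 Y hY1 hγB
  have hσγ : ‖σ γ‖ ≤ Y / H := by
    rw [hγe, map_mul, map_mul, map_mul, map_pow, map_pow, map_pow, map_natCast, map_natCast,
      norm_mul, norm_mul, norm_mul, norm_pow, norm_pow, norm_pow, Complex.norm_natCast,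
      Complex.norm_natCast]
    calc (D : ℝ) ^ n0 * (E : ℝ) ^ n0 * (‖σ T‖ ^ n0 * ‖σ (g n0)‖)
        ≤ B ^ n0 * B ^ n0 * (m.factorial * (2 * B * B ^ (2 * n0 + 2) / H)) := by
          rw [mul_comm (‖σ T‖ ^ n0)]
          apply mul_le_mul _ hσ (by positivity) (by positivity)
          exact mul_le_mul (pow_le_pow_left₀ (by positivity) hDB _)
            (pow_le_pow_left₀ (by positivity) hEB _) (by positivity) (by positivity)
      _ = 2 * (m.factorial : ℝ) * B ^ (4 * n0 + 3) / H := by ring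
      _ ≤ 2 * (m.factorial : ℝ) * B ^ (4 * m) / H := by
          apply div_le_div_of_nonneg_right _ hH0.le
          exact mul_le_mul_of_nonneg_left (pow_le_pow_right₀ hB (by omega)) (by positivity)
      _ = Y / H := by rw [hY]
  have hfin2 : (H : ℝ) ≤ Y ^ (Module.finrank ℚ K + 1) := by
    have h1 : 1 ≤ Y ^ (Module.finrank ℚ K) * (Y / H) :=
      hL.trans (mul_le_mul_of_nonneg_left hσγ (by positivity))
    rw [← mul_div_assoc, ← pow_succ, one_le_div hH0] at h1
    exact h1
  linarith

end Pool.Agent.NearOne652
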